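import Pool.Agent.TH831.OT.Rel

/-!
# Two-dimensional representations over a discrete valuation ring, up to conjugation
-/

set_option autoImplicit false

namespace Pool.Agent.TH831.OE

open Matrix Pool.Agent.TH831.OT

/-- a domain with a uniformizer `π` and the reduction `q` modulo `π` -/
structure Bas (O κ : Type) [CommRing O] [Field κ] where
  q : O →+* κ
  π : O
  hπ : π ≠ 0
  surj : Function.Surjective q
  ker : ∀ x, q x = 0 ↔ π ∣ x
  unit : ∀ x, q x ≠ 0 → IsUnit x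
  fin : ∀ x, x ≠ 0 → ∃ n : ℕ, ¬ π ^ (n + 1) ∣ x

section
variable {O κ : Type} [CommRing O] [IsDomain O] [Field κ] (B : Bas O κ)

theorem ppow_ne (k : ℕ) : B.π ^ k ≠ 0 := pow_ne_zero _ B.hπ

variable {B}

theorem dvd_cancel {k : ℕ} {x y : O} (h : B.π ^ k * x = B.π ^ k * y) : x = y :=
  mul_left_cancel₀ (ppow_ne B k) h

theorem smul_cancel {k : ℕ} {M N : Matrix (Fin 2) (Fin 2) O} (h : B.π ^ k • M = B.π ^ k • N) :
    M = N := smul_right_injective _ (ppow_ne B k) h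

omit [IsDomain O] in
theorem q_pi : B.q B.π = 0 := (B.ker _).2 dvd_rfl

theorem spl (x : O) (hx : x ≠ 0) : ∃ (n : ℕ) (y : O), x = B.π ^ n * y ∧ B.q y ≠ 0 := by
  classical
  have h := B.fin x hx
  set n := Nat.find h with hn
  have h1 : ¬ B.π ^ (n + 1) ∣ x := Nat.find_spec h
  have h2 : B.π ^ n ∣ x := by
    rcases Nat.eq_zero_or_pos n with h0 | h0
    · rw [h0, pow_zero]; exact one_dvd _
    · have h3 := Nat.find_min h (m := n - 1) (by omega)
      push Not at h3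
      rwa [Nat.sub_add_cancel h0] at h3
  obtain ⟨y, hy⟩ := h2
  refine ⟨n, y, hy, fun h3 => h1 ?_⟩
  obtain ⟨z, hz⟩ := (B.ker y).1 h3
  exact ⟨z, by rw [hy, hz]; ring⟩

theorem two_lvl {k j : ℕ} {x y : O} (h : B.π ^ k * x = B.π ^ j * y) (hy : B.q y ≠ 0) (hjk : j < k) :
    False := by
  obtain ⟨t, rfl⟩ := Nat.exists_eq_add_of_lt hjk
  have h1 : B.π ^ j * (B.π ^ (t + 1) * x) = B.π ^ j * y := by
    rw [← h]; ring
  have h2 := dvd_cancel h1
  apply hy
  rw [← h2, map_mul, map_pow, q_pi, zero_pow (Nat.succ_ne_zero t), zero_mul]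

end

/-- the underlying matrix -/
abbrev mt {O : Type} [CommRing O] (M : GL (Fin 2) O) : Matrix (Fin 2) (Fin 2) O := M

section
variable {O κ : Type} [CommRing O] [IsDomain O] [Field κ] {B : Bas O κ} {G : Type} [Group G]

/-- the elements of `D` preserve a line -/
def HasLine (ρ : G →* GL (Fin 2) O) (D : Set G) : Prop :=
  ∃ v : Fin 2 → O, v ≠ 0 ∧ ∀ g ∈ D, wed (mt (ρ g) *ᵥ v) v = 0

/-- conjugate over the fraction field -/
def Rel (ρ ρ' : G →* GL (Fin 2) O) : Prop :=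
  ∃ Q : Matrix (Fin 2) (Fin 2) O, Q.det ≠ 0 ∧ ∀ g, Q * mt (ρ g) = mt (ρ' g) * Q

omit [IsDomain O] in
theorem Rel.refl (ρ : G →* GL (Fin 2) O) [Nontrivial O] : Rel ρ ρ :=
  ⟨1, by simp, fun g => by rw [one_mul, mul_one]⟩

theorem Rel.symm {ρ ρ' : G →* GL (Fin 2) O} (h : Rel ρ ρ') : Rel ρ' ρ := by
  obtain ⟨Q, hQ, h⟩ := h
  refine ⟨Q.adjugate, ?_, fun g => ?_⟩
  · rw [Matrix.det_adjugate]
    simpa using hQ
  · have h1 : Q.adjugate * (mt (ρ' g) * Q) * Q.adjugate = Q.adjugate * (Q * mt (ρ g)) * Q.adjugate := by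
      rw [h g]
    have h2 : Q.adjugate * (mt (ρ' g) * Q) * Q.adjugate = Q.det • (Q.adjugate * mt (ρ' g)) := by
      rw [mul_assoc, mul_assoc, Matrix.mul_adjugate, Matrix.mul_smul, Matrix.mul_one,
        Matrix.mul_smul]
    have h3 : Q.adjugate * (Q * mt (ρ g)) * Q.adjugate = Q.det • (mt (ρ g) * Q.adjugate) := by
      rw [← mul_assoc, Matrix.adjugate_mul, Matrix.smul_mul, Matrix.one_mul, Matrix.smul_mul]
    rw [h2, h3] at h1
    exact smul_right_injective _ hQ h1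

theorem Rel.trans {ρ ρ' ρ'' : G →* GL (Fin 2) O} (h : Rel ρ ρ') (h' : Rel ρ' ρ'') :
    Rel ρ ρ'' := by
  obtain ⟨Q, hQ, h⟩ := h
  obtain ⟨Q', hQ', h'⟩ := h'
  refine ⟨Q' * Q, by rw [Matrix.det_mul]; exact mul_ne_zero hQ' hQ, fun g => ?_⟩
  rw [mul_assoc, h g, ← mul_assoc, h' g, mul_assoc]

theorem Rel.det {ρ ρ' : G →* GL (Fin 2) O} (h : Rel ρ ρ') (g : G) :
    (mt (ρ' g)).det = (mt (ρ g)).det := by
  obtain ⟨Q, hQ, h⟩ := h
  have h1 := congrArg Matrix.det (h g)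
  rw [Matrix.det_mul, Matrix.det_mul, mul_comm] at h1
  exact (mul_right_cancel₀ hQ h1).symm

theorem Rel.trace {ρ ρ' : G →* GL (Fin 2) O} (h : Rel ρ ρ') (g : G) :
    (mt (ρ' g)).trace = (mt (ρ g)).trace := by
  obtain ⟨Q, hQ, h⟩ := h
  have h1 : (Q * mt (ρ g) * Q.adjugate).trace = (mt (ρ' g) * Q * Q.adjugate).trace := by rw [h g]
  rw [Matrix.trace_mul_comm, ← mul_assoc, Matrix.adjugate_mul, Matrix.smul_mul, Matrix.one_mul,
    mul_assoc, Matrix.mul_adjugate, Matrix.mul_smul, Matrix.mul_one, Matrix.trace_smul,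
    Matrix.trace_smul, smul_eq_mul, smul_eq_mul] at h1
  exact (mul_left_cancel₀ hQ h1).symm

theorem mulVec_ne_zero {Q : Matrix (Fin 2) (Fin 2) O} (hQ : Q.det ≠ 0) {v : Fin 2 → O}
    (hv : v ≠ 0) : Q *ᵥ v ≠ 0 := by
  intro h
  apply hv
  have h1 : Q.adjugate *ᵥ (Q *ᵥ v) = 0 := by rw [h, Matrix.mulVec_zero]
  rw [Matrix.mulVec_mulVec, Matrix.adjugate_mul, Matrix.smul_mulVec, Matrix.one_mulVec] at h1
  exact (smul_eq_zero.1 h1).resolve_left hQ

theorem Rel.line {ρ ρ' : G →* GL (Fin 2) O} (h : Rel ρ ρ') {D : Set G}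
    (hl : HasLine ρ D) : HasLine ρ' D := by
  obtain ⟨Q, hQ, h⟩ := h
  obtain ⟨v, hv, hl⟩ := hl
  refine ⟨Q *ᵥ v, mulVec_ne_zero hQ hv, fun g hg => ?_⟩
  rw [Matrix.mulVec_mulVec, ← h g, ← Matrix.mulVec_mulVec, wed_mulVec, hl g hg, mul_zero]

theorem Rel.unr {ρ ρ' : G →* GL (Fin 2) O} (h : Rel ρ ρ') {g : G} (hg : ρ g = 1) :
    ρ' g = 1 := by
  obtain ⟨Q, hQ, h⟩ := h
  have h1 := h g
  rw [hg] at h1
  have h2 : Q * (1 : Matrix (Fin 2) (Fin 2) O) = mt (ρ' g) * Q := h1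
  have h3 : mt (ρ' g) * Q * Q.adjugate = Q * Q.adjugate := by rw [← h2, mul_one]
  rw [mul_assoc, Matrix.mul_adjugate, Matrix.mul_smul, Matrix.mul_one] at h3
  exact Units.ext (smul_right_injective _ hQ h3)

/-- construction of a conjugate representation -/
theorem exists_rel (ρ : G →* GL (Fin 2) O) (Q : Matrix (Fin 2) (Fin 2) O) (hQ : Q.det ≠ 0)
    (M : G → Matrix (Fin 2) (Fin 2) O) (hM : ∀ g, Q * mt (ρ g) = M g * Q) :
    ∃ ρ' : G →* GL (Fin 2) O, Rel ρ ρ' ∧ ∀ g, mt (ρ' g) = M g := by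
  have hcancel : ∀ A B : Matrix (Fin 2) (Fin 2) O, A * Q = B * Q → A = B := by
    intro A B hAB
    have h1 : A * Q * Q.adjugate = B * Q * Q.adjugate := by rw [hAB]
    rw [mul_assoc, mul_assoc, Matrix.mul_adjugate, Matrix.mul_smul, Matrix.mul_smul,
      Matrix.mul_one, Matrix.mul_one] at h1
    exact smul_right_injective _ hQ h1
  have h1 : M 1 = 1 := by
    apply hcancel
    rw [← hM, map_one]
    show Q * 1 = 1 * Q
    rw [mul_one, one_mul]
  have h2 : ∀ a b, M (a * b) = M a * M b := by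
    intro a b
    apply hcancel
    have e : mt (ρ (a * b)) = mt (ρ a) * mt (ρ b) := by
      rw [map_mul]
      rfl
    rw [← hM, e, ← mul_assoc, hM a, mul_assoc, mul_assoc, hM b]
  let M' : G →* Matrix (Fin 2) (Fin 2) O :=
    { toFun := M, map_one' := h1, map_mul' := h2 }
  refine ⟨M'.toHomUnits, ⟨Q, hQ, fun g => hM g⟩, fun g => rfl⟩

/-- conjugation by a matrix of determinant `1` -/
theorem exists_conj (ρ : G →* GL (Fin 2) O) (U : Matrix (Fin 2) (Fin 2) O)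
    (hU : U.det = 1) :
    ∃ ρ' : G →* GL (Fin 2) O, Rel ρ ρ' ∧ ∀ g, mt (ρ' g) = U.adjugate * mt (ρ g) * U := by
  refine exists_rel ρ U.adjugate ?_ (fun g => U.adjugate * mt (ρ g) * U) fun g => ?_
  · rw [Matrix.det_adjugate, hU]
    simp
  · rw [mul_assoc _ U, Matrix.mul_adjugate, hU, one_smul, mul_one]

omit [IsDomain O] in
theorem mt_mul (ρ : G →* GL (Fin 2) O) (g h : G) : mt (ρ (g * h)) = mt (ρ g) * mt (ρ h) := by
  rw [map_mul]; rfl

omit [IsDomain O] in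
theorem mt_one : mt (1 : GL (Fin 2) O) = 1 := rfl

/-- congruent to `1` modulo `π ^ N` -/
def Cong (B : Bas O κ) (N : ℕ) (M : Matrix (Fin 2) (Fin 2) O) : Prop :=
  ∃ α : Matrix (Fin 2) (Fin 2) O, M = 1 + B.π ^ N • α

/-- continuity at `1` for the `π`-adic topology -/
def Cts (B : Bas O κ) [TopologicalSpace G] (ρ : G →* GL (Fin 2) O) : Prop :=
  ∀ N : ℕ, ∀ᶠ g in nhds (1 : G), Cong B N (mt (ρ g))

/-- continuity of a conjugate -/
theorem Rel.cts [TopologicalSpace G] {ρ ρ' : G →* GL (Fin 2) O}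
    (h : Rel ρ ρ') (hρ : Cts B ρ) : Cts B ρ' := by
  obtain ⟨Q, hQ, h⟩ := h
  obtain ⟨c, ε, hc, hε⟩ := spl (B := B) Q.det hQ
  obtain ⟨w, hw⟩ := B.unit ε hε
  intro N
  filter_upwards [hρ (N + c)] with g hg
  obtain ⟨α, hα⟩ := hg
  have h1 := h g
  rw [hα] at h1
  have h2 : (mt (ρ' g) - 1) * Q = B.π ^ (N + c) • (Q * α) := by
    rw [sub_mul, ← h1, mul_add, mul_one, one_mul, Matrix.mul_smul, add_sub_cancel_left]
  have h3 : (mt (ρ' g) - 1) * Q * Q.adjugate = B.π ^ (N + c) • (Q * α) * Q.adjugate := by rw [h2]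
  rw [mul_assoc, Matrix.mul_adjugate, Matrix.mul_smul, Matrix.mul_one, Matrix.smul_mul, hc] at h3
  have h4 : B.π ^ c • (ε • (mt (ρ' g) - 1)) = B.π ^ c • (B.π ^ N • (Q * α * Q.adjugate)) := by
    rw [smul_smul, h3, smul_smul, ← pow_add, add_comm c N]
  have h5 := smul_cancel h4
  refine ⟨((w⁻¹ : Oˣ) : O) • (Q * α * Q.adjugate), ?_⟩
  have h6 : mt (ρ' g) - 1 = ((w⁻¹ : Oˣ) : O) • (ε • (mt (ρ' g) - 1)) := by
    rw [smul_smul, ← hw, Units.inv_mul, one_smul]
  rw [h5, smul_comm] at h6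
  rw [← h6]
  abel

end

/-! ### levels -/

section
variable {O κ : Type} [CommRing O] [IsDomain O] [Field κ] (B : Bas O κ)

/-- reduction of matrices -/
abbrev red : Matrix (Fin 2) (Fin 2) O →+* Matrix (Fin 2) (Fin 2) κ := B.q.mapMatrix

variable {B}

omit [IsDomain O] in
theorem red_apply (M : Matrix (Fin 2) (Fin 2) O) (i j : Fin 2) :
    red B M i j = B.q (M i j) := rfl

omit [IsDomain O] in
theorem red_smul (c : O) (M : Matrix (Fin 2) (Fin 2) O) : red B (c • M) = B.q c • red B M := by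
  ext i j
  rw [red_apply, Matrix.smul_apply, Matrix.smul_apply, smul_eq_mul, smul_eq_mul, map_mul,
    red_apply]

omit [IsDomain O] in
theorem red_eq_zero {M : Matrix (Fin 2) (Fin 2) O} (h : red B M = 0) :
    ∃ α : Matrix (Fin 2) (Fin 2) O, M = B.π • α := by
  have h1 : ∀ i j, ∃ a, M i j = B.π * a := fun i j => (B.ker _).1 (congrFun (congrFun h i) j)
  choose a ha using h1
  exact ⟨Matrix.of a, by ext i j; rw [Matrix.smul_apply, Matrix.of_apply, smul_eq_mul, ha]⟩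

/-- a nonzero vector is a multiple of a primitive one -/
theorem exists_primitive (B : Bas O κ) (v : Fin 2 → O) (hv : v ≠ 0) :
    ∃ (c : O) (w : Fin 2 → O), c ≠ 0 ∧ v = c • w ∧ (B.q (w 0) ≠ 0 ∨ B.q (w 1) ≠ 0) := by
  by_contra hcon
  push Not at hcon
  have key : ∀ n : ℕ, ∃ w : Fin 2 → O, v = B.π ^ n • w := by
    intro n
    induction n with
    | zero => exact ⟨v, by rw [pow_zero, one_smul]⟩
    | succ n ih =>
      obtain ⟨w, hw⟩ := ih
      obtain ⟨h0, h1⟩ := hcon _ w (ppow_ne B n) hw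
      obtain ⟨a, ha⟩ := (B.ker _).1 h0
      obtain ⟨b, hb⟩ := (B.ker _).1 h1
      refine ⟨![a, b], ?_⟩
      rw [hw, pow_succ]
      funext i
      fin_cases i
      · simp [ha, mul_assoc]
      · simp [hb, mul_assoc]
  apply hv
  funext i
  by_contra h0
  obtain ⟨n, hn⟩ := B.fin _ h0
  obtain ⟨w, hw⟩ := key (n + 1)
  apply hn
  rw [hw]
  exact dvd_mul_right _ _

end

section
variable {O κ : Type} [CommRing O] [IsDomain O] [Field κ] {B : Bas O κ} {G : Type} [Group G]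

/-- even level -/
def Ev (B : Bas O κ) (k : ℕ) (ρ : G →* GL (Fin 2) O) : Prop :=
  ∀ g, ∃ X : Matrix (Fin 2) (Fin 2) O, mt (ρ g) = 1 + B.π ^ k • X

/-- odd level -/
def Od (B : Bas O κ) (m : ℕ) (ρ : G →* GL (Fin 2) O) : Prop :=
  ∀ g, ∃ a b c d : O, mt (ρ g) = 1 + B.π ^ m • !![B.π * a, b; B.π * c, B.π * d]

omit [IsDomain O] in
/-- a unimodular matrix with given first column modulo `π` -/
theorem exists_U (B : Bas O κ) (w : Fin 2 → κ) (hw : w ≠ 0) :
    ∃ (U : Matrix (Fin 2) (Fin 2) O) (c : κ), U.det = 1 ∧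
      (fun i => B.q (U i 0)) = c • w := by
  by_cases h0 : w 0 = 0
  · have h1 : w 1 ≠ 0 := by
      intro h1
      apply hw
      funext i
      fin_cases i
      · exact h0
      · exact h1
    refine ⟨!![0, -1; 1, 0], (w 1)⁻¹, by simp [Matrix.det_fin_two], ?_⟩
    funext i
    fin_cases i
    · simp [h0]
    · simp [h1]
  · obtain ⟨r, hr⟩ := B.surj (w 1 / w 0)
    refine ⟨!![1, 0; r, 1], (w 0)⁻¹, by simp [Matrix.det_fin_two], ?_⟩
    funext i
    fin_cases i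
    · simp [h0]
    · simp only [Fin.mk_one, Matrix.of_apply, Matrix.cons_val', Matrix.cons_val_zero,
        Matrix.cons_val_one, Pi.smul_apply, smul_eq_mul]
      rw [hr, div_eq_inv_mul]

/-- first improvement -/
theorem move1 {k : ℕ} (ρ : G →* GL (Fin 2) O) (X : G → Matrix (Fin 2) (Fin 2) O)
    (hX : ∀ g, mt (ρ g) = 1 + B.π ^ k • X g) (w : Fin 2 → κ) (hw : w ≠ 0)
    (h1 : ∀ g, red B (X g) *ᵥ w = 0) (h2 : ∀ g, B.π ∣ (X g).trace) :
    ∃ ρ' : G →* GL (Fin 2) O, Rel ρ ρ' ∧ Od B k ρ' := by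
  obtain ⟨U, c, hU, hc⟩ := exists_U B w hw
  obtain ⟨ρ', hρ', h⟩ := exists_conj ρ U hU
  refine ⟨ρ', hρ', fun g => ?_⟩
  set Y := U.adjugate * X g * U with hY
  have hYe : mt (ρ' g) = 1 + B.π ^ k • Y := by
    rw [h, hX, mul_add, mul_one, add_mul, Matrix.adjugate_mul, hU, one_smul, Matrix.mul_smul,
      Matrix.smul_mul]
  have hcol : ∀ i, B.π ∣ Y i 0 := by
    intro i
    rw [← B.ker]
    have h3 : (red B Y *ᵥ (Pi.single 0 1)) i = 0 := by
      have e : red B U *ᵥ (Pi.single 0 1) = c • w := by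
        rw [← hc]
        funext i
        rw [Matrix.mulVec_single_one]
        rfl
      rw [hY, map_mul, map_mul, ← Matrix.mulVec_mulVec, ← Matrix.mulVec_mulVec, e,
        Matrix.mulVec_smul, h1 g, smul_zero, Matrix.mulVec_zero]
      rfl
    rw [Matrix.mulVec_single_one] at h3
    exact h3
  have htr : Y.trace = (X g).trace := by
    rw [hY, Matrix.trace_mul_comm, ← mul_assoc, Matrix.mul_adjugate, hU, one_smul, one_mul]
  have h11 : B.π ∣ Y 1 1 := by
    have h3 := h2 g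
    rw [← htr, Matrix.trace_fin_two] at h3
    exact (dvd_add_right (hcol 0)).1 h3
  obtain ⟨a, ha⟩ := hcol 0
  obtain ⟨c', hc'⟩ := hcol 1
  obtain ⟨d, hd⟩ := h11
  refine ⟨a, Y 0 1, c', d, ?_⟩
  rw [hYe]
  congr 2
  ext i j
  fin_cases i <;> fin_cases j <;> simp [ha, hc', hd]

/-- second improvement -/
theorem move2 {m : ℕ} (ρ : G →* GL (Fin 2) O) (a b c d : G → O)
    (h : ∀ g, mt (ρ g) = 1 + B.π ^ m • !![B.π * a g, b g; B.π * c g, B.π * d g])
    (hc : ∀ g, B.π ∣ c g) :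
    ∃ ρ' : G →* GL (Fin 2) O, Rel ρ ρ' ∧ Ev B (m + 1) ρ' := by
  choose c' hc' using hc
  obtain ⟨ρ', hρ', hM⟩ := exists_rel ρ !![B.π, 0; 0, 1] (by
    rw [Matrix.det_fin_two]; simpa using B.hπ)
    (fun g => 1 + B.π ^ (m + 1) • !![a g, b g; c' g, d g]) (fun g => by
      rw [h g, hc' g]
      ext i j
      fin_cases i <;> fin_cases j <;>
        simp [Matrix.mul_apply, Fin.sum_univ_two] <;> ring)
  exact ⟨ρ', hρ', fun g => ⟨_, hM g⟩⟩

/-- third improvement -/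
theorem move3 {m : ℕ} (ρ : G →* GL (Fin 2) O) (a b c d : G → O)
    (h : ∀ g, mt (ρ g) = 1 + B.π ^ m • !![B.π * a g, b g; B.π * c g, B.π * d g])
    (hb : ∀ g, B.π ∣ b g) : Ev B (m + 1) ρ := by
  intro g
  obtain ⟨b', hb'⟩ := hb g
  refine ⟨!![a g, b'; c g, d g], ?_⟩
  rw [h g, hb']
  ext i j
  fin_cases i <;> fin_cases j <;> simp <;> ring

end

section
variable {O κ : Type} [CommRing O] [IsDomain O] [Field κ] {B : Bas O κ}
  {G : Type} [Group G] [TopologicalSpace G] [IsTopologicalGroup G]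

omit [IsDomain O] in
/-- homomorphisms to `κ` from functions that are additive modulo `π` -/
theorem exists_hom (ρ : G →* GL (Fin 2) O) (hρ : Cts B ρ) (f : G → O)
    (hadd : ∀ g h, B.π ∣ f (g * h) - (f g + f h)) (N : ℕ)
    (hN : ∀ g, Cong B N (mt (ρ g)) → B.π ∣ f g) :
    ∃ F : G →* Multiplicative κ, IsOpen (F.ker : Set G) ∧
      (∀ g, F g = Multiplicative.ofAdd (B.q (f g))) ∧ ∀ g, ρ g = 1 → F g = 1 := by
  have h1 : Cong B N (mt (ρ 1)) := by
    rw [map_one]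
    exact ⟨0, by rw [smul_zero, add_zero]; rfl⟩
  let F : G →* Multiplicative κ :=
    { toFun := fun g => Multiplicative.ofAdd (B.q (f g))
      map_one' := by rw [(B.ker _).2 (hN 1 h1), ofAdd_zero]
      map_mul' := fun g h => by
        rw [← ofAdd_add]
        congr 1
        have h2 := (B.ker _).2 (hadd g h)
        have h3 : B.q (f (g * h)) - (B.q (f g) + B.q (f h)) = 0 := by
          rw [← map_add, ← map_sub]
          exact h2
        exact sub_eq_zero.1 h3 }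
  refine ⟨F, ?_, fun g => rfl, fun g hg => ?_⟩
  · apply Subgroup.isOpen_of_mem_nhds _ (g := (1 : G))
    filter_upwards [hρ N] with g hg
    show F g = 1
    show Multiplicative.ofAdd (B.q (f g)) = 1
    rw [(B.ker _).2 (hN g hg), ofAdd_zero]
  · show Multiplicative.ofAdd (B.q (f g)) = 1
    rw [(B.ker _).2 (hN g ?_), ofAdd_zero]
    rw [hg]
    exact ⟨0, by rw [smul_zero, add_zero]; rfl⟩

end

end Pool.Agent.TH831.OE
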