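import Pool.Agent.TH831.OE.Step
import Pool.Agent.TH831.OT.Step2

/-!
# The steps: even levels
-/

set_option autoImplicit false

namespace Pool.Agent.TH831.OE

open Matrix Pool.Agent.TH831.OT

section
variable {O κ : Type} [CommRing O] [IsDomain O] [Field κ]

omit [IsDomain O] in
theorem exists_unimod (B : Bas O κ) (v : Fin 2 → O) (hv : B.q (v 0) ≠ 0 ∨ B.q (v 1) ≠ 0) :
    ∃ U : Matrix (Fin 2) (Fin 2) O, U.det = 1 ∧ (fun i => U i 0) = v := by
  rcases hv with h | h
  · obtain ⟨w, hw⟩ := B.unit _ h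
    refine ⟨!![v 0, 0; v 1, ((w⁻¹ : Oˣ) : O)], ?_, ?_⟩
    · rw [Matrix.det_fin_two_of, ← hw, Units.mul_inv]
      ring
    · funext i
      fin_cases i <;> simp
  · obtain ⟨w, hw⟩ := B.unit _ h
    refine ⟨!![v 0, -((w⁻¹ : Oˣ) : O); v 1, 0], ?_, ?_⟩
    · rw [Matrix.det_fin_two_of, ← hw]
      have := Units.inv_mul w
      linear_combination this
    · funext i
      fin_cases i <;> simp

variable {B : Bas O κ}

omit [IsDomain O] in
theorem diag_conj (X : Matrix (Fin 2) (Fin 2) O) (v : Fin 2 → O)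
    (hv : B.q (v 0) ≠ 0 ∨ B.q (v 1) ≠ 0) (hX : wed (X *ᵥ v) v = 0)
    (hne : ∀ x1 : O, X.det = x1 * (X.trace - x1) → B.q (x1 - (X.trace - x1)) ≠ 0) :
    ∃ (U : Matrix (Fin 2) (Fin 2) O) (x1 : O), U.det = 1 ∧
      X.det = x1 * (X.trace - x1) ∧
      U.adjugate * X * U = !![x1, 0; 0, X.trace - x1] := by
  obtain ⟨U1, hU1, hc⟩ := exists_unimod B v hv
  set Y := U1.adjugate * X * U1 with hY
  have hv' : v = U1 *ᵥ (Pi.single 0 1) := by
    rw [Matrix.mulVec_single_one, ← hc]
    rfl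
  have hY10 : Y 1 0 = 0 := by
    have h1 : wed (Y *ᵥ (Pi.single 0 1)) (Pi.single 0 1) = wed (X *ᵥ v) v := by
      conv_rhs => rw [hv']
      have h2 : X *ᵥ (U1 *ᵥ (Pi.single 0 1)) = U1 *ᵥ (Y *ᵥ (Pi.single 0 1)) := by
        rw [Matrix.mulVec_mulVec, Matrix.mulVec_mulVec, hY, ← mul_assoc, ← mul_assoc,
          Matrix.mul_adjugate, hU1, one_smul, one_mul]
      rw [h2, wed_mulVec, hU1, one_mul]
    rw [hX] at h1
    simp [wed, Matrix.col] at h1
    exact h1
  have htr : Y.trace = X.trace := by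
    rw [hY, Matrix.trace_mul_comm, ← mul_assoc, Matrix.mul_adjugate, hU1, one_smul, one_mul]
  have hdet : Y.det = X.det := by
    rw [hY, Matrix.det_mul, Matrix.det_mul, Matrix.det_adjugate, hU1]
    simp
  set x1 := Y 0 0 with hx1
  have hx2 : Y 1 1 = X.trace - x1 := by
    rw [← htr, Matrix.trace_fin_two]
    ring
  have hd : X.det = x1 * (X.trace - x1) := by
    rw [← hdet, Matrix.det_fin_two, hY10, ← hx2]
    ring
  obtain ⟨w, hw⟩ := B.unit _ (hne x1 hd)
  -- `r (x2 - x1) = s`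
  set r := -(Y 0 1 * ((w⁻¹ : Oˣ) : O)) with hr
  have hr' : r * x1 + Y 0 1 - r * (X.trace - x1) = 0 := by
    have h1 : ((w⁻¹ : Oˣ) : O) * (x1 - (X.trace - x1)) = 1 := by
      rw [← hw]
      exact Units.inv_mul w
    rw [hr]
    linear_combination -(Y 0 1) * h1
  refine ⟨U1 * !![1, r; 0, 1], x1, ?_, hd, ?_⟩
  · rw [Matrix.det_mul, hU1, Matrix.det_fin_two_of]
    ring
  · have h1 : (U1 * !![1, r; 0, 1]).adjugate * X * (U1 * !![1, r; 0, 1]) =
        (!![1, r; 0, 1] : Matrix (Fin 2) (Fin 2) O).adjugate * Y * !![1, r; 0, 1] := by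
      rw [Matrix.adjugate_mul_distrib, hY]
      simp only [mul_assoc]
    have hYe : Y = !![x1, Y 0 1; 0, X.trace - x1] := by
      conv_lhs => rw [Matrix.eta_fin_two Y, hY10, hx2, ← hx1]
    generalize Y 0 1 = y at hr' hYe
    rw [h1, hYe, Matrix.adjugate_fin_two_of, Matrix.mul_fin_two, Matrix.mul_fin_two]
    have f1 : (1 * x1 + -r * 0) * 1 + (1 * y + -r * (X.trace - x1)) * 0 = x1 := by ring
    have f2 : (1 * x1 + -r * 0) * r + (1 * y + -r * (X.trace - x1)) * 1 = 0 := by
      linear_combination hr'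
    have f3 : (-0 * x1 + 1 * 0) * 1 + (-0 * y + 1 * (X.trace - x1)) * 0 = 0 := by ring
    have f4 : (-0 * x1 + 1 * 0) * r + (-0 * y + 1 * (X.trace - x1)) * 1 = X.trace - x1 := by ring
    rw [f1, f2, f3, f4]

end

section
variable {O κ : Type} [CommRing O] [IsDomain O] [Field κ] {B : Bas O κ}
  {G : Type} [Group G] [TopologicalSpace G]
  [IsTopologicalGroup G] {S1 : Finset ℕ} {u : ℕ → κ} {lam : ℕ → ℕ → κ} {b : ℕ → κ}
  {Ur D : Set G} {tm : Prop}

omit [TopologicalSpace G] [IsTopologicalGroup G] in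
theorem ev_mul {ρ : G →* GL (Fin 2) O} {k : ℕ} {X : G → Matrix (Fin 2) (Fin 2) O}
    (hX : ∀ g, mt (ρ g) = 1 + B.π ^ k • X g) (g h : G) :
    X (g * h) = X g + X h + B.π ^ k • (X g * X h) := by
  have e := mt_mul ρ g h
  rw [hX, hX, hX] at e
  have e2 : B.π ^ k • X (g * h) = B.π ^ k • (X g + X h + B.π ^ k • (X g * X h)) := by
    apply add_left_cancel (a := (1 : Matrix (Fin 2) (Fin 2) O))
    rw [e]
    simp only [mul_add, add_mul, mul_one, one_mul, Matrix.smul_mul, Matrix.mul_smul, smul_smul,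
      smul_add]
    abel
  exact smul_cancel e2

/-- span formula for the entries of the layer -/
theorem span_entry (A : Ar κ G S1 u lam b Ur D tm) {t : G → O} {ρ : G →* GL (Fin 2) O}
    (hG : Good B A t ρ) {k : ℕ} (hk : 1 ≤ k) {X : G → Matrix (Fin 2) (Fin 2) O}
    (hX : ∀ g, mt (ρ g) = 1 + B.π ^ k • X g) (i j : Fin 2) (g : G) :
    B.q (X g i j) = A.psi g * B.q (X A.γ i j) + ∑ l ∈ S1, A.chi l g * B.q (X (A.τ l) i j) := by
  obtain ⟨F, hF1, hF2, hF3⟩ := exists_hom ρ hG.cont (fun g => X g i j) (fun g h => by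
    obtain ⟨k', rfl⟩ := Nat.exists_eq_add_of_le' hk
    refine ⟨B.π ^ k' * (X g * X h) i j, ?_⟩
    rw [ev_mul hX g h, Matrix.add_apply, Matrix.add_apply, Matrix.smul_apply, smul_eq_mul]
    ring) (k + 1) (fun g ⟨α, hα⟩ => by
    refine ⟨α i j, ?_⟩
    apply dvd_cancel (B := B) (k := k)
    rw [hX] at hα
    have e0 := add_left_cancel hα
    have e := congrFun (congrFun e0 i) j
    rw [Matrix.smul_apply, Matrix.smul_apply, smul_eq_mul, smul_eq_mul] at e
    rw [e]
    ring)
  have e := A.span F hF1 (fun g hg => hF3 g (hG.unr g hg)) g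
  simp only [hF2, toAdd_ofAdd] at e
  exact e

omit [IsTopologicalGroup G] in
/-- the tame relation at an even level -/
theorem ev_tame (A : Ar κ G S1 u lam b Ur D tm) {t : G → O} {ρ : G →* GL (Fin 2) O}
    (hG : Good B A t ρ) {k : ℕ} {X : G → Matrix (Fin 2) (Fin 2) O}
    (hX : ∀ g, mt (ρ g) = 1 + B.π ^ k • X g) {l : ℕ} (hl : l ∈ S1) :
    X (A.τ l) * X (A.τ l) = 0 ∧
      X (A.τ l) + B.π ^ k • (X (A.σ l) * X (A.τ l)) =
        (l : O) • (X (A.τ l) + B.π ^ k • (X (A.τ l) * X (A.σ l))) := by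
  have e0 : mt (ρ (A.τ l)) - 1 = B.π ^ k • X (A.τ l) := by
    rw [hX]
    abel
  constructor
  · have e := hG.sq l hl
    rw [e0, Matrix.smul_mul, Matrix.mul_smul, smul_smul] at e
    exact (smul_eq_zero.1 e).resolve_left (mul_ne_zero (ppow_ne B k) (ppow_ne B k))
  · have e := hG.rel l hl
    rw [e0, hX (A.σ l)] at e
    apply smul_cancel (B := B) (k := k)
    have e1 : (1 + B.π ^ k • X (A.σ l)) * B.π ^ k • X (A.τ l) =
        B.π ^ k • (X (A.τ l) + B.π ^ k • (X (A.σ l) * X (A.τ l))) := by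
      simp only [add_mul, one_mul, Matrix.smul_mul, Matrix.mul_smul, smul_smul, smul_add]
    have e2 : B.π ^ k • X (A.τ l) * (1 + B.π ^ k • X (A.σ l)) =
        B.π ^ k • (X (A.τ l) + B.π ^ k • (X (A.τ l) * X (A.σ l))) := by
      simp only [mul_add, mul_one, Matrix.smul_mul, Matrix.mul_smul, smul_smul, smul_add]
    rw [← e1, e, e2, smul_comm]

omit [TopologicalSpace G] [IsTopologicalGroup G] in
/-- the trace of the layer is divisible by `π` -/
theorem ev_trace {ρ : G →* GL (Fin 2) O} {k : ℕ} (hk : 1 ≤ k)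
    {X : G → Matrix (Fin 2) (Fin 2) O} (hX : ∀ g, mt (ρ g) = 1 + B.π ^ k • X g)
    (hdet : ∀ g, (mt (ρ g)).det = 1) (g : G) : B.π ∣ (X g).trace := by
  have e := hdet g
  rw [hX, Matrix.det_fin_two] at e
  simp only [Matrix.add_apply, Matrix.smul_apply, smul_eq_mul, Matrix.one_apply_eq, ne_eq,
      zero_ne_one, one_ne_zero, not_false_eq_true, Matrix.one_apply_ne] at e
  obtain ⟨k', rfl⟩ := Nat.exists_eq_add_of_le' hk
  refine ⟨-(B.π ^ k' * (X g 0 0 * X g 1 1 - X g 0 1 * X g 1 0)), ?_⟩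
  apply dvd_cancel (B := B) (k := k' + 1)
  rw [Matrix.trace_fin_two]
  linear_combination e

omit [IsTopologicalGroup G] in
theorem ev_red1 (A : Ar κ G S1 u lam b Ur D tm) {t : G → O} {ρ : G →* GL (Fin 2) O}
    (hG : Good B A t ρ) {k : ℕ} (hk : 1 ≤ k) {X : G → Matrix (Fin 2) (Fin 2) O}
    (hX : ∀ g, mt (ρ g) = 1 + B.π ^ k • X g) {l : ℕ} (hl : l ∈ S1) {s : O}
    (hs : (l : O) - 1 = B.π ^ k * s) :
    red B (X (A.σ l)) * red B (X (A.τ l)) - red B (X (A.τ l)) * red B (X (A.σ l)) =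
      B.q s • red B (X (A.τ l)) := by
  have e := (ev_tame A hG hX hl).2
  have hl' : (l : O) = 1 + B.π ^ k * s := by linear_combination hs
  rw [hl'] at e
  have e1 : B.π ^ k • (X (A.σ l) * X (A.τ l) - X (A.τ l) * X (A.σ l)) =
      B.π ^ k • (s • (X (A.τ l) + B.π ^ k • (X (A.τ l) * X (A.σ l)))) := by
    rw [add_smul, one_smul, add_assoc, add_right_inj] at e
    rw [smul_sub, e, smul_smul]
    abel
  have e2 := smul_cancel e1
  have e3 := congrArg (red B) e2
  rw [red_smul, map_sub, map_mul, map_mul, map_add, red_smul, map_pow, q_pi,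
    zero_pow (by omega), zero_smul, add_zero] at e3
  exact e3

omit [IsTopologicalGroup G] in
theorem ev_red2 (A : Ar κ G S1 u lam b Ur D tm) {t : G → O} {ρ : G →* GL (Fin 2) O}
    (hG : Good B A t ρ) {k : ℕ} (hk : 1 ≤ k) {X : G → Matrix (Fin 2) (Fin 2) O}
    (hX : ∀ g, mt (ρ g) = 1 + B.π ^ k • X g) {l : ℕ} (hl : l ∈ S1)
    (hs : ¬ B.π ^ k ∣ (l : O) - 1) : red B (X (A.τ l)) = 0 := by
  have hne : (l : O) - 1 ≠ 0 := fun h0 => hs (by rw [h0]; exact dvd_zero _)
  obtain ⟨n, s, hns, hs0⟩ := spl (B := B) _ hne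
  have hnk : n < k := by
    by_contra hcon
    exact hs (hns ▸ (pow_dvd_pow _ (by omega)).mul_right s)
  have hl' : (l : O) = 1 + B.π ^ n * s := by linear_combination hns
  have e := (ev_tame A hG hX hl).2
  rw [hl'] at e
  obtain ⟨d, rfl⟩ := Nat.exists_eq_add_of_lt hnk
  have e1 : B.π ^ n • (B.π ^ (d + 1) • (X (A.σ l) * X (A.τ l) - X (A.τ l) * X (A.σ l))) =
      B.π ^ n • (s • (X (A.τ l) + B.π ^ (n + d + 1) • (X (A.τ l) * X (A.σ l)))) := by
    rw [add_smul, one_smul, add_assoc (X (A.τ l)), add_right_inj] at e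
    rw [smul_smul, ← pow_add, ← add_assoc, smul_sub, e, smul_smul]
    abel
  have e2 := smul_cancel e1
  have e3 := congrArg (red B) e2
  rw [red_smul, red_smul, map_add, red_smul, map_pow, map_pow, q_pi, zero_pow (by omega),
    zero_pow (by omega), zero_smul, zero_smul, add_zero] at e3
  exact (smul_eq_zero.1 e3.symm).resolve_left hs0

/-- off-diagonal entries when `ρ γ` is diagonal -/
theorem offdiag (A : Ar κ G S1 u lam b Ur D tm) {t : G → O} {ρ : G →* GL (Fin 2) O}
    (hG : Good B A t ρ) {k : ℕ} (hk : 1 ≤ k) {X : G → Matrix (Fin 2) (Fin 2) O}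
    (hX : ∀ g, mt (ρ g) = 1 + B.π ^ k • X g) {e : ℕ} {c0 : κ}
    (hl : ∀ l ∈ S1, u l ≠ 0 ∧ ∃ s : O, (l : O) = 1 + B.π ^ e * s ∧ B.q s = c0 * u l)
    (hc0 : c0 ≠ 0)
    (hT : ∀ l ∈ S1, B.q (X (A.τ l) 0 0) = 0) (i j : Fin 2) (hij : i ≠ j)
    (hγ : X A.γ i j = 0) (hex : ∃ g, X g i j ≠ 0) :
    B.q (X A.γ i i) - B.q (X A.γ j j) = 0 ∨ B.q (X A.γ i i) - B.q (X A.γ j j) = c0 := by
  classical
  -- the diagonals of the layer on tame inertia
  have hT' : ∀ l ∈ S1, ∀ i, B.q (X (A.τ l) i i) = 0 := by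
    intro l hl i
    have h0 := hT l hl
    have e := congrArg (red B) (ev_tame A hG hX hl).1
    rw [map_mul, map_zero] at e
    have e0 := congrFun (congrFun e 0) 0
    have e1 := congrFun (congrFun e 1) 1
    rw [Matrix.mul_apply, Fin.sum_univ_two] at e0 e1
    have r : ∀ i j, red B (X (A.τ l)) i j = B.q (X (A.τ l) i j) := fun i j => rfl
    rw [r, r, r, h0, Matrix.zero_apply] at e0
    rw [r, r, r, Matrix.zero_apply] at e1
    fin_cases i
    · exact h0
    · have e2 : B.q (X (A.τ l) 1 1) * B.q (X (A.τ l) 1 1) = 0 := by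
        linear_combination e1 - e0
      exact mul_self_eq_zero.1 e2
  -- minimal valuation
  have hex' : ∃ n : ℕ, ∃ g, ¬ B.π ^ (n + 1) ∣ X g i j := by
    obtain ⟨g, hg⟩ := hex
    obtain ⟨n, hn⟩ := B.fin _ hg
    exact ⟨n, g, hn⟩
  set N := Nat.find hex' with hN
  obtain ⟨g0, hg0⟩ : ∃ g, ¬ B.π ^ (N + 1) ∣ X g i j := Nat.find_spec hex'
  have hall : ∀ g, B.π ^ N ∣ X g i j := by
    intro g
    rcases Nat.eq_zero_or_pos N with h0 | h0
    · rw [h0, pow_zero]
      exact one_dvd _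
    · have h1 := Nat.find_min hex' (m := N - 1) (by omega)
      push Not at h1
      have h2 := h1 g
      rwa [Nat.sub_add_cancel h0] at h2
  choose f hf using hall
  have hmul : ∀ g h, (X g * X h) i j = X g i i * X h i j + X g i j * X h j j := by
    intro g h
    rw [Matrix.mul_apply, Fin.sum_univ_two]
    fin_cases i <;> fin_cases j
    · exact absurd rfl hij
    · rfl
    · exact add_comm _ _
    · exact absurd rfl hij
  obtain ⟨F, hF1, hF2, hF3⟩ := exists_hom ρ hG.cont f (fun g h => by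
    obtain ⟨k', rfl⟩ := Nat.exists_eq_add_of_le' hk
    refine ⟨B.π ^ k' * (X g i i * f h + f g * X h j j), ?_⟩
    apply dvd_cancel (B := B) (k := N)
    have e := congrFun (congrFun (ev_mul hX g h) i) j
    rw [Matrix.add_apply, Matrix.add_apply, Matrix.smul_apply, smul_eq_mul, hmul, hf, hf g,
      hf h] at e
    linear_combination e) (k + N + 1) (fun g ⟨α, hα⟩ => by
    refine ⟨α i j, ?_⟩
    apply dvd_cancel (B := B) (k := k + N)
    rw [hX] at hα
    have e0 := add_left_cancel hα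
    have e := congrFun (congrFun e0 i) j
    rw [Matrix.smul_apply, Matrix.smul_apply, smul_eq_mul, smul_eq_mul, hf g] at e
    linear_combination e)
  have hspan := A.span F hF1 (fun g hg => hF3 g (hG.unr g hg))
  simp only [hF2, toAdd_ofAdd] at hspan
  have hfγ : f A.γ = 0 := by
    have e := hf A.γ
    rw [hγ] at e
    exact (mul_eq_zero.1 e.symm).resolve_left (ppow_ne B N)
  have hfg0 : B.q (f g0) ≠ 0 := by
    intro h0
    obtain ⟨c, hc⟩ := (B.ker _).1 h0
    exact hg0 ⟨c, by rw [hf g0, hc]; ring⟩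
  obtain ⟨l, hlm, hfl⟩ : ∃ l ∈ S1, B.q (f (A.τ l)) ≠ 0 := by
    by_contra hcon
    push Not at hcon
    apply hfg0
    rw [hspan g0, hfγ, map_zero, mul_zero, zero_add]
    exact Finset.sum_eq_zero fun l hl => by rw [hcon l hl, mul_zero]
  -- the relation
  obtain ⟨hu0, s, hl', hsu⟩ := hl l hlm
  have e1 := congrFun (congrFun (ev_tame A hG hX hlm).2 i) j
  rw [Matrix.smul_apply, Matrix.add_apply, Matrix.add_apply, Matrix.smul_apply, Matrix.smul_apply,
    smul_eq_mul, smul_eq_mul, smul_eq_mul, hmul, hmul, hf (A.τ l), hf (A.σ l), hl'] at e1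
  have e2 : B.π ^ k * (X (A.σ l) i i * f (A.τ l) + f (A.σ l) * X (A.τ l) j j -
      X (A.τ l) i i * f (A.σ l) - f (A.τ l) * X (A.σ l) j j) =
      B.π ^ e * (s * (f (A.τ l) + B.π ^ k * (X (A.τ l) i i * f (A.σ l) +
        f (A.τ l) * X (A.σ l) j j))) := by
    apply dvd_cancel (B := B) (k := N)
    linear_combination e1
  have hsii := span_entry A hG hk hX i i (A.σ l)
  have hsjj := span_entry A hG hk hX j j (A.σ l)
  rw [Finset.sum_eq_zero (fun l' hl' => by rw [hT' l' hl' i, mul_zero]), add_zero,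
    A.hu l hlm] at hsii
  rw [Finset.sum_eq_zero (fun l' hl' => by rw [hT' l' hl' j, mul_zero]), add_zero,
    A.hu l hlm] at hsjj
  have hk0 : k ≠ 0 := by omega
  rcases lt_trichotomy k e with h | h | h
  · left
    obtain ⟨d, rfl⟩ := Nat.exists_eq_add_of_lt h
    have e3 : B.π ^ k * (X (A.σ l) i i * f (A.τ l) + f (A.σ l) * X (A.τ l) j j -
      X (A.τ l) i i * f (A.σ l) - f (A.τ l) * X (A.σ l) j j) =
      B.π ^ k * (B.π ^ (d + 1) * (s * (f (A.τ l) + B.π ^ k * (X (A.τ l) i i * f (A.σ l) +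
        f (A.τ l) * X (A.σ l) j j)))) := by
      rw [e2]; ring
    have e4 := congrArg B.q (dvd_cancel e3)
    simp only [map_mul, map_sub, map_add, map_pow, q_pi, zero_pow (Nat.succ_ne_zero d), zero_mul,
      hT' l hlm i, hT' l hlm j, mul_zero, add_zero, sub_zero] at e4
    have e5 : B.q (f (A.τ l)) * u l * (B.q (X A.γ i i) - B.q (X A.γ j j)) = 0 := by
      rw [hsii, hsjj] at e4
      linear_combination e4
    exact (mul_eq_zero.1 e5).resolve_left (mul_ne_zero hfl hu0)
  · right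
    subst h
    have e4 := congrArg B.q (dvd_cancel e2)
    simp only [map_mul, map_sub, map_add, map_pow, q_pi, zero_pow hk0, zero_mul,
      hT' l hlm i, hT' l hlm j, mul_zero, add_zero, sub_zero, hsu] at e4
    apply mul_left_cancel₀ (mul_ne_zero hfl hu0)
    rw [hsii, hsjj] at e4
    linear_combination e4
  · exfalso
    refine two_lvl e2 ?_ h
    rw [map_mul, hsu, map_add, map_mul, map_pow, q_pi, zero_pow hk0, zero_mul, add_zero]
    exact mul_ne_zero (mul_ne_zero hc0 hu0) hfl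

/-- the second stage -/
theorem stage2 (h2 : (2 : κ) ≠ 0) (A : Ar κ G S1 u lam b Ur D tm) {t : G → O}
    {ρ : G →* GL (Fin 2) O}
    (hG : Good B A t ρ) {k : ℕ} (hk : 1 ≤ k) {X : G → Matrix (Fin 2) (Fin 2) O}
    (hX : ∀ g, mt (ρ g) = 1 + B.π ^ k • X g) {e : ℕ} {c0 : κ}
    (hl : ∀ l ∈ S1, u l ≠ 0 ∧ ∃ s : O, (l : O) = 1 + B.π ^ e * s ∧ B.q s = c0 * u l)
    (hc0 : c0 ≠ 0)
    (hT : ∀ l ∈ S1, B.q (X (A.τ l) 0 0) = 0)
    (hγ : X A.γ 0 1 = 0) (hγ' : X A.γ 1 0 = 0)
    (hne : B.q (X A.γ 0 0) - B.q (X A.γ 1 1) ≠ 0) : HasLine ρ Set.univ := by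
  by_cases h01 : ∃ g, X g 0 1 ≠ 0
  · by_cases h10 : ∃ g, X g 1 0 ≠ 0
    · exfalso
      rcases offdiag A hG hk hX hl hc0 hT 0 1 (by decide) hγ h01 with e1 | e1
      · exact hne e1
      rcases offdiag A hG hk hX hl hc0 hT 1 0 (by decide) hγ' h10 with e2 | e2
      · exact hne (by linear_combination -e2)
      have e3 : (2 : κ) * c0 = 0 := by linear_combination -e1 - e2
      rcases mul_eq_zero.1 e3 with h | h
      · exact h2 h
      · exact hc0 h
    · push Not at h10
      refine ⟨Pi.single 0 1, fun h => by simpa using congrFun h 0, fun g _ => ?_⟩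
      have e : mt (ρ g) 1 0 = 0 := by
        rw [hX g]; simp [h10 g]
      simp [wed, Matrix.col, e]
  · push Not at h01
    refine ⟨Pi.single 1 1, fun h => by simpa using congrFun h 1, fun g _ => ?_⟩
    have e : mt (ρ g) 0 1 = 0 := by
      rw [hX g]; simp [h01 g]
    simp [wed, Matrix.col, e]

/-- the condition on the even level `k` -/
def H1 (B : Bas O κ) (S1 : Finset ℕ) (u : ℕ → κ) (lam : ℕ → ℕ → κ) (b : ℕ → κ) (tm : Prop)
    (k : ℕ) : Prop :=
  ∀ (C : Matrix (Fin 2) (Fin 2) κ) (T : ℕ → Matrix (Fin 2) (Fin 2) κ),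
    (tm → C = 0) → C.trace = 0 → (∀ l ∈ S1, T l * T l = 0) →
    (∀ l ∈ S1, ¬ B.π ^ k ∣ (l : O) - 1 → T l = 0) →
    (∀ l ∈ S1, ∀ s : O, (l : O) - 1 = B.π ^ k * s →
      (u l • C + ∑ j ∈ S1, lam l j • T j) * T l -
        T l * (u l • C + ∑ j ∈ S1, lam l j • T j) = B.q s • T l) →
    (∃ v : Fin 2 → κ, v ≠ 0 ∧ wed (C *ᵥ v) v = 0 ∧
      wed ((∑ j ∈ S1, b j • T j) *ᵥ v) v = 0) →
    ∃ w : Fin 2 → κ, w ≠ 0 ∧ wed (C *ᵥ w) w = 0 ∧ ∀ l ∈ S1, T l *ᵥ w = 0

omit [IsDomain O] in
theorem wed_red (M : Matrix (Fin 2) (Fin 2) O) (v w : Fin 2 → O) :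
    wed (red B M *ᵥ (fun i => B.q (v i))) (fun i => B.q (w i)) = B.q (wed (M *ᵥ v) w) := by
  simp only [wed, Matrix.mulVec, dotProduct, Fin.sum_univ_two, red_apply, map_sub, map_mul,
    map_add]

/-- improving an even level, or finding a line -/
theorem ev_step (h2 : (2 : κ) ≠ 0) {A : Ar κ G S1 u lam b Ur D tm} {t : G → O} {k : ℕ}
    (hH : H1 B S1 u lam b tm k) {ρ : G →* GL (Fin 2) O} (hG : Good B A t ρ) (hk : 1 ≤ k)
    (hst : ¬ tm → ∃ (e : ℕ) (c0 : κ), c0 ≠ 0 ∧
      ∀ l ∈ S1, u l ≠ 0 ∧ ∃ s : O, (l : O) = 1 + B.π ^ e * s ∧ B.q s = c0 * u l)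
    (hEv : Ev B k ρ) :
    (∃ ρ' : G →* GL (Fin 2) O, Rel ρ ρ' ∧ Od B k ρ') ∨ HasLine ρ Set.univ := by
  choose X hX using hEv
  have htr := ev_trace hk hX hG.det
  set C := red B (X A.γ) with hC
  set T : ℕ → Matrix (Fin 2) (Fin 2) κ := fun l => red B (X (A.τ l)) with hTdef
  have hspan : ∀ g, red B (X g) = A.psi g • C + ∑ l ∈ S1, A.chi l g • T l := by
    intro g
    ext i j
    rw [red_apply, span_entry A hG hk hX i j g, Matrix.add_apply, Matrix.smul_apply,
      Matrix.sum_apply, smul_eq_mul]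
    rfl
  have htr' : ∀ g, (red B (X g)).trace = 0 := by
    intro g
    rw [Matrix.trace_fin_two, red_apply, red_apply, ← map_add, ← Matrix.trace_fin_two, B.ker]
    exact htr g
  obtain ⟨v, hv, hvl⟩ := hG.prim
  have hvX : ∀ g ∈ D, wed (X g *ᵥ v) v = 0 := by
    intro g hg
    have e := hvl g hg
    rw [hX g, Matrix.add_mulVec, Matrix.one_mulVec, Matrix.smul_mulVec, wed_add_left, wed_self,
      zero_add, wed_smul_left] at e
    exact (mul_eq_zero.1 e).resolve_left (ppow_ne B k)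
  have hv0 : (fun i => B.q (v i)) ≠ (0 : Fin 2 → κ) := by
    intro h
    rcases hv with h1 | h1
    · exact h1 (congrFun h 0)
    · exact h1 (congrFun h 1)
  have hvC : wed (C *ᵥ (fun i => B.q (v i))) (fun i => B.q (v i)) = 0 := by
    rw [hC, wed_red, hvX _ A.hγ, map_zero]
  have hTsq : ∀ l ∈ S1, T l * T l = 0 := by
    intro l hl
    have e := congrArg (red B) (ev_tame A hG hX hl).1
    rwa [map_mul, map_zero] at e
  have hC0 : tm → C = 0 := by
    intro ht
    have e := hX A.γ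
    rw [A.htm ht, map_one, mt_one] at e
    have e2 : B.π ^ k • X 1 = 0 := by
      have : (1 : Matrix (Fin 2) (Fin 2) O) + 0 = 1 + B.π ^ k • X 1 := by rw [add_zero]; exact e
      exact (add_left_cancel this).symm
    rw [hC, A.htm ht, (smul_eq_zero.1 e2).resolve_left (ppow_ne B k), map_zero]
  -- a common eigenvector
  have hw : ∃ w : Fin 2 → κ, w ≠ 0 ∧ wed (C *ᵥ w) w = 0 ∧ ∀ l ∈ S1, T l *ᵥ w = 0 := by
    refine hH C T hC0 (htr' _) hTsq (fun l hl hs => ev_red2 A hG hk hX hl hs)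
      (fun l hl s hs => ?_) ⟨_, hv0, hvC, ?_⟩
    · have h := ev_red1 A hG hk hX hl hs
      rw [hspan (A.σ l), A.hu l hl] at h
      have hcm : ∀ c : ℕ → κ, (∑ j ∈ S1, c j • T j) * T l - T l * (∑ j ∈ S1, c j • T j) =
          ∑ j ∈ S1, c j • (T j * T l - T l * T j) := by
        intro c
        rw [Finset.sum_mul, Finset.mul_sum, ← Finset.sum_sub_distrib]
        refine Finset.sum_congr rfl fun j _ => ?_
        rw [smul_sub, Matrix.smul_mul, Matrix.mul_smul]
      have hsum : ∑ j ∈ S1, A.chi j (A.σ l) • (T j * T l - T l * T j) =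
          ∑ j ∈ S1, lam l j • (T j * T l - T l * T j) := by
        refine Finset.sum_congr rfl fun j hj => ?_
        by_cases hjl : j = l
        · subst hjl
          rw [sub_self, smul_zero, smul_zero]
        · rw [A.hlam l hl j hj hjl]
      have e1 : ∀ Z : Matrix (Fin 2) (Fin 2) κ, (u l • C + Z) * T l - T l * (u l • C + Z)
          = (u l • C * T l - T l * (u l • C)) + (Z * T l - T l * Z) := by
        intro Z
        noncomm_ring
      rw [e1, hcm, ← hsum, ← hcm, ← e1]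
      exact h
    · have e : wed (red B (X A.φ) *ᵥ (fun i => B.q (v i))) (fun i => B.q (v i)) = 0 := by
        rw [wed_red, hvX _ A.hφ, map_zero]
      rw [hspan A.φ, Matrix.add_mulVec, wed_add_left, Matrix.smul_mulVec, wed_smul_left, hvC,
        mul_zero, zero_add] at e
      rw [← e]
      congr 2
      exact Finset.sum_congr rfl fun j hj => by rw [A.hb j hj]
  obtain ⟨w, hw0, hwC, hwT⟩ := hw
  by_cases hCw : C *ᵥ w = 0
  · left
    refine move1 ρ X hX w hw0 (fun g => ?_) htr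
    rw [hspan g, Matrix.add_mulVec, Matrix.smul_mulVec, hCw, smul_zero, zero_add,
      Matrix.sum_mulVec]
    exact Finset.sum_eq_zero fun l hl => by rw [Matrix.smul_mulVec, hwT l hl, smul_zero]
  · right
    have htm : ¬ tm := fun ht => hCw (by rw [hC0 ht, Matrix.zero_mulVec])
    obtain ⟨e, c0, hc0, hl⟩ := hst htm
    obtain ⟨c, hc⟩ := eig_of_wed hw0 hwC
    have hcc : c ≠ 0 := by
      rintro rfl
      exact hCw (by rw [hc, zero_smul])
    have hTr : ∀ l ∈ S1, (C * T l).trace = 0 := fun l hl =>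
      trace_mul_zero hw0 hwC (hwT l hl) (htr' _) (htr' _)
    -- determinant of `C`
    have hdetC : C.det = -(c ^ 2) := by
      have e0 := congrFun hc 0
      have e1 := congrFun hc 1
      have e2 := htr' A.γ
      rw [Matrix.trace_fin_two] at e2
      simp only [Matrix.mulVec, dotProduct, Fin.sum_univ_two, Pi.smul_apply, smul_eq_mul] at e0 e1
      rw [Matrix.det_fin_two]
      have e3 : C 1 1 = - C 0 0 := by linear_combination e2
      rw [e3] at e1 ⊢
      by_cases h0 : w 0 = 0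
      · have h1 : w 1 ≠ 0 := by
          intro h1
          apply hw0
          funext i
          fin_cases i
          · exact h0
          · exact h1
        apply mul_left_cancel₀ h1
        rw [h0] at e0 e1
        linear_combination (C 0 0 - c) * e1 - C 1 0 * e0
      · apply mul_left_cancel₀ h0
        linear_combination -(C 0 0 + c) * e0 - C 0 1 * e1
    have hqdet : B.q (X A.γ).det = -(c ^ 2) := by
      rw [← hdetC, Matrix.det_fin_two, Matrix.det_fin_two, map_sub, map_mul, map_mul]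
      rfl
    have hqtr : B.q (X A.γ).trace = 0 := (B.ker _).2 (htr _)
    have hx1 : ∀ x1 : O, (X A.γ).det = x1 * ((X A.γ).trace - x1) → B.q x1 ≠ 0 := by
      intro x1 h h0
      rw [h, map_mul, h0, zero_mul] at hqdet
      exact pow_ne_zero 2 hcc (by linear_combination hqdet)
    obtain ⟨U, x1, hU, hdet, hY⟩ := diag_conj (X A.γ) v hv (hvX _ A.hγ) (fun x1 h => by
      rw [map_sub, map_sub, hqtr]
      have e := hx1 x1 h
      intro h0
      have e2 : (2 : κ) * B.q x1 = 0 := by linear_combination h0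
      exact e ((mul_eq_zero.1 e2).resolve_left h2))
    obtain ⟨ρ', hρ', hr⟩ := exists_conj ρ U hU
    have hG' := hG.conj hρ'
    set X' : G → Matrix (Fin 2) (Fin 2) O := fun g => U.adjugate * X g * U with hX'
    have hX'e : ∀ g, mt (ρ' g) = 1 + B.π ^ k • X' g := by
      intro g
      rw [hr, hX, mul_add, mul_one, add_mul, Matrix.adjugate_mul, hU, one_smul, Matrix.mul_smul,
        Matrix.smul_mul]
    have e3 : X' A.γ = !![x1, 0; 0, (X A.γ).trace - x1] := hY
    refine hρ'.symm.line (stage2 h2 A hG' hk hX'e hl hc0 (fun l hl => ?_) ?_ ?_ ?_)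
    · -- trace of the product
      have e1 : (X' A.γ * X' (A.τ l)).trace = (X A.γ * X (A.τ l)).trace := by
        have e2 : X' A.γ * X' (A.τ l) = U.adjugate * (X A.γ * X (A.τ l)) * U := by
          show U.adjugate * X A.γ * U * (U.adjugate * X (A.τ l) * U) = _
          have e3 : U.adjugate * X A.γ * U * (U.adjugate * X (A.τ l) * U) =
              U.adjugate * X A.γ * (U * U.adjugate) * X (A.τ l) * U := by
            simp only [mul_assoc]
          rw [e3, Matrix.mul_adjugate, hU, one_smul, mul_one]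
          simp only [mul_assoc]
        rw [e2, Matrix.trace_mul_comm, ← mul_assoc, Matrix.mul_adjugate, hU, one_smul, one_mul]
      have e2 : B.q (X A.γ * X (A.τ l)).trace = 0 := by
        have e3 := hTr l hl
        have e4 : C * T l = red B (X A.γ * X (A.τ l)) := by rw [map_mul]
        rw [e4, Matrix.trace_fin_two, red_apply, red_apply, ← map_add,
          ← Matrix.trace_fin_two] at e3
        exact e3
      rw [← e1] at e2
      have e5 : B.π ∣ (X' (A.τ l)).trace := by
        have : (X' (A.τ l)).trace = (X (A.τ l)).trace := by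
          show (U.adjugate * X (A.τ l) * U).trace = _
          rw [Matrix.trace_mul_comm, ← mul_assoc, Matrix.mul_adjugate, hU, one_smul, one_mul]
        rw [this]
        exact htr _
      rw [← B.ker, Matrix.trace_fin_two, map_add] at e5
      have e6 : (X' A.γ * X' (A.τ l)).trace = x1 * X' (A.τ l) 0 0 +
          ((X A.γ).trace - x1) * X' (A.τ l) 1 1 := by
        rw [Matrix.trace_fin_two, Matrix.mul_apply, Matrix.mul_apply, Fin.sum_univ_two,
          Fin.sum_univ_two, e3]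
        simp
      rw [e6, map_add, map_mul, map_mul, map_sub, hqtr] at e2
      have e7 : 2 * B.q x1 * B.q (X' (A.τ l) 0 0) = 0 := by
        linear_combination e2 + B.q x1 * e5
      rcases mul_eq_zero.1 e7 with h | h
      · exact absurd ((mul_eq_zero.1 h).resolve_left h2) (hx1 x1 hdet)
      · exact h
    · rw [e3]
      simp
    · rw [e3]
      simp
    · rw [e3]
      intro h0
      have e4 : B.q x1 - B.q ((X A.γ).trace - x1) = 0 := by simpa using h0
      rw [map_sub, hqtr] at e4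
      have e5 : (2 : κ) * B.q x1 = 0 := by linear_combination e4
      exact hx1 x1 hdet ((mul_eq_zero.1 e5).resolve_left h2)

omit [TopologicalSpace G] [IsTopologicalGroup G] in
/-- if all traces are `2` there is a line -/
theorem line_of_trace {ρ : G →* GL (Fin 2) O} (hdet : ∀ g, (mt (ρ g)).det = 1)
    (htr : ∀ g, (mt (ρ g)).trace = 2) : HasLine ρ Set.univ := by
  by_cases h : ∀ g, mt (ρ g) = 1
  · exact ⟨Pi.single 0 1, fun h => by simpa using congrFun h 0, fun g _ => by
      rw [h g, Matrix.one_mulVec, wed_self]⟩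
  · push Not at h
    obtain ⟨g, hg⟩ := h
    -- entries of `N = ρ g - 1`
    have key : ∀ h : G, ∃ a b e : O, mt (ρ h) = !![1 + a, b; e, 1 - a] ∧ a ^ 2 + b * e = 0 := by
      intro h
      refine ⟨mt (ρ h) 0 0 - 1, mt (ρ h) 0 1, mt (ρ h) 1 0, ?_, ?_⟩
      · have e1 := htr h
        rw [Matrix.trace_fin_two] at e1
        ext i j
        fin_cases i <;> fin_cases j
        · simp
        · simp
        · simp
        · simp only [Fin.mk_one, Matrix.of_apply, Matrix.cons_val', Matrix.cons_val_one]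
          simp only [Matrix.cons_val_fin_one]
          linear_combination e1
      · have e1 := htr h
        have e2 := hdet h
        rw [Matrix.trace_fin_two] at e1
        rw [Matrix.det_fin_two] at e2
        linear_combination -e2 + mt (ρ h) 0 0 * e1
    obtain ⟨a, b, e, hm, hab⟩ := key g
    have hcross : ∀ h : G, ∀ α β κ : O, mt (ρ h) = !![1 + α, β; κ, 1 - α] →
        2 * a * α + b * κ + e * β = 0 := by
      intro h α β κ hh
      have e1 := htr (g * h)
      rw [mt_mul, hm, hh, Matrix.trace_fin_two, Matrix.mul_apply, Matrix.mul_apply,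
        Fin.sum_univ_two, Fin.sum_univ_two] at e1
      simp at e1
      linear_combination e1
    by_cases hae : a = 0 ∧ e = 0
    · obtain ⟨ha, he⟩ := hae
      have hb : b ≠ 0 := by
        rintro rfl
        apply hg
        rw [hm, ha, he]
        ext i j
        fin_cases i <;> fin_cases j <;> simp
      refine ⟨Pi.single 0 1, fun h => by simpa using congrFun h 0, fun h _ => ?_⟩
      obtain ⟨α, β, κ, hh, -⟩ := key h
      have e1 := hcross h α β κ hh
      rw [ha, he] at e1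
      have e2 : κ = 0 := by
        have : b * κ = 0 := by linear_combination e1
        exact (mul_eq_zero.1 this).resolve_left hb
      rw [hh]
      simp [wed, Matrix.col, e2]
    · refine ⟨![a, e], fun h0 => hae ⟨congrFun h0 0, congrFun h0 1⟩, fun h _ => ?_⟩
      obtain ⟨α, β, κ, hh, -⟩ := key h
      have e1 := hcross h α β κ hh
      rw [hh]
      simp only [wed, Matrix.mulVec, dotProduct, Fin.sum_univ_two, Matrix.of_apply,
        Matrix.cons_val', Matrix.cons_val_zero, Matrix.cons_val_one]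
      linear_combination e * e1 - κ * hab

/-- **the main theorem, abstract form** -/
theorem main (h2 : (2 : κ) ≠ 0) {A : Ar κ G S1 u lam b Ur D tm} {t : G → O}
    (hH0 : H0 S1 u lam b tm) (hH1 : ∀ k, 1 ≤ k → H1 B S1 u lam b tm k)
    (hst : ¬ tm → ∃ (e : ℕ) (c0 : κ), c0 ≠ 0 ∧
      ∀ l ∈ S1, u l ≠ 0 ∧ ∃ s : O, (l : O) = 1 + B.π ^ e * s ∧ B.q s = c0 * u l)
    {ρ : G →* GL (Fin 2) O} (hG : Good B A t ρ)
    (hOd : Od B 0 ρ) : HasLine ρ Set.univ := by
  by_cases htriv : ∀ g, t g = 2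
  · exact line_of_trace hG.det fun g => by rw [hG.tr, htriv]
  · push Not at htriv
    obtain ⟨g0, hg0⟩ := htriv
    obtain ⟨B', hB'⟩ := B.fin _ (sub_ne_zero.2 hg0)
    set L := B' + 1 with hL
    have key : ∀ N : ℕ, (∀ ρ : G →* GL (Fin 2) O, ∀ m, Good B A t ρ → Od B m ρ → L ≤ m + N →
        HasLine ρ Set.univ) ∧ (∀ ρ : G →* GL (Fin 2) O, ∀ k, Good B A t ρ → 1 ≤ k → Ev B k ρ →
        L ≤ k + N → HasLine ρ Set.univ) := by
      intro N
      induction N with
      | zero =>
        have hev : ∀ ρ : G →* GL (Fin 2) O, ∀ k, Good B A t ρ → Ev B k ρ → L ≤ k → False := by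
          intro ρ k hG hEv hBk
          obtain ⟨X, hX⟩ := hEv g0
          apply hB'
          have e := hG.tr g0
          rw [hX, Matrix.trace_add, Matrix.trace_smul, Matrix.trace_one, Fintype.card_fin,
            smul_eq_mul] at e
          refine (pow_dvd_pow B.π hBk).trans ⟨X.trace, ?_⟩
          rw [← e]
          push_cast
          ring
        refine ⟨fun ρ m hG hOd hBm => ?_, fun ρ k hG _ hEv hBk => (hev ρ k hG hEv (by omega)).elim⟩
        exfalso
        refine hev ρ m hG (fun g => ?_) (by omega)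
        obtain ⟨a, b, c, d, h⟩ := hOd g
        exact ⟨_, h⟩
      | succ N ih =>
        have h1 : ∀ ρ : G →* GL (Fin 2) O, ∀ m, Good B A t ρ → Od B m ρ → L ≤ m + (N + 1) →
            HasLine ρ Set.univ := by
          intro ρ m hG hOd hBm
          obtain ⟨ρ', hρ', hEv⟩ := od_step hH0 hG hOd
          exact hρ'.symm.line (ih.2 ρ' (m + 1) (hG.conj hρ') (by omega) hEv (by omega))
        refine ⟨h1, fun ρ k hG hk hEv hBk => ?_⟩
        rcases ev_step h2 (hH1 k hk) hG hk hst hEv with ⟨ρ', hρ', hOd⟩ | h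
        · exact hρ'.symm.line (h1 ρ' k (hG.conj hρ') hOd hBk)
        · exact h
    exact (key L).1 ρ 0 hG hOd (by omega)

end

end Pool.Agent.TH831.OE
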