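import Pool.Agent.TH831.OT.Gal
import Pool.Agent.TH831.OE.Even

/-!
# The arithmetic input for the absolute Galois group of `ℚ`, without conditions on the primes
-/

set_option autoImplicit false

namespace Pool.Agent.TH831.OE

open NumberField Matrix Pool.Agent.W569.FM Pool.Agent.W134.FM Pool.Agent.TH831.OT

section
variable {p : ℕ} [hp : Fact p.Prime]

/-- characters, inertia and Frobenius elements -/
structure Dat (p : ℕ) [Fact p.Prime] (S : Finset ℕ) (χ : ∀ j : ℕ, (ZMod j)ˣ →* Multiplicative (ZMod p))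
    (P0 : Ideal (OO ℚ)) where
  P : ℕ → Ideal (OO ℚ)
  ψp : GF ℚ →* Multiplicative (ZMod p)
  ψ : ℕ → GF ℚ →* Multiplicative (ZMod p)
  γ : GF ℚ
  τ : ℕ → GF ℚ
  σ : ℕ → GF ℚ
  hP : ∀ l, l.Prime → (P l).IsMaximal ∧ (l : OO ℚ) ∈ P l
  hPp : P p = P0
  hγ : InInertia P0 γ
  hτ : ∀ l ∈ S, p ∣ l - 1 → InInertia (P l) (τ l)
  hσ : ∀ l, l.Prime → FrobAt l (P l) (σ l)
  hψo : ∀ l ∈ S, p ∣ l - 1 → IsOpen ((ψ l).ker : Set (GF ℚ))
  hψur : ∀ l ∈ S, p ∣ l - 1 → ∀ P : Ideal (OO ℚ), P.IsMaximal → (l : OO ℚ) ∉ P →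
    ∀ τ : GF ℚ, InInertia P τ → ψ l τ = 1
  hψτ : ∀ l ∈ S, p ∣ l - 1 → ψ l (τ l) = Multiplicative.ofAdd 1
  hψτ' : ∀ l ∈ S, p ∣ l - 1 → ∀ j ∈ S, p ∣ j - 1 → j ≠ l → ψ l (τ j) = 1
  hu : ∀ l ∈ S, p ∣ l - 1 → ψp (σ l) = Multiplicative.ofAdd (((l - 1) / p : ℕ) : ZMod p)
  hlam : ∀ j ∈ S, p ∣ j - 1 → ∀ l, l.Prime → l ≠ j → ∀ x : (ZMod j)ˣ, (x : ZMod j) = (l : ZMod j) →
    ψ j (σ l) = χ j x
  span : ∀ F : GF ℚ →* Multiplicative (ZMod p), IsOpen (F.ker : Set (GF ℚ)) →
      (∀ g ∈ UrSet p S, F g = 1) → ∀ g, Multiplicative.toAdd (F g) =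
        Multiplicative.toAdd (ψp g) * Multiplicative.toAdd (F γ) +
        ∑ l ∈ S.filter (fun l => p ∣ l - 1), Multiplicative.toAdd (ψ l g) *
          Multiplicative.toAdd (F (τ l))

theorem exists_dat (hp2 : p ≠ 2) (S : Finset ℕ)
    (hS : ∀ l ∈ S, l.Prime ∧ l ≠ p)
    (χ : ∀ j : ℕ, (ZMod j)ˣ →* Multiplicative (ZMod p))
    (hχ : ∀ l ∈ S, p ∣ l - 1 → ∃ x, χ l x ≠ 1)
    (P0 : Ideal (OO ℚ)) (hP0 : P0.IsMaximal) (hpP0 : (p : OO ℚ) ∈ P0) :
    Nonempty (Dat p S χ P0) := by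
  classical
  have hGEN : S_GEN := Pool.Agent.W215.FM.main
  have hTAME : S_TAME := Pool.Agent.W327.FM.main Pool.Agent.W258.FM.main
  have hFROB : S_FROB := Pool.Agent.W571.FM.main
  have hCYC := Pool.Agent.W64.TG.main
  have hFP := Pool.Agent.W924.UF.frobp
  have : NeZero p := ⟨hp.out.ne_zero⟩
  -- primes and Frobenius elements
  have e1 : ∀ l : ℕ, ∃ P : Ideal (OO ℚ), (l.Prime → P.IsMaximal ∧ (l : OO ℚ) ∈ P) ∧
      (l = p → P = P0) := by
    intro l
    by_cases hlp : l = p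
    · exact ⟨P0, fun _ => ⟨hP0, by rw [hlp]; exact hpP0⟩, fun _ => rfl⟩
    · by_cases hl : l.Prime
      · obtain ⟨P, hP, hlP, -⟩ := (hFROB l hl).1
        exact ⟨P, fun _ => ⟨hP, hlP⟩, fun h => absurd h hlp⟩
      · exact ⟨⊥, fun h => absurd h hl, fun h => absurd h hlp⟩
  choose P hP hPp using e1
  have hPp' : P p = P0 := hPp p rfl
  have e2 : ∀ l : ℕ, ∃ σ : GF ℚ, l.Prime → FrobAt l (P l) σ := by
    intro l
    by_cases hl : l.Prime
    · obtain ⟨σ, hσ⟩ := hFP l hl (P l) (hP l hl).1 (hP l hl).2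
      exact ⟨σ, fun _ => hσ⟩
    · exact ⟨1, fun h => absurd h hl⟩
  choose σ hσ using e2
  have hnotmem : ∀ l q : ℕ, l.Prime → q.Prime → q ≠ l → (l : OO ℚ) ∉ P q := fun l q hl hq hne h =>
    hne (char_unique (hP q hq).1 hq hl (hP q hq).2 h)
  -- the character of conductor `p ^ 2`
  obtain ⟨ψp, w, hw, hψo, hψur, hψne, hψfr, hψker⟩ := exists_psi p
  obtain ⟨γ, hγ, hγ1⟩ : ∃ γ : GF ℚ, InInertia P0 γ ∧ ψp γ = Multiplicative.ofAdd 1 := by
    have h1 : ∃ γ : GF ℚ, InInertia P0 γ ∧ ψp γ ≠ 1 := by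
      by_contra hcon
      push Not at hcon
      obtain ⟨g, hg⟩ := hψne
      apply hg
      refine trivial_of_trivial hGEN hFROB ψp hψo P hP (fun l hl τ hτ => ?_) g
      by_cases hlp : l = p
      · rw [hlp, hPp'] at hτ
        exact hcon τ hτ
      · exact hψur (P l) (hP l hl).1 (hnotmem p l hp.out hl hlp) τ hτ
    obtain ⟨γ, h1, h2⟩ := h1
    exact exists_scale h1 h2
  -- the characters at the primes `l`
  have e3 : ∀ l : ℕ, ∃ ψ : GF ℚ →* Multiplicative (ZMod p), l ∈ S → p ∣ l - 1 →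
      IsOpen (ψ.ker : Set (GF ℚ)) ∧
      (∀ P : Ideal (OO ℚ), P.IsMaximal → (l : OO ℚ) ∉ P → ∀ τ : GF ℚ, InInertia P τ → ψ τ = 1) ∧
      (∃ g, ψ g ≠ 1) ∧
      ∀ q : ℕ, q.Prime → q ≠ l → ∀ P : Ideal (OO ℚ), P.IsMaximal → (q : OO ℚ) ∈ P →
        ∀ σ : GF ℚ, FrobAt q P σ → ∀ x : (ZMod l)ˣ, (x : ZMod l) = (q : ZMod l) → ψ σ = χ l x := by
    intro l
    by_cases hl : l ∈ S ∧ p ∣ l - 1
    · obtain ⟨ψ, hψ⟩ := hCYC p l hp.out (hS l hl.1).1 (χ l) (hχ l hl.1 hl.2)
      exact ⟨ψ, fun _ _ => hψ⟩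
    · exact ⟨1, fun h1 h2 => absurd ⟨h1, h2⟩ hl⟩
  choose ψ hψ using e3
  have e4 : ∀ l : ℕ, ∃ τ : GF ℚ, l ∈ S → p ∣ l - 1 → InInertia (P l) τ ∧
      ψ l τ = Multiplicative.ofAdd 1 := by
    intro l
    by_cases hl : l ∈ S ∧ p ∣ l - 1
    · have hlp := (hS l hl.1).1
      obtain ⟨h1, h2, ⟨g, hg⟩, -⟩ := hψ l hl.1 hl.2
      have h3 : ∃ τ : GF ℚ, InInertia (P l) τ ∧ ψ l τ ≠ 1 := by
        by_contra hcon
        push Not at hcon
        apply hg
        refine trivial_of_trivial hGEN hFROB (ψ l) h1 P hP (fun q hq τ hτ => ?_) g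
        by_cases hql : q = l
        · rw [hql] at hτ
          exact hcon τ hτ
        · exact h2 (P q) (hP q hq).1 (hnotmem l q hlp hq hql) τ hτ
      obtain ⟨τ, h4, h5⟩ := h3
      obtain ⟨τ', h6, h7⟩ := exists_scale h4 h5
      exact ⟨τ', fun _ _ => ⟨h6, h7⟩⟩
    · exact ⟨1, fun h1 h2 => absurd ⟨h1, h2⟩ hl⟩
  choose τ hτ using e4
  have hne1 : (Multiplicative.ofAdd (1 : ZMod p)) ≠ 1 := by
    intro h
    have h1 := congrArg Multiplicative.toAdd h
    rw [toAdd_ofAdd, toAdd_one] at h1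
    exact one_ne_zero h1
  have hmem : ∀ l ∈ S.filter (fun l => p ∣ l - 1), l ∈ S ∧ p ∣ l - 1 := fun l hl =>
    Finset.mem_filter.1 hl
  have hstep : ∀ l ∈ S, p ∣ l - 1 → l = 1 + p * ((l - 1) / p) := by
    intro l hl hpl
    rw [Nat.mul_div_cancel' hpl]
    have := (hS l hl).1.one_le
    omega
  have hspan : ∀ F : GF ℚ →* Multiplicative (ZMod p), IsOpen (F.ker : Set (GF ℚ)) →
      (∀ g ∈ UrSet p S, F g = 1) → ∀ g, Multiplicative.toAdd (F g) =
        Multiplicative.toAdd (ψp g) * Multiplicative.toAdd (F γ) +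
        ∑ l ∈ S.filter (fun l => p ∣ l - 1), Multiplicative.toAdd (ψ l g) *
          Multiplicative.toAdd (F (τ l)) := by
    intro F hF hFur g
    set c := Multiplicative.toAdd (F γ) with hc
    let F' : GF ℚ →* Multiplicative (ZMod p) :=
      { toFun := fun g => Multiplicative.ofAdd (Multiplicative.toAdd (F g) -
          Multiplicative.toAdd (ψp g) * c)
        map_one' := by simp
        map_mul' := fun a b => by
          rw [← ofAdd_add]
          congr 1
          rw [map_mul F, map_mul ψp, toAdd_mul, toAdd_mul]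
          ring }
    have hF' : ∀ g, F' g = Multiplicative.ofAdd (Multiplicative.toAdd (F g) -
          Multiplicative.toAdd (ψp g) * c) := fun g => rfl
    have hF'1 : ∀ g, F g = 1 → ψp g = 1 → F' g = 1 := by
      intro g h1 h2
      rw [hF', h1, h2, toAdd_one, zero_mul, sub_zero, ofAdd_zero]
    have hF'o : IsOpen (F'.ker : Set (GF ℚ)) := by
      have h1 : IsOpen ((F.ker ⊓ ψp.ker : Subgroup (GF ℚ)) : Set (GF ℚ)) := by
        rw [Subgroup.coe_inf]
        exact hF.inter hψo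
      refine Subgroup.isOpen_mono ?_ h1
      rintro g ⟨h2, h3⟩
      exact hF'1 g h2 h3
    have hur : ∀ l : ℕ, l.Prime → l ∉ S → ∀ t : GF ℚ, InInertia (P l) t → F' t = 1 := by
      intro l hl hlS t ht
      by_cases hlp : l = p
      · rw [hlp, hPp'] at ht
        set n := (-Multiplicative.toAdd (ψp t)).val with hn
        have h1 : InInertia P0 (γ ^ n * t) := inertia_mul (inertia_pow hγ n) ht
        have h2 : ψp (γ ^ n * t) = 1 := by
          apply Multiplicative.toAdd.injective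
          rw [map_mul, map_pow, hγ1, toAdd_mul, toAdd_pow, toAdd_ofAdd, toAdd_one, nsmul_eq_mul,
            mul_one, hn, ZMod.natCast_zmod_val]
          ring
        have h3 := hψker _ h2
        have h4 := kw hP0 hpP0 hp2 hw F hF (inertia_pow h1 (p - 1)) h3
        have h5 := congrArg Multiplicative.toAdd h4
        rw [map_pow, toAdd_pow, toAdd_one, nsmul_eq_mul, map_mul, map_pow, toAdd_mul, toAdd_pow,
          nsmul_eq_mul, hn, ZMod.natCast_zmod_val, ← hc] at h5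
        have h6 : ((p - 1 : ℕ) : ZMod p) ≠ 0 := by
          rw [Ne, ZMod.natCast_eq_zero_iff]
          intro h
          have := hp.out.two_le
          have := Nat.le_of_dvd (by omega) h
          omega
        have h7 := (mul_eq_zero.1 h5).resolve_left h6
        rw [hF']
        have h8 : Multiplicative.toAdd (F t) - Multiplicative.toAdd (ψp t) * c = 0 := by
          linear_combination h7
        rw [h8, ofAdd_zero]
      · have h1 : (p : OO ℚ) ∉ P l := hnotmem p l hp.out hl hlp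
        refine hF'1 t (hFur t ⟨P l, (hP l hl).1, fun l' hl' => ?_, h1, ht⟩)
          (hψur (P l) (hP l hl).1 h1 t ht)
        exact hnotmem l' l (hS l' hl').1 hl fun h => hlS (h ▸ hl')
    have h1 := span_hom hGEN hTAME hFROB F' hF'o S (fun l hl => ⟨(hS l hl).1, (hS l hl).2⟩) P hP
      σ hσ hur ψ (fun l hl hpl => (hψ l hl hpl).1)
      (fun l hl hpl q hq hql t ht => (hψ l hl hpl).2.1 (P q) (hP q hq).1
        (hnotmem l q (hS l hl).1 hq hql) t ht) τ
      (fun l hl hpl => ⟨(hτ l hl hpl).1, by rw [(hτ l hl hpl).2]; exact hne1⟩) g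
    rw [hF', toAdd_ofAdd] at h1
    have h2 : ∑ l ∈ S.filter (fun l => p ∣ l - 1),
        (Multiplicative.toAdd (ψ l g) / Multiplicative.toAdd (ψ l (τ l))) •
        Multiplicative.toAdd (F' (τ l)) = ∑ l ∈ S.filter (fun l => p ∣ l - 1),
          Multiplicative.toAdd (ψ l g) * Multiplicative.toAdd (F (τ l)) := by
      refine Finset.sum_congr rfl fun l hl => ?_
      obtain ⟨hl1, hl2⟩ := hmem l hl
      have hlp := (hS l hl1).1
      rw [(hτ l hl1 hl2).2, toAdd_ofAdd, div_one, smul_eq_mul, hF', toAdd_ofAdd,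
        hψur (P l) (hP l hlp).1 (hnotmem p l hp.out hlp (hS l hl1).2) _ (hτ l hl1 hl2).1,
        toAdd_one, zero_mul, sub_zero]
    rw [h2] at h1
    rw [← h1]
    ring
  exact ⟨{ P := P
           ψp := ψp
           ψ := ψ
           γ := γ
           τ := τ
           σ := σ
           hP := hP
           hPp := hPp'
           hγ := hγ
           hτ := fun l hl hpl => (hτ l hl hpl).1
           hσ := hσ
           hψo := fun l hl hpl => (hψ l hl hpl).1
           hψur := fun l hl hpl => (hψ l hl hpl).2.1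
           hψτ := fun l hl hpl => (hτ l hl hpl).2
           hψτ' := fun l hl hpl j hj hpj hjl => (hψ l hl hpl).2.1 (P j) (hP j (hS j hj).1).1
             (hnotmem l j (hS l hl).1 (hS j hj).1 hjl) _ (hτ j hj hpj).1
           hu := fun l hl hpl => hψfr l (hS l hl).1 (hS l hl).2 _ (hstep l hl hpl) (P l)
             (hP l (hS l hl).1).1 (hP l (hS l hl).1).2 (σ l) (hσ l (hS l hl).1)
           hlam := fun j hj hpj l hl hlj x hx => (hψ j hj hpj).2.2.2 l hl hlj (P l) (hP l hl).1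
             (hP l hl).2 (σ l) (hσ l hl) x hx
           span := hspan }⟩

/-- the span formula with values in an extension of `ℤ / p` -/
theorem Dat.spanK {S : Finset ℕ} {χ : ∀ j : ℕ, (ZMod j)ˣ →* Multiplicative (ZMod p)}
    {P0 : Ideal (OO ℚ)} (d : Dat p S χ P0) {κ : Type} [Field κ] (ι : ZMod p →+* κ)
    (F : GF ℚ →* Multiplicative κ) (hF : IsOpen (F.ker : Set (GF ℚ)))
    (hFur : ∀ g ∈ UrSet p S, F g = 1) (g : GF ℚ) : Multiplicative.toAdd (F g) =
        ι (Multiplicative.toAdd (d.ψp g)) * Multiplicative.toAdd (F d.γ) +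
        ∑ l ∈ S.filter (fun l => p ∣ l - 1), ι (Multiplicative.toAdd (d.ψ l g)) *
          Multiplicative.toAdd (F (d.τ l)) := by
  letI : Algebra (ZMod p) κ := ι.toAlgebra
  rw [← sub_eq_zero, ← Module.forall_dual_apply_eq_zero_iff (ZMod p)]
  intro φ
  let F' : GF ℚ →* Multiplicative (ZMod p) :=
    { toFun := fun g => Multiplicative.ofAdd (φ (Multiplicative.toAdd (F g)))
      map_one' := by simp
      map_mul' := fun a b => by
        rw [← ofAdd_add, map_mul, toAdd_mul, map_add] }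
  have hF' : ∀ g, F' g = Multiplicative.ofAdd (φ (Multiplicative.toAdd (F g))) := fun g => rfl
  have h1 : ∀ g, F g = 1 → F' g = 1 := fun g hg => by
    rw [hF', hg, toAdd_one, map_zero, ofAdd_zero]
  have h2 := d.span F' (Subgroup.isOpen_mono (fun g hg => h1 g hg) hF)
    (fun g hg => h1 g (hFur g hg)) g
  simp only [hF', toAdd_ofAdd] at h2
  have h3 : ∀ (a : ZMod p) (x : κ), ι a * x = a • x := fun a x => by
    rw [Algebra.smul_def]; rfl
  simp only [h3, map_sub, map_add, map_sum, map_smul, smul_eq_mul]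
  rw [h2]
  ring

end

end Pool.Agent.TH831.OE
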