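import Pool.Agent.TH831.OE.Ex

/-!
# Discrete valuation rings
-/

set_option autoImplicit false

namespace Pool.Agent.TH831.OE

open NumberField Matrix IsLocalRing Pool.Agent.W569.FM Pool.Agent.TH831.OT

section
variable (A : Type) [CommRing A] [IsDomain A] [IsDiscreteValuationRing A]

/-- the data attached to a discrete valuation ring -/
noncomputable def bas : Bas A (ResidueField A) where
  q := residue A
  π := (IsDiscreteValuationRing.exists_irreducible A).choose
  hπ := (IsDiscreteValuationRing.exists_irreducible A).choose_spec.ne_zero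
  surj := residue_surjective
  ker := fun x => by
    have h := (IsDiscreteValuationRing.exists_irreducible A).choose_spec
    rw [residue_eq_zero_iff, h.maximalIdeal_eq, Ideal.mem_span_singleton]
  unit := fun x hx => (residue_ne_zero_iff_isUnit x).1 hx
  fin := fun x hx => by
    have h := (IsDiscreteValuationRing.exists_irreducible A).choose_spec
    obtain ⟨n, hn⟩ := FiniteMultiplicity.of_prime_left h.prime hx
    exact ⟨n, hn⟩

theorem bas_q : (bas A).q = residue A := rfl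

variable {A}

theorem mem_max_iff (x : A) : x ∈ maximalIdeal A ↔ (bas A).π ∣ x := by
  rw [← (bas A).ker, bas_q, residue_eq_zero_iff]

theorem max_eq : maximalIdeal A = Ideal.span {(bas A).π} := by
  ext x
  rw [mem_max_iff, Ideal.mem_span_singleton]

theorem mem_pow_iff (n : ℕ) (x : A) : x ∈ maximalIdeal A ^ n ↔ (bas A).π ^ n ∣ x := by
  rw [max_eq, Ideal.span_singleton_pow, Ideal.mem_span_singleton]

theorem cts_of_continuous [TopologicalSpace A] (hA : IsAdic (maximalIdeal A)) {G : Type} [Group G]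
    [TopologicalSpace G] {ρ : G →* GL (Fin 2) A} (hρ : Continuous ρ) : Cts (bas A) ρ := by
  intro N
  have h1 : ∀ i j : Fin 2, ∀ᶠ g in nhds (1 : G),
      ((ρ g : Matrix (Fin 2) (Fin 2) A) - 1) i j ∈ maximalIdeal A ^ N := by
    intro i j
    have hv : Continuous fun g => (ρ g : Matrix (Fin 2) (Fin 2) A) :=
      Units.continuous_val.comp hρ
    have hc : Continuous fun g => (ρ g : Matrix (Fin 2) (Fin 2) A) i j := hv.matrix_elem i j
    have h2 := hc.continuousAt (x := (1 : G))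
    rw [ContinuousAt, map_one, Units.val_one] at h2
    have h3 := h2.eventually ((hA.hasBasis_nhds ((1 : Matrix (Fin 2) (Fin 2) A) i j)).mem_of_mem
      (i := N) trivial)
    filter_upwards [h3] with g hg
    obtain ⟨y, hy, hy'⟩ := hg
    rw [Matrix.sub_apply, ← hy']
    simpa using hy
  have h2 : ∀ᶠ g in nhds (1 : G), ∀ i j : Fin 2,
      ((ρ g : Matrix (Fin 2) (Fin 2) A) - 1) i j ∈ maximalIdeal A ^ N := by
    rw [Filter.eventually_all]
    intro i
    rw [Filter.eventually_all]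
    exact h1 i
  filter_upwards [h2] with g hg
  have h3 : ∀ i j, ∃ a, (mt (ρ g) - 1) i j = (bas A).π ^ N * a := fun i j =>
    (mem_pow_iff N _).1 (hg i j)
  choose a ha using h3
  refine ⟨Matrix.of a, ?_⟩
  have h4 : mt (ρ g) - 1 = (bas A).π ^ N • Matrix.of a := by
    ext i j
    rw [ha, Matrix.smul_apply, Matrix.of_apply, smul_eq_mul]
  rw [← h4]
  abel

theorem resU_of {G : Type} [Group G] {ρ : G →* GL (Fin 2) A}
    (h : ∀ g, ∃ M : ℕ, ∀ i j, (((ρ g : Matrix (Fin 2) (Fin 2) A) - 1) ^ M) i j ∈ maximalIdeal A) :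
    ResU (bas A) ρ := by
  intro g
  obtain ⟨M, hM⟩ := h g
  have h3 : ∀ i j, ∃ a, ((mt (ρ g) - 1) ^ M) i j = (bas A).π * a := fun i j =>
    (mem_max_iff _).1 (hM i j)
  choose a ha using h3
  exact ⟨M, Matrix.of a, by
    ext i j
    rw [ha, Matrix.smul_apply, Matrix.of_apply, smul_eq_mul]⟩

theorem natCast_zero_iff {p : ℕ} (hp : p.Prime) (hpm : (p : A) ∈ maximalIdeal A) (n : ℕ) :
    (n : ResidueField A) = 0 ↔ p ∣ n := by
  have hp0 : (p : ResidueField A) = 0 := by
    rw [← map_natCast (residue A), residue_eq_zero_iff]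
    exact hpm
  constructor
  · intro hn
    by_contra hcon
    have hcop : Nat.Coprime p n := (Nat.Prime.coprime_iff_not_dvd hp).2 hcon
    have h1 : ((Nat.gcdA p n * p + Nat.gcdB p n * n : ℤ) : ResidueField A) = 1 := by
      have h2 := Nat.gcd_eq_gcd_ab p n
      rw [hcop.gcd_eq_one] at h2
      rw [show (Nat.gcdA p n * p + Nat.gcdB p n * n : ℤ) = ((1 : ℕ) : ℤ) by rw [h2]; ring]
      simp
    push_cast at h1
    rw [hp0, hn, mul_zero, mul_zero, add_zero] at h1
    exact zero_ne_one h1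
  · rintro ⟨m, rfl⟩
    rw [Nat.cast_mul, hp0, zero_mul]

theorem charP_res {p : ℕ} (hp : p.Prime) (hpm : (p : A) ∈ maximalIdeal A) :
    CharP (ResidueField A) p := ⟨fun n => natCast_zero_iff hp hpm n⟩

/-- conjugation into the pro-`p` Iwahori subgroup -/
theorem exists_od_dvr {p : ℕ} (hp : p.Prime) (hfin : Finite (ResidueField A))
    (hpm : (p : A) ∈ maximalIdeal A) {G : Type} [Group G] {ρ : G →* GL (Fin 2) A}
    (h : ∀ g, ∃ M : ℕ, ∀ i j, (((ρ g : Matrix (Fin 2) (Fin 2) A) - 1) ^ M) i j ∈ maximalIdeal A) :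
    ∃ ρ' : G →* GL (Fin 2) A, Rel ρ ρ' ∧ Od (bas A) 0 ρ' := by
  obtain ⟨Q, hQ⟩ := Pool.Agent.W880.UF2.tri p hp A hfin hpm 2 G ρ h
  have hQdet : (mt Q).det ≠ 0 := by
    have h1 : mt Q * mt Q⁻¹ = 1 := by
      show (Q * Q⁻¹ : GL (Fin 2) A).1 = 1
      rw [mul_inv_cancel]
      rfl
    have h2 := congrArg Matrix.det h1
    rw [Matrix.det_mul, Matrix.det_one] at h2
    intro h0
    rw [h0, zero_mul] at h2
    exact zero_ne_one h2
  obtain ⟨ρ', hρ', h⟩ := exists_rel ρ (mt Q) hQdet (fun g => mt (Q * ρ g * Q⁻¹)) (fun g => by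
    show mt Q * mt (ρ g) = (Q * ρ g * Q⁻¹ : GL (Fin 2) A).1 * mt Q
    have e : (Q * ρ g * Q⁻¹ : GL (Fin 2) A) * Q = Q * ρ g := by group
    have e2 := congrArg (fun M : GL (Fin 2) A => M.1) e
    exact e2.symm)
  refine ⟨ρ', hρ', fun g => ?_⟩
  have h0 := hQ g
  have h00 := (mem_max_iff _).1 (h0 0 0 le_rfl)
  have h10 := (mem_max_iff _).1 (h0 1 0 (by decide))
  have h11 := (mem_max_iff _).1 (h0 1 1 le_rfl)
  obtain ⟨a, ha⟩ := h00
  obtain ⟨c, hc⟩ := h10
  obtain ⟨d, hd⟩ := h11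
  rw [Matrix.sub_apply] at ha hc hd
  refine ⟨a, mt (ρ' g) 0 1, c, d, ?_⟩
  rw [h g] at *
  rw [pow_zero, one_smul]
  ext i j
  fin_cases i <;> fin_cases j
  · simp only [Fin.zero_eta, Matrix.add_apply, Matrix.one_apply_eq, Matrix.of_apply,
      Matrix.cons_val', Matrix.cons_val_zero]
    rw [Matrix.one_apply_eq] at ha
    linear_combination ha
  · simp
  · simp only [Fin.zero_eta, Fin.mk_one, Matrix.add_apply, Matrix.of_apply,
      Matrix.cons_val', Matrix.cons_val_zero, Matrix.cons_val_one]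
    linear_combination hc
  · simp only [Fin.mk_one, Matrix.add_apply, Matrix.one_apply_eq, Matrix.of_apply,
      Matrix.cons_val', Matrix.cons_val_one, Matrix.cons_val_fin_one]
    rw [Matrix.one_apply_eq] at hd
    linear_combination hd

/-- small ramification -/
theorem small_of_ram {p e : ℕ} (hp : p.Prime) (hp2 : p ≠ 2)
    (h0 : (p : A) ∈ maximalIdeal A ^ e) (h1 : (p : A) ∉ maximalIdeal A ^ (e + 1))
    (he : 2 * e < p - 1) : (p : A) ≠ 0 ∧ (p : A) * (bas A).π ∣ (bas A).π ^ ((p - 1) / 2) := by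
  rw [mem_pow_iff] at h0 h1
  obtain ⟨c, hc⟩ := h0
  have hp0 : (p : A) ≠ 0 := by
    intro h
    rw [h] at h1
    exact h1 (dvd_zero _)
  refine ⟨hp0, ?_⟩
  have hqc : (bas A).q c ≠ 0 := by
    intro h
    obtain ⟨d, hd⟩ := ((bas A).ker c).1 h
    apply h1
    exact ⟨d, by rw [hc, hd]; ring⟩
  obtain ⟨w, hw⟩ := (bas A).unit c hqc
  have hodd : Odd p := hp.odd_of_ne_two hp2
  obtain ⟨k, hk⟩ := hodd
  obtain ⟨t, ht⟩ : ∃ t, (p - 1) / 2 = e + 1 + t := ⟨(p - 1) / 2 - (e + 1), by omega⟩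
  refine ⟨(bas A).π ^ t * ((w⁻¹ : Aˣ) : A), ?_⟩
  rw [ht, hc, ← hw]
  have h2 : (w : A) * ((w⁻¹ : Aˣ) : A) = 1 := Units.mul_inv w
  rw [pow_add, pow_add, pow_one]
  linear_combination -((bas A).π ^ e * (bas A).π * (bas A).π ^ t) * h2

end

end Pool.Agent.TH831.OE
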