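import Pool.Agent.TH831.OE.Uni
import Pool.Agent.W327.FM.TameAbs
import Pool.Agent.W258.FM.TameFin
import Pool.Agent.W880.UF2.Tri

/-!
# The tame relation, torsion, conjugation into the Iwahori subgroup
-/

set_option autoImplicit false

namespace Pool.Agent.TH831.OE

open NumberField Matrix Polynomial Pool.Agent.W569.FM Pool.Agent.TH831.OT

section
variable {O κ : Type} [CommRing O] [IsDomain O] [Field κ] {B : Bas O κ}

/-- `ρ` is unipotent modulo `π` -/
def ResU (B : Bas O κ) {G : Type} [Group G] (ρ : G →* GL (Fin 2) O) : Prop :=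
  ∀ g, ∃ (N : ℕ) (β : Matrix (Fin 2) (Fin 2) O), (mt (ρ g) - 1) ^ N = B.π • β

omit [IsDomain O] in
theorem cong_pow {M : Matrix (Fin 2) (Fin 2) O} {k : ℕ} (h : Cong B k M) (m : ℕ) :
    Cong B k (M ^ m) := by
  obtain ⟨α, hα⟩ := h
  induction m with
  | zero => exact ⟨0, by simp⟩
  | succ m ih =>
      obtain ⟨β, hβ⟩ := ih
      refine ⟨β + α + (B.π ^ k) • (β * α), ?_⟩
      rw [pow_succ, hβ, hα]
      simp only [mul_add, add_mul, mul_one, one_mul, Matrix.smul_mul, Matrix.mul_smul, smul_smul,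
        smul_add]
      abel

omit [IsDomain O] in
theorem cong_succ {p : ℕ} (hp : B.π ∣ (p : O)) {M : Matrix (Fin 2) (Fin 2) O} {k : ℕ}
    (h : Cong B (k + 1) M) : Cong B (k + 2) (M ^ p) := by
  obtain ⟨p', hp'⟩ := hp
  have h1 : ∀ m : ℕ, ∃ β : Matrix (Fin 2) (Fin 2) O,
      M ^ m = 1 + (B.π ^ (k + 1)) • β := fun m => cong_pow h m
  choose β hβ using h1
  obtain ⟨α, hα⟩ := h
  have h2 : (M - 1) * ∑ i ∈ Finset.range p, M ^ i = M ^ p - 1 := mul_geom_sum M p
  have h3 : ∑ i ∈ Finset.range p, M ^ i =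
      B.π • (p' • (1 : Matrix (Fin 2) (Fin 2) O) + (B.π ^ k) • ∑ i ∈ Finset.range p, β i) := by
    have h4 : ∑ i ∈ Finset.range p, M ^ i =
        ∑ i ∈ Finset.range p, (1 + (B.π ^ (k + 1)) • β i) :=
      Finset.sum_congr rfl fun i _ => hβ i
    rw [h4, Finset.sum_add_distrib, Finset.sum_const, Finset.card_range, ← Finset.smul_sum,
      smul_add, smul_smul, smul_smul, ← pow_succ', ← Nat.cast_smul_eq_nsmul O, hp']
  have h5 : M - 1 = (B.π ^ (k + 1)) • α := by
    rw [hα, add_sub_cancel_left]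
  refine ⟨α * (p' • (1 : Matrix (Fin 2) (Fin 2) O) + (B.π ^ k) • ∑ i ∈ Finset.range p, β i), ?_⟩
  have h6 : M ^ p = 1 + (M ^ p - 1) := by abel
  rw [h6, ← h2, h5, h3, Matrix.smul_mul, Matrix.mul_smul, smul_smul, ← pow_succ]

omit [IsDomain O] in
theorem cong_iter {p : ℕ} (hp : B.π ∣ (p : O)) {M : Matrix (Fin 2) (Fin 2) O} (h : Cong B 1 M)
    (t : ℕ) : Cong B (t + 1) (M ^ (p ^ t)) := by
  induction t with
  | zero => simpa using h
  | succ t ih =>
      have h1 := cong_succ hp ih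
      rwa [← pow_mul, ← pow_succ] at h1

omit [IsDomain O] in
theorem cong_one_of_nilp {p : ℕ} (hpp : p.Prime) (hp : B.π ∣ (p : O))
    {M β : Matrix (Fin 2) (Fin 2) O} {N : ℕ}
    (h : (M - 1) ^ N = B.π • β) : Cong B 1 (M ^ (p ^ N)) := by
  obtain ⟨p', hp'⟩ := hp
  have hc : Commute (M - 1) (1 : Matrix (Fin 2) (Fin 2) O) := Commute.one_right _
  obtain ⟨r, hr⟩ := hc.exists_add_pow_prime_pow_eq hpp N
  rw [sub_add_cancel, one_pow] at hr
  have hle : N ≤ p ^ N := (Nat.lt_pow_self hpp.one_lt).le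
  have h1 : (M - 1) ^ (p ^ N) = B.π • (β * (M - 1) ^ (p ^ N - N)) := by
    rw [← Matrix.smul_mul, ← h, ← pow_add, Nat.add_sub_cancel' hle]
  refine ⟨β * (M - 1) ^ (p ^ N - N) + p' • ((M - 1) * 1 * r), ?_⟩
  rw [hr, h1, pow_one, smul_add]
  have h2 : ((p : ℕ) : Matrix (Fin 2) (Fin 2) O) * (M - 1) * 1 * r =
      B.π • (p' • ((M - 1) * 1 * r)) := by
    rw [smul_smul, ← hp', Nat.cast_smul_eq_nsmul O, nsmul_eq_mul]
    simp only [mul_assoc]
  rw [h2]
  abel

/-- **the tame relation** -/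
theorem exact_rel {p : ℕ} (hp : p.Prime) (hpπ : B.π ∣ (p : O)) (ρ : GF ℚ →* GL (Fin 2) O)
    (hρ : Cts B ρ) (hres : ResU B ρ) {l : ℕ} (hl : l.Prime) (hlp : p ≠ l)
    {P : Ideal (OO ℚ)} (hP : P.IsMaximal) (hlP : (l : OO ℚ) ∈ P) {τ σ : GF ℚ}
    (hτ : InInertia P τ) (hσ : FrobAt l P σ) :
    mt (ρ σ) * mt (ρ τ) = mt (ρ τ) ^ l * mt (ρ σ) := by
  have hTAME : S_TAME := Pool.Agent.W327.FM.main Pool.Agent.W258.FM.main
  have key : ρ (σ * τ * σ⁻¹) = ρ τ ^ l := by
    apply Units.ext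
    ext i j
    rw [← sub_eq_zero]
    by_contra hne
    obtain ⟨N, hN⟩ := B.fin _ hne
    apply hN
    rw [← Ideal.mem_span_singleton, ← Ideal.Quotient.eq]
    set I : Ideal O := Ideal.span {B.π ^ (N + 1)} with hI
    let φ : GL (Fin 2) O →* GL (Fin 2) (O ⧸ I) :=
      Matrix.GeneralLinearGroup.map (Ideal.Quotient.mk I)
    have hφ : ∀ (M : GL (Fin 2) O) (i j : Fin 2), ((φ M : GL (Fin 2) (O ⧸ I)) :
        Matrix (Fin 2) (Fin 2) (O ⧸ I)) i j =
          Ideal.Quotient.mk I ((M : Matrix (Fin 2) (Fin 2) O) i j) := fun M i j => rfl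
    let f : GF ℚ →* GL (Fin 2) (O ⧸ I) := φ.comp ρ
    have hone : ∀ M : GL (Fin 2) O, Cong B (N + 1) (M : Matrix (Fin 2) (Fin 2) O) → φ M = 1 := by
      rintro M ⟨β, hβ⟩
      apply Units.ext
      ext i j
      rw [hφ, hβ, Matrix.add_apply, Matrix.smul_apply, smul_eq_mul, map_add, map_mul]
      have h0 : Ideal.Quotient.mk I (B.π ^ (N + 1)) = 0 := by
        rw [Ideal.Quotient.eq_zero_iff_mem, hI]
        exact Ideal.mem_span_singleton_self _
      rw [h0, zero_mul, add_zero, Units.val_one]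
      by_cases hij : i = j
      · subst hij
        rw [Matrix.one_apply_eq, Matrix.one_apply_eq, map_one]
      · rw [Matrix.one_apply_ne hij, Matrix.one_apply_ne hij, map_zero]
    have hfo : IsOpen (f.rangeRestrict.ker : Set (GF ℚ)) := by
      apply Subgroup.isOpen_of_mem_nhds _ (g := (1 : GF ℚ))
      filter_upwards [hρ (N + 1)] with g hg
      show f.rangeRestrict g = 1
      apply Subtype.ext
      exact hone _ hg
    have hE : IsPGroup p f.range := by
      rintro ⟨_, g, rfl⟩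
      obtain ⟨N0, β, hβ⟩ := hres g
      refine ⟨N0 + (N + 1), ?_⟩
      apply Subtype.ext
      show (f g) ^ (p ^ (N0 + (N + 1))) = 1
      rw [← map_pow]
      show φ (ρ (g ^ p ^ (N0 + (N + 1)))) = 1
      apply hone
      rw [map_pow, Units.val_pow_eq_pow_val, pow_add, pow_mul]
      obtain ⟨γ, hγ⟩ := cong_iter hpπ (cong_one_of_nilp hp hpπ hβ) (N + 1)
      refine ⟨B.π • γ, ?_⟩
      rw [hγ, smul_smul, ← pow_succ]
    have hfin : Finite f.range := by
      have h1 : Finite (GF ℚ ⧸ f.rangeRestrict.ker) := Subgroup.quotient_finite_of_isOpen _ hfo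
      exact Finite.of_equiv _
        (QuotientGroup.quotientKerEquivOfSurjective _ f.rangeRestrict_surjective).toEquiv
    have h1 := (hTAME p l hp hl hlp f.range hE f.rangeRestrict hfo P hP hlP).1 τ hτ σ hσ
    have h2 := congrArg Subtype.val h1
    have h3 : φ (ρ (σ * τ * σ⁻¹)) = φ (ρ τ ^ l) := by
      rw [map_pow]
      exact h2
    have h4 := congrArg (fun M : GL (Fin 2) (O ⧸ I) =>
      (M : Matrix (Fin 2) (Fin 2) (O ⧸ I)) i j) h3
    exact h4
  have h5 : ρ σ * ρ τ = ρ τ ^ l * ρ σ := by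
    rw [map_mul, map_mul, map_inv] at key
    rw [← key, inv_mul_cancel_right]
  have := congrArg (fun M : GL (Fin 2) O => mt M) h5
  simpa using this

/-- `1 + π O` has no torsion -/
theorem tors_free {p : ℕ} (hp : p.Prime) (hp2 : p ≠ 2)
    (hsm : ((p : O) ≠ 0 ∧ (p : O) * B.π ∣ B.π ^ ((p - 1) / 2)) ∨ CharP O p)
    {x : O} (hx : B.π ∣ x - 1) (hxp : x ^ p = 1) : x = 1 := by
  rcases hsm with ⟨hp0, z, hz⟩ | hchar
  · by_contra hne
    obtain ⟨g, hg1, hg⟩ := exists_g hp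
    have h1 : ∑ i ∈ Finset.range p, x ^ i = 0 := by
      have h2 : (x - 1) * ∑ i ∈ Finset.range p, x ^ i = 0 := by
        rw [mul_geom_sum, hxp, sub_self]
      exact (mul_eq_zero.1 h2).resolve_left (sub_ne_zero.2 hne)
    have h3 := congrArg (fun f : ℤ[X] => (f.map (Int.castRingHom O)).eval x) hg
    simp only [Polynomial.map_sum, Polynomial.map_pow, Polynomial.map_X, Polynomial.map_add,
      Polynomial.map_sub, Polynomial.map_one, Polynomial.map_mul, Polynomial.map_natCast,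
      Polynomial.eval_finsetSum, Polynomial.eval_pow, Polynomial.eval_X, Polynomial.eval_add,
      Polynomial.eval_sub, Polynomial.eval_one, Polynomial.eval_mul,
      Polynomial.eval_natCast] at h3
    rw [h1] at h3
    obtain ⟨y, hy⟩ := hx
    obtain ⟨t, ht⟩ : ∃ t, p - 1 = (p - 1) / 2 + t := ⟨p - 1 - (p - 1) / 2, by omega⟩
    rw [hy, mul_pow, ht, pow_add, hz] at h3
    have h4 : (p : O) * (B.π * (z * B.π ^ t * y ^ ((p - 1) / 2 + t)) +
        (g.map (Int.castRingHom O)).eval x) = (p : O) * 0 := by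
      rw [mul_zero, h3]
      ring
    have h5 := mul_left_cancel₀ hp0 h4
    have h6 := congrArg B.q h5
    rw [map_add, map_mul, q_pi, zero_mul, zero_add, map_zero] at h6
    have hqx : B.q x = 1 := by
      have : B.q (x - 1) = 0 := (B.ker _).2 ⟨y, hy⟩
      rw [map_sub, map_one] at this
      exact sub_eq_zero.1 this
    have h7 : B.q ((g.map (Int.castRingHom O)).eval x) = 1 := by
      rw [Polynomial.eval_map, Polynomial.hom_eval₂, hqx]
      have h8 : (1 : κ) = (B.q.comp (Int.castRingHom O)) 1 := by simp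
      rw [h8, Polynomial.eval₂_at_apply, hg1]
    rw [h7] at h6
    exact one_ne_zero h6
  · haveI : Fact p.Prime := ⟨hp⟩
    have h1 : (x - 1) ^ p = 0 := by rw [sub_pow_char, hxp, one_pow, sub_self]
    exact sub_eq_zero.1 ((pow_eq_zero_iff hp.ne_zero).1 h1)

theorem tors_free' {p l : ℕ} (hp : p.Prime) (hp2 : p ≠ 2)
    (hpκ : ∀ n : ℕ, (n : κ) = 0 ↔ p ∣ n)
    (hsm : ((p : O) ≠ 0 ∧ (p : O) * B.π ∣ B.π ^ ((p - 1) / 2)) ∨ CharP O p)
    {x : O} (hx : B.π ∣ x - 1) (hl : l ≠ 0) (hxl : x ^ l = 1) : x = 1 := by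
  obtain ⟨r, m, hm, hlm⟩ := Nat.exists_eq_pow_mul_and_not_dvd hl p hp.ne_one
  have hqx : B.q x = 1 := by
    have : B.q (x - 1) = 0 := (B.ker _).2 hx
    rw [map_sub, map_one] at this
    exact sub_eq_zero.1 this
  have h1 : ∀ k : ℕ, B.π ∣ x ^ k - 1 := fun k => by
    rw [← B.ker, map_sub, map_pow, hqx, one_pow, map_one, sub_self]
  have h2 : ∀ r : ℕ, x ^ (m * p ^ r) = 1 → x ^ m = 1 := by
    intro r
    induction r with
    | zero => intro h; rwa [pow_zero, mul_one] at h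
    | succ r ih =>
      intro h
      apply ih
      refine tors_free hp hp2 hsm (h1 _) ?_
      rw [← pow_mul, mul_assoc, ← pow_succ]
      exact h
  have h3 : x ^ m = 1 := h2 r (by rw [mul_comm, ← hlm]; exact hxl)
  by_contra hne
  have h4 : ∑ i ∈ Finset.range m, x ^ i = 0 := by
    have h5 : (x - 1) * ∑ i ∈ Finset.range m, x ^ i = 0 := by
      rw [mul_geom_sum, h3, sub_self]
    exact (mul_eq_zero.1 h5).resolve_left (sub_ne_zero.2 hne)
  have h5 := congrArg B.q h4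
  simp only [map_sum, map_pow, hqx, one_pow, Finset.sum_const, Finset.card_range, nsmul_eq_mul,
    mul_one, map_zero] at h5
  exact hm ((hpκ m).1 h5)

end

end Pool.Agent.TH831.OE
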