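import Pool.Agent.TH831.OE.TameG
import Pool.Agent.TH831.OE.Dvr

/-!
# Ordinary representations with coefficients in a complete discrete valuation ring
-/

set_option autoImplicit false

namespace Pool.Agent.TH831.OE

open NumberField Matrix IsLocalRing Pool.Agent.W569.FM Pool.Agent.W134.FM Pool.Agent.TH831.OT

section
variable {A : Type} [CommRing A] [IsDomain A] [IsDiscreteValuationRing A]

/-- square roots in a complete discrete valuation ring -/
theorem exists_sqrtA [IsAdicComplete (maximalIdeal A) A] (h2 : (2 : ResidueField A) ≠ 0) (d a : A)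
    (ha : residue A a ≠ 0) (hd : residue A d = residue A a ^ 2) :
    ∃ s : A, s * s = d ∧ residue A s = residue A a := by
  have hens : HenselianRing A (maximalIdeal A) := inferInstance
  obtain ⟨s, hs, hs1⟩ := hens.is_henselian (Polynomial.X ^ 2 - Polynomial.C d)
    (Polynomial.monic_X_pow_sub_C d two_ne_zero) a (by
      rw [← residue_eq_zero_iff]
      simp [hd]) (by
      have e : Ideal.Quotient.mk (maximalIdeal A)
          (Polynomial.eval a (Polynomial.derivative (Polynomial.X ^ 2 - Polynomial.C d))) =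
          residue A (2 * a) := by
        simp only [Polynomial.derivative_sub, Polynomial.derivative_X_pow,
          Polynomial.derivative_C, sub_zero]
        simp
        rfl
      rw [e, map_mul, map_ofNat]
      exact (mul_ne_zero h2 ha).isUnit)
  refine ⟨s, ?_, ?_⟩
  · have h3 : s ^ 2 - d = 0 := by simpa using hs
    linear_combination h3
  · rw [← residue_eq_zero_iff, map_sub] at hs1
    exact sub_eq_zero.1 hs1

end

section
variable {O κ : Type} [CommRing O] [IsDomain O] [Field κ] {B : Bas O κ} {G : Type} [Group G]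

/-- residually a scalar times a unipotent matrix -/
def ResS (B : Bas O κ) (a : G →* κˣ) (ρ : G →* GL (Fin 2) O) : Prop :=
  ∀ g, (red B (mt (ρ g)) - (a g : κ) • (1 : Matrix (Fin 2) (Fin 2) κ)) *
    (red B (mt (ρ g)) - (a g : κ) • (1 : Matrix (Fin 2) (Fin 2) κ)) = 0

theorem scal_det {M : Matrix (Fin 2) (Fin 2) κ} {a : κ}
    (h : (M - a • (1 : Matrix (Fin 2) (Fin 2) κ)) * (M - a • (1 : Matrix (Fin 2) (Fin 2) κ)) = 0) :
    M.det = a ^ 2 := by
  have h1 := trace_zero_of_sq h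
  have h2 : (M - a • (1 : Matrix (Fin 2) (Fin 2) κ)).det = 0 := by
    have e := congrArg Matrix.det h
    rw [Matrix.det_mul, Matrix.det_zero] at e
    exact mul_self_eq_zero.1 e
  rw [Matrix.trace_fin_two] at h1
  rw [Matrix.det_fin_two] at h2 ⊢
  simp only [Matrix.sub_apply, Matrix.smul_apply, smul_eq_mul, Matrix.one_apply_eq, ne_eq,
    zero_ne_one, not_false_eq_true, mul_one, mul_zero,
    Matrix.one_apply_ne, sub_zero, one_ne_zero] at h1 h2
  linear_combination h2 + a * h1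

theorem sqrt_uniqueB (h2 : (2 : κ) ≠ 0) {s t : O} (hst : B.q s = B.q t) (ht : B.q t ≠ 0)
    (h : s * s = t * t) : s = t := by
  have h1 : (s - t) * (s + t) = 0 := by linear_combination h
  rcases mul_eq_zero.1 h1 with h2' | h2'
  · exact sub_eq_zero.1 h2'
  · exfalso
    have h3 := congrArg B.q h2'
    rw [map_add, hst, map_zero, ← two_mul] at h3
    exact mul_ne_zero h2 ht h3

/-- twist to determinant one -/
theorem exists_twistB [TopologicalSpace G] [IsTopologicalGroup G] (h2 : (2 : κ) ≠ 0)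
    (hsqrt : ∀ (d : O) (a : κ), a ≠ 0 → B.q d = a ^ 2 → ∃ s : O, s * s = d ∧ B.q s = a)
    {ρ : G →* GL (Fin 2) O} (hρ : Cts B ρ) {a : G →* κˣ} (hres : ResS B a ρ) :
    ∃ (ρ' : G →* GL (Fin 2) O) (s : G → O), Cts B ρ' ∧
      (∀ g, (red B (mt (ρ' g)) - 1) * (red B (mt (ρ' g)) - 1) = 0) ∧
      (∀ g, s g ≠ 0) ∧ (∀ g, mt (ρ' g) = s g • mt (ρ g)) ∧ (∀ g, (mt (ρ' g)).det = 1) ∧
      ∀ g, ρ g = 1 → ρ' g = 1 := by
  have hdt : ∀ g, B.q (mt (ρ g)).det = (a g : κ) ^ 2 := fun g => by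
    rw [← scal_det (hres g), Matrix.det_fin_two, Matrix.det_fin_two, map_sub, map_mul, map_mul]
    rfl
  have hinv : ∀ g, (mt (ρ g⁻¹)).det * (mt (ρ g)).det = 1 := by
    intro g
    have h3 : mt (ρ g⁻¹) * mt (ρ g) = 1 := by
      rw [← mt_mul, inv_mul_cancel, map_one, mt_one]
    have h4 := congrArg Matrix.det h3
    rwa [Matrix.det_mul, Matrix.det_one] at h4
  have h1 : ∀ g : G, ∃ s : O, s * s = (mt (ρ g⁻¹)).det ∧ B.q s = ((a g⁻¹ : κˣ) : κ) := fun g =>
    hsqrt _ _ (Units.ne_zero _) (hdt _)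
  choose s hs hs1 using h1
  have hs0 : ∀ g, B.q (s g) ≠ 0 := by
    intro g
    rw [hs1]
    exact Units.ne_zero _
  have hs0' : ∀ g, s g ≠ 0 := fun g h => hs0 g (by rw [h, map_zero])
  have hmul : ∀ g h, s (g * h) = s g * s h := by
    intro g h
    refine sqrt_uniqueB (B := B) h2 ?_ ?_ ?_
    · rw [map_mul, hs1, hs1, hs1, _root_.mul_inv_rev, map_mul, Units.val_mul, mul_comm]
    · rw [map_mul]
      exact mul_ne_zero (hs0 _) (hs0 _)
    · rw [hs, _root_.mul_inv_rev, mt_mul, Matrix.det_mul, ← hs, ← hs]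
      ring
  have hone : ∀ g, ρ g = 1 → s g = 1 := by
    intro g hg
    have hdg : s g * s g = 1 * 1 := by
      rw [hs, map_inv, hg, inv_one, mt_one, Matrix.det_one, one_mul]
    have hag : (a g : κ) = 1 := by
      have e := hres g
      rw [hg, mt_one, map_one] at e
      have e0 := congrFun (congrFun e 0) 0
      rw [Matrix.mul_apply, Fin.sum_univ_two] at e0
      simp only [Matrix.sub_apply, Matrix.smul_apply, smul_eq_mul, Matrix.one_apply_eq, ne_eq,
        zero_ne_one, not_false_eq_true, mul_one, mul_zero, Matrix.zero_apply,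
        Matrix.one_apply_ne, sub_zero, one_ne_zero, add_zero] at e0
      have e1 := mul_self_eq_zero.1 e0
      exact (sub_eq_zero.1 e1).symm
    refine sqrt_uniqueB (B := B) h2 ?_ ?_ hdg
    · rw [hs1, map_inv, map_one, Units.val_inv_eq_inv_val, hag, inv_one]
    · rw [map_one]
      exact one_ne_zero
  let M : G →* Matrix (Fin 2) (Fin 2) O :=
    { toFun := fun g => s g • mt (ρ g)
      map_one' := by rw [hone 1 (map_one ρ), map_one, mt_one, one_smul]
      map_mul' := fun g h => by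
        rw [hmul, mt_mul, Matrix.smul_mul, Matrix.mul_smul, smul_smul] }
  have hval : ∀ g, mt (M.toHomUnits g) = s g • mt (ρ g) := fun g => rfl
  have hdet : ∀ g, (s g • mt (ρ g)).det = 1 := by
    intro g
    rw [Matrix.det_smul, Fintype.card_fin, pow_two, hs]
    exact hinv g
  refine ⟨M.toHomUnits, s, fun N => ?_, fun g => ?_, hs0', hval, fun g => ?_, fun g hg => ?_⟩
  · filter_upwards [hρ (N + 1)] with g hg
    obtain ⟨α, hα⟩ := hg
    -- the residual scalar is trivial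
    have hag : (a g : κ) = 1 := by
      have e := hres g
      rw [hα, map_add, map_one, red_smul, map_pow, q_pi, zero_pow (Nat.succ_ne_zero N),
        zero_smul, add_zero] at e
      have e0 := congrFun (congrFun e 0) 0
      rw [Matrix.mul_apply, Fin.sum_univ_two] at e0
      simp only [Matrix.sub_apply, Matrix.smul_apply, smul_eq_mul, Matrix.one_apply_eq, ne_eq,
        zero_ne_one, not_false_eq_true, mul_one, mul_zero, Matrix.zero_apply,
        Matrix.one_apply_ne, sub_zero, one_ne_zero, add_zero] at e0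
      have e1 := mul_self_eq_zero.1 e0
      exact (sub_eq_zero.1 e1).symm
    have hqs : B.q (s g) = 1 := by
      rw [hs1, map_inv, Units.val_inv_eq_inv_val, hag, inv_one]
    have hd : ∃ δ : O, (mt (ρ g)).det = 1 + B.π ^ (N + 1) * δ := by
      refine ⟨α 0 0 + α 1 1 + B.π ^ (N + 1) * (α 0 0 * α 1 1 - α 0 1 * α 1 0), ?_⟩
      rw [hα, Matrix.det_fin_two]
      simp
      ring
    obtain ⟨δ, hδ⟩ := hd
    have e1 : s g * s g * (1 + B.π ^ (N + 1) * δ) = 1 := by
      rw [hs, ← hδ]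
      exact hinv g
    obtain ⟨w, hw⟩ := B.unit (s g + 1) (by
      rw [map_add, hqs, map_one, one_add_one_eq_two]
      exact h2)
    have e2 : ∃ x : O, s g = 1 + B.π ^ (N + 1) * x := by
      refine ⟨-(((w⁻¹ : Oˣ) : O) * (s g * s g * δ)), ?_⟩
      have e3 : ((w⁻¹ : Oˣ) : O) * (s g + 1) = 1 := by
        rw [← hw]
        exact Units.inv_mul w
      have e4 : (s g + 1) * (s g - 1 + B.π ^ (N + 1) * (((w⁻¹ : Oˣ) : O) * (s g * s g * δ))) = 0 := by
        linear_combination e1 + B.π ^ (N + 1) * s g * s g * δ * e3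
      have e5 : s g + 1 ≠ 0 := by
        rw [← hw]
        exact w.ne_zero
      linear_combination (mul_eq_zero.1 e4).resolve_left e5
    obtain ⟨x, hx⟩ := e2
    refine ⟨(B.π * x) • (1 : Matrix (Fin 2) (Fin 2) O) + (B.π * s g) • α, ?_⟩
    rw [hval, hα]
    have e6 : s g = 1 + B.π ^ N * (B.π * x) := by rw [hx]; ring
    rw [smul_add, smul_smul, smul_add, smul_smul, smul_smul, ← add_assoc]
    congr 1
    · conv_lhs => rw [e6]
      rw [add_smul, one_smul]
    · congr 1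
      ring
  · have e := hres g
    have e1 : red B (mt (M.toHomUnits g)) - 1 = ((a g⁻¹ : κˣ) : κ) •
        (red B (mt (ρ g)) - (a g : κ) • (1 : Matrix (Fin 2) (Fin 2) κ)) := by
      rw [hval, red_smul, hs1, smul_sub, smul_smul, map_inv, Units.inv_mul, one_smul]
    rw [e1, Matrix.smul_mul, Matrix.mul_smul, e, smul_zero, smul_zero]
  · rw [hval]
    exact hdet g
  · apply Units.ext
    show s g • mt (ρ g) = 1
    rw [hone g hg, hg, mt_one, one_smul]

end

section
variable {O κ : Type} [CommRing O] [IsDomain O] [Field κ] {B : Bas O κ}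
variable {p : ℕ} [hp : Fact p.Prime]
variable {S : Finset ℕ} {χ : ∀ j : ℕ, (ZMod j)ˣ →* Multiplicative (ZMod p)}
  {P0 : Ideal (OO ℚ)}

theorem exists_ordAr (hS : ∀ l ∈ S, l.Prime ∧ l ≠ p) (hP0 : P0.IsMaximal)
    (d : Dat p S χ P0) (ι : ZMod p →+* κ) (lam : ℕ → ℕ → κ) (b : ℕ → κ)
    (hlam : ∀ l ∈ S, p ∣ l - 1 → ∀ j ∈ S, p ∣ j - 1 → j ≠ l → ∀ x : (ZMod j)ˣ,
      (x : ZMod j) = (l : ZMod j) → lam l j = ι (Multiplicative.toAdd (χ j x)))
    (hb : ∀ j ∈ S, p ∣ j - 1 → ∀ x : (ZMod j)ˣ,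
      (x : ZMod j) = (p : ZMod j) → b j = ι (Multiplicative.toAdd (χ j x))) :
    ∃ A : Ar κ (GF ℚ) (S.filter fun l => p ∣ l - 1) (fun l => (((l - 1) / p : ℕ) : κ)) lam b
      (UrSet p S) (DSet P0) False, A.τ = d.τ ∧ A.σ = d.σ := by
  have hmem : ∀ l ∈ S.filter (fun l => p ∣ l - 1), l ∈ S ∧ p ∣ l - 1 := fun l hl =>
    Finset.mem_filter.1 hl
  refine ⟨{ psi := fun g => ι (Multiplicative.toAdd (d.ψp g))
            chi := fun l g => ι (Multiplicative.toAdd (d.ψ l g))
            γ := d.γ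
            φ := d.σ p
            τ := d.τ
            σ := d.σ
            hγ := fun x => inertia_iff d.hγ x
            hφ := fun x => by
              have h := d.hσ p hp.out
              rw [d.hPp] at h
              exact frob_iff hP0 hp.out.ne_zero h x
            hu := fun l hl => ?_
            hlam := fun l hl j hj hjl => ?_
            hb := fun j hj => ?_
            span := fun F hF hFur g => d.spanK ι F hF hFur g
            htm := fun h => h.elim }, rfl, rfl⟩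
  · obtain ⟨hl1, hl2⟩ := hmem l hl
    show ι (Multiplicative.toAdd (d.ψp (d.σ l))) = _
    rw [d.hu l hl1 hl2, toAdd_ofAdd, map_natCast]
  · obtain ⟨hl1, hl2⟩ := hmem l hl
    obtain ⟨hj1, hj2⟩ := hmem j hj
    have hlp := (hS l hl1).1
    have hjp := (hS j hj1).1
    have hcop : Nat.Coprime l j := (Nat.coprime_primes hlp hjp).2 (Ne.symm hjl)
    show ι (Multiplicative.toAdd (d.ψ j (d.σ l))) = _
    rw [d.hlam j hj1 hj2 l hlp (Ne.symm hjl) (ZMod.unitOfCoprime l hcop)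
      (ZMod.coe_unitOfCoprime l hcop)]
    exact (hlam l hl1 hl2 j hj1 hj2 hjl _ (ZMod.coe_unitOfCoprime l hcop)).symm
  · obtain ⟨hj1, hj2⟩ := hmem j hj
    have hjp := (hS j hj1).1
    have hcop : Nat.Coprime p j := (Nat.coprime_primes hp.out hjp).2 (Ne.symm (hS j hj1).2)
    show ι (Multiplicative.toAdd (d.ψ j (d.σ p))) = _
    rw [d.hlam j hj1 hj2 p hp.out (Ne.symm (hS j hj1).2) (ZMod.unitOfCoprime p hcop)
      (ZMod.coe_unitOfCoprime p hcop)]
    exact (hb j hj1 hj2 _ (ZMod.coe_unitOfCoprime p hcop)).symm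

theorem two_ne_of (hp2 : p ≠ 2) (hpκ : ∀ n : ℕ, (n : κ) = 0 ↔ p ∣ n) : (2 : κ) ≠ 0 := by
  intro h
  have h4 : ((2 : ℕ) : κ) = 0 := by exact_mod_cast h
  have := Nat.le_of_dvd two_pos ((hpκ 2).1 h4)
  have := hp.out.two_le
  omega

theorem ord_line (hp2 : p ≠ 2) (hpκ : ∀ n : ℕ, (n : κ) = 0 ↔ p ∣ n) {e : ℕ} {c : O}
    (hc : (p : O) = B.π ^ e * c) (hqc : B.q c ≠ 0) (he : 1 ≤ e)
    (hS : ∀ l ∈ S, l.Prime ∧ l ≠ p ∧ ¬ p ^ 2 ∣ l - 1) (d : Dat p S χ P0)
    {lam : ℕ → ℕ → κ} {b : ℕ → κ}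
    (A : Ar κ (GF ℚ) (S.filter fun l => p ∣ l - 1) (fun l => (((l - 1) / p : ℕ) : κ)) lam b
      (UrSet p S) (DSet P0) False) (hAτ : A.τ = d.τ) (hAσ : A.σ = d.σ)
    (hH0 : H0 (S.filter fun l => p ∣ l - 1) (fun l => (((l - 1) / p : ℕ) : κ)) lam b False)
    (hH1 : ∀ k, 1 ≤ k →
      H1 B (S.filter fun l => p ∣ l - 1) (fun l => (((l - 1) / p : ℕ) : κ)) lam b False k)
    {ρ : GF ℚ →* GL (Fin 2) O} (hρ : Cts B ρ) (hdet : ∀ g, (mt (ρ g)).det = 1)
    (hres : ResU B ρ) (hur : ∀ g ∈ UrSet p S, ρ g = 1) (hline : HasLine ρ (DSet P0))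
    (hU : ∀ l ∈ S, p ∣ l - 1 → ∀ P : Ideal (OO ℚ), P.IsMaximal → (l : OO ℚ) ∈ P →
      ∀ τ : GF ℚ, InInertia P τ → (mt (ρ τ) - 1) * (mt (ρ τ) - 1) = 0)
    (hod : ∃ ρ' : GF ℚ →* GL (Fin 2) O, Rel ρ ρ' ∧ Od B 0 ρ') : HasLine ρ Set.univ := by
  have h2κ := two_ne_of hp2 hpκ
  have hpπ : B.π ∣ (p : O) := by
    rw [hc]
    exact (dvd_pow_self _ (by omega)).mul_right _
  have hmem : ∀ l ∈ S.filter (fun l => p ∣ l - 1), l ∈ S ∧ p ∣ l - 1 := fun l hl =>
    Finset.mem_filter.1 hl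
  have hsq : ∀ l ∈ S.filter (fun l => p ∣ l - 1),
      (mt (ρ (A.τ l)) - 1) * (mt (ρ (A.τ l)) - 1) = 0 := by
    intro l hl
    obtain ⟨hl1, hl2⟩ := hmem l hl
    obtain ⟨h1, h2⟩ := d.hP l (hS l hl1).1
    rw [hAτ]
    exact hU l hl1 hl2 _ h1 h2 _ (d.hτ l hl1 hl2)
  have hG : Good B A (fun g => (mt (ρ g)).trace) ρ := by
    refine ⟨hρ, hur, hdet, fun g => rfl, hline, hsq, fun l hl => ?_⟩
    obtain ⟨hl1, hl2⟩ := hmem l hl
    obtain ⟨h1, h2⟩ := d.hP l (hS l hl1).1
    apply rel_of_sq (hsq l hl)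
    rw [hAτ, hAσ]
    exact exact_rel hp.out hpπ ρ hρ hres (hS l hl1).1 (Ne.symm (hS l hl1).2.1) h1 h2
      (d.hτ l hl1 hl2) (d.hσ l (hS l hl1).1)
  obtain ⟨ρ', hρ', hOd⟩ := hod
  refine hρ'.symm.line (main h2κ hH0 hH1 (fun _ => ⟨e, B.q c, hqc, fun l hl => ?_⟩)
    (hG.conj hρ') hOd)
  obtain ⟨hl1, hl2⟩ := hmem l hl
  have hl' : l = 1 + p * ((l - 1) / p) := by
    rw [Nat.mul_div_cancel' hl2]
    have := (hS l hl1).1.one_le
    omega
  refine ⟨?_, c * (((l - 1) / p : ℕ) : O), ?_, ?_⟩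
  · rw [Ne, hpκ]
    intro h
    apply (hS l hl1).2.2
    rw [pow_two, ← Nat.mul_div_cancel' hl2]
    exact Nat.mul_dvd_mul_left p h
  · conv_lhs => rw [hl']
    push_cast
    rw [hc]
    ring
  · rw [map_mul, map_natCast]

end

end Pool.Agent.TH831.OE
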