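import Pool.Agent.TH831.OT.Few

/-!
# Explicit conditions for at most three primes
-/

set_option autoImplicit false

namespace Pool.Agent.TH831.OE

open Matrix Pool.Agent.TH831.OT

section
variable {K : Type} [Field K]

/-- Gram determinant of three nilpotent two by two matrices -/
theorem gram {X Y Z : Matrix (Fin 2) (Fin 2) K} (hX : X * X = 0) (hY : Y * Y = 0)
    (hZ : Z * Z = 0) : ((X * Y - Y * X) * Z).trace ^ 2 =
      -4 * ((X * Y).trace * (X * Z).trace * (Y * Z).trace) := by
  have key : ∀ {M : Matrix (Fin 2) (Fin 2) K}, M * M = 0 → M 1 1 = - M 0 0 ∧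
      M 0 0 ^ 2 + M 0 1 * M 1 0 = 0 := by
    intro M hM
    have h1 := trace_zero_of_sq hM
    rw [Matrix.trace_fin_two] at h1
    have h2 := congrFun (congrFun hM 0) 0
    rw [Matrix.mul_apply, Fin.sum_univ_two, Matrix.zero_apply] at h2
    exact ⟨by linear_combination h1, by linear_combination h2⟩
  obtain ⟨x1, x2⟩ := key hX
  obtain ⟨y1, y2⟩ := key hY
  obtain ⟨z1, z2⟩ := key hZ
  simp only [Matrix.trace_fin_two, Matrix.mul_apply, Fin.sum_univ_two, Matrix.sub_apply, x1, y1, z1]
  generalize X 0 0 = a1 at *
  generalize X 0 1 = b1 at *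
  generalize X 1 0 = c1 at *
  generalize Y 0 0 = a2 at *
  generalize Y 0 1 = b2 at *
  generalize Y 1 0 = c2 at *
  generalize Z 0 0 = a3 at *
  generalize Z 0 1 = b3 at *
  generalize Z 1 0 = c3 at *
  linear_combination (4 * (2 * a2 * a3 + b2 * c3 + c2 * b3) ^ 2 -
    16 * (a2 ^ 2 + b2 * c2) * (a3 ^ 2 + b3 * c3)) * x2 +
    4 * (2 * a1 * a3 + b1 * c3 + c1 * b3) ^ 2 * y2 +
    4 * (2 * a1 * a2 + b1 * c2 + c1 * b2) ^ 2 * z2

theorem comm_sumK {S1 : Finset ℕ} (T : ℕ → Matrix (Fin 2) (Fin 2) K) (c : ℕ → K) (l : ℕ) :
    (∑ j ∈ S1, c j • T j) * T l - T l * (∑ j ∈ S1, c j • T j) =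
      ∑ j ∈ S1, c j • (T j * T l - T l * T j) := by
  rw [Finset.sum_mul, Finset.mul_sum, ← Finset.sum_sub_distrib]
  refine Finset.sum_congr rfl fun j _ => ?_
  rw [smul_sub, Matrix.smul_mul, Matrix.mul_smul]

/-- common kernel if all traces of products vanish -/
theorem kernel_of_traces {S1 : Finset ℕ} {T : ℕ → Matrix (Fin 2) (Fin 2) K}
    (hsq : ∀ l ∈ S1, T l * T l = 0) (h : ∀ l ∈ S1, ∀ j ∈ S1, (T l * T j).trace = 0) :
    ∃ w : Fin 2 → K, w ≠ 0 ∧ ∀ l ∈ S1, T l *ᵥ w = 0 := by
  by_cases hT : ∀ l ∈ S1, T l = 0
  · exact ⟨Pi.single 0 1, fun h => by simpa using congrFun h 0, fun l hl => by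
      rw [hT l hl, Matrix.zero_mulVec]⟩
  · push Not at hT
    obtain ⟨k, hk, hTk⟩ := hT
    obtain ⟨w, hw0, -, -, hw⟩ := nil_kernel (hsq k hk) hTk
    exact ⟨w, hw0, fun l hl => hw _ (hsq l hl) (h k hk l hl)⟩

theorem h1_three {S1 : Finset ℕ} (hcard : S1.card ≤ 3) (h2 : (2 : K) ≠ 0)
    {lam : ℕ → ℕ → K} (s : ℕ → K) (T : ℕ → Matrix (Fin 2) (Fin 2) K)
    (hsq : ∀ l ∈ S1, T l * T l = 0)
    (hrel : ∀ l ∈ S1, (∑ j ∈ S1, lam l j • T j) * T l - T l * (∑ j ∈ S1, lam l j • T j) =
      s l • T l)
    (hpair : ∀ k ∈ S1, ∀ l ∈ S1, k ≠ l → lam l k ≠ 0 ∨ lam k l ≠ 0)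
    (hcol : ∀ j ∈ S1, ∀ k ∈ S1, ∀ l ∈ S1, j ≠ k → j ≠ l → k ≠ l → lam j l ≠ 0 ∨ lam k l ≠ 0)
    (hC : ∀ j ∈ S1, ∀ k ∈ S1, ∀ l ∈ S1, j ≠ k → j ≠ l → k ≠ l → T j ≠ 0 → T k ≠ 0 → T l ≠ 0 →
      (s j = 0 ∧ s k = 0 ∧ s l = 0) ∨ (s j * lam k l + s k * lam j l ≠ 0 ∨
        s j * lam l k + s l * lam j k ≠ 0 ∨ s k * lam l j + s l * lam k j ≠ 0)) :
    ∃ w : Fin 2 → K, w ≠ 0 ∧ ∀ l ∈ S1, T l *ᵥ w = 0 := by
  classical
  apply kernel_of_traces hsq
  by_contra hcon
  push Not at hcon
  obtain ⟨l, hl, j, hj, hg⟩ := hcon
  have hlj : l ≠ j := by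
    rintro rfl
    exact hg (by rw [hsq l hl, Matrix.trace_zero])
  have hrel' : ∀ l ∈ S1, ∑ j ∈ S1, lam l j • (T j * T l - T l * T j) = s l • T l := by
    intro l hl
    rw [← comm_sumK, hrel l hl]
  -- traces of the relations
  have hR : ∀ l ∈ S1, ∀ j, ∑ k ∈ S1, lam l k * ((T k * T l - T l * T k) * T j).trace =
      s l * (T l * T j).trace := by
    intro l hl j
    have e := congrArg (fun M => (M * T j).trace) (hrel' l hl)
    simp only [Finset.sum_mul, Matrix.trace_sum, Matrix.smul_mul, Matrix.trace_smul,
      smul_eq_mul] at e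
    exact e
  have hN : ∀ l ∈ S1, s l = 0 → ∑ k ∈ S1, lam l k * (T k * T l).trace = 0 := by
    intro l hl hs
    have e := hrel l hl
    rw [hs, zero_smul, sub_eq_zero] at e
    set M := ∑ j ∈ S1, lam l j • T j with hM
    have e1 : (M * T l) * (M * T l) = 0 := by
      have : (M * T l) * (M * T l) = M * (T l * M) * T l := by simp only [mul_assoc]
      rw [this, ← e]
      have : M * (M * T l) * T l = M * M * (T l * T l) := by simp only [mul_assoc]
      rw [this, hsq l hl, mul_zero]
    have e2 := trace_zero_of_sq e1
    rw [hM, Finset.sum_mul, Matrix.trace_sum] at e2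
    simpa only [Matrix.smul_mul, Matrix.trace_smul, smul_eq_mul] using e2
  have hself : ∀ a : ℕ, ∀ M : Matrix (Fin 2) (Fin 2) K, ((T a * T a - T a * T a) * M).trace = 0 := by
    intro a M
    rw [sub_self, zero_mul, Matrix.trace_zero]
  have hz : ∀ a ∈ S1, ∀ b, ((T a * T b - T b * T a) * T a).trace = 0 := by
    intro a ha b
    rw [sub_mul, Matrix.trace_sub, Matrix.trace_mul_comm, ← mul_assoc, hsq a ha, zero_mul,
      mul_assoc, hsq a ha, mul_zero, Matrix.trace_zero, sub_zero]
  have hanti : ∀ a b c : ℕ, ((T a * T b - T b * T a) * T c).trace =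
      -((T a * T c - T c * T a) * T b).trace := by
    intro a b c
    rw [sub_mul, sub_mul, Matrix.trace_sub, Matrix.trace_sub]
    have e1 : (T b * T a * T c).trace = (T a * T c * T b).trace := by
      rw [mul_assoc, Matrix.trace_mul_comm]
    have e2 : (T c * T a * T b).trace = (T a * T b * T c).trace := by
      rw [mul_assoc, Matrix.trace_mul_comm]
    rw [e1, e2]
    ring
  have hsym : ∀ a b : ℕ, (T a * T b).trace = (T b * T a).trace := fun a b =>
    Matrix.trace_mul_comm _ _
  by_cases hk : ∃ k ∈ S1, k ≠ l ∧ k ≠ j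
  · -- three elements
    obtain ⟨k, hk, hkl, hkj⟩ := hk
    have hS1 : S1 = {l, j, k} := by
      symm
      apply Finset.eq_of_subset_of_card_le
      · intro i hi
        simp only [Finset.mem_insert, Finset.mem_singleton] at hi
        rcases hi with h | h | h
        · rw [h]; exact hl
        · rw [h]; exact hj
        · rw [h]; exact hk
      · rw [Finset.card_insert_of_notMem (by
          simp only [Finset.mem_insert, Finset.mem_singleton, not_or]
          exact ⟨hlj, Ne.symm hkl⟩), Finset.card_pair (Ne.symm hkj)]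
        exact hcard
    have hsum : ∀ f : ℕ → K, ∑ i ∈ S1, f i = f l + f j + f k := by
      intro f
      rw [hS1, Finset.sum_insert (by
          simp only [Finset.mem_insert, Finset.mem_singleton, not_or]
          exact ⟨hlj, Ne.symm hkl⟩), Finset.sum_pair (Ne.symm hkj)]
      ring
    set D := ((T k * T l - T l * T k) * T j).trace with hD
    -- values of the triple products
    have d1 : ((T k * T j - T j * T k) * T l).trace = -D := by rw [hanti k j l]
    have d2 : ((T j * T l - T l * T j) * T k).trace = -D := by
      have e1 : ((T j * T l - T l * T j) * T k).trace =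
          -((T j * T k - T k * T j) * T l).trace := hanti j l k
      have e2 : ((T j * T k - T k * T j) * T l).trace =
          -((T k * T j - T j * T k) * T l).trace := by
        rw [← Matrix.trace_neg, ← neg_mul, neg_sub]
      rw [e1, e2, d1]
      ring
    have d3 : ((T l * T j - T j * T l) * T k).trace = D := by
      have e2 : ((T l * T j - T j * T l) * T k).trace =
          -((T j * T l - T l * T j) * T k).trace := by
        rw [← Matrix.trace_neg, ← neg_mul, neg_sub]
      rw [e2, d2]
      ring
    have d4 : ((T j * T k - T k * T j) * T l).trace = D := by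
      have e2 : ((T j * T k - T k * T j) * T l).trace =
          -((T k * T j - T j * T k) * T l).trace := by
        rw [← Matrix.trace_neg, ← neg_mul, neg_sub]
      rw [e2, d1]
      ring
    have d5 : ((T l * T k - T k * T l) * T j).trace = -D := by
      have e2 : ((T l * T k - T k * T l) * T j).trace =
          -((T k * T l - T l * T k) * T j).trace := by
        rw [← Matrix.trace_neg, ← neg_mul, neg_sub]
      rw [e2, hD]
    have rlj : lam l k * D = s l * (T l * T j).trace := by
      have e := hR l hl j
      rw [hsum, hself, hz j hj l] at e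
      linear_combination e
    have rjl : -(lam j k * D) = s j * (T l * T j).trace := by
      have e := hR j hj l
      rw [hsum, hself, hz l hl j, d1, hsym j l] at e
      linear_combination e
    have rlk : -(lam l j * D) = s l * (T l * T k).trace := by
      have e := hR l hl k
      rw [hsum, hself, hz k hk l, d2] at e
      linear_combination e
    have rkl : lam k j * D = s k * (T l * T k).trace := by
      have e := hR k hk l
      rw [hsum, hself, hz l hl k, d4, hsym k l] at e
      linear_combination e
    have rjk : lam j l * D = s j * (T j * T k).trace := by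
      have e := hR j hj k
      rw [hsum, hself, hz k hk j, d3] at e
      linear_combination e
    have rkj : -(lam k l * D) = s k * (T j * T k).trace := by
      have e := hR k hk j
      rw [hsum, hself, hz j hj k, d5, hsym k j] at e
      linear_combination e
    by_cases hD0 : D = 0
    · -- dependent
      have sl : s l = 0 := by
        rw [hD0, mul_zero] at rlj
        exact (mul_eq_zero.1 rlj.symm).resolve_right hg
      have sj : s j = 0 := by
        rw [hD0, mul_zero, neg_zero] at rjl
        exact (mul_eq_zero.1 rjl.symm).resolve_right hg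
      have nl := hN l hl sl
      have nj := hN j hj sj
      rw [hsum, hsq l hl, Matrix.trace_zero, mul_zero, zero_add, hsym j l, hsym k l] at nl
      rw [hsum, hsq j hj, Matrix.trace_zero, mul_zero, add_zero, hsym k j] at nj
      have hgr := gram (hsq l hl) (hsq j hj) (hsq k hk)
      rw [d3, hD0] at hgr
      have hprod : (T l * T k).trace * (T j * T k).trace = 0 := by
        have h4 : (-4 : K) ≠ 0 := by
          have : (-4 : K) = -(2 * 2) := by ring
          rw [this]
          exact neg_ne_zero.2 (mul_ne_zero h2 h2)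
        have e : (-4 : K) * ((T l * T j).trace * ((T l * T k).trace * (T j * T k).trace)) = 0 := by
          linear_combination -hgr
        exact ((mul_eq_zero.1 ((mul_eq_zero.1 e).resolve_left h4)).resolve_left hg)
      rcases mul_eq_zero.1 hprod with h | h
      · -- `T k` and `T l` parallel
        rw [h, mul_zero, add_zero] at nl
        have hlj0 : lam l j = 0 := (mul_eq_zero.1 nl).resolve_right hg
        have hjl0 : lam j l ≠ 0 := (hpair j hj l hl (Ne.symm hlj)).resolve_left (by
          rw [hlj0]; exact fun h => h rfl)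
        have hkj' : (T j * T k).trace ≠ 0 := by
          intro h0
          rw [h0, mul_zero, add_zero] at nj
          rcases mul_eq_zero.1 nj with h5 | h5
          · exact hjl0 h5
          · exact hg h5
        have sk : s k = 0 := by
          rw [hD0, mul_zero, neg_zero] at rkj
          exact (mul_eq_zero.1 rkj.symm).resolve_right hkj'
        have nk := hN k hk sk
        rw [hsum, hsq k hk, Matrix.trace_zero, mul_zero, add_zero, h, mul_zero, zero_add] at nk
        have hkj0 : lam k j = 0 := (mul_eq_zero.1 nk).resolve_right hkj'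
        rcases hcol l hl k hk j hj (Ne.symm hkl) hlj hkj with h5 | h5
        · exact h5 hlj0
        · exact h5 hkj0
      · rw [h, mul_zero, add_zero] at nj
        have hjl0 : lam j l = 0 := (mul_eq_zero.1 nj).resolve_right hg
        have hlj0 : lam l j ≠ 0 := (hpair l hl j hj hlj).resolve_left (by
          rw [hjl0]; exact fun h => h rfl)
        have hkl' : (T l * T k).trace ≠ 0 := by
          intro h0
          rw [h0, mul_zero, add_zero] at nl
          rcases mul_eq_zero.1 nl with h5 | h5
          · exact hlj0 h5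
          · exact hg h5
        have sk : s k = 0 := by
          rw [hD0, mul_zero] at rkl
          exact (mul_eq_zero.1 rkl.symm).resolve_right hkl'
        have nk := hN k hk sk
        rw [hsum, hsq k hk, Matrix.trace_zero, mul_zero, add_zero, h, mul_zero, add_zero] at nk
        have hkl0 : lam k l = 0 := (mul_eq_zero.1 nk).resolve_right hkl'
        rcases hcol j hj k hk l hl (Ne.symm hkj) (Ne.symm hlj) hkl with h5 | h5
        · exact h5 hjl0
        · exact h5 hkl0
    · -- independent
      have hT : ∀ a ∈ S1, T a ≠ 0 := by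
        intro a ha h0
        apply hD0
        rw [hS1] at ha
        simp only [Finset.mem_insert, Finset.mem_singleton] at ha
        rcases ha with h | h | h
        · rw [h] at h0
          rw [hD, h0]; simp
        · rw [h] at h0
          rw [hD, h0]; simp
        · rw [h] at h0
          rw [hD, h0]; simp
      have c1 : s j * lam l k + s l * lam j k = 0 := by
        have e : (s j * lam l k + s l * lam j k) * D = 0 := by
          linear_combination s j * rlj - s l * rjl
        exact (mul_eq_zero.1 e).resolve_right hD0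
      have c2 : s k * lam l j + s l * lam k j = 0 := by
        have e : (s k * lam l j + s l * lam k j) * D = 0 := by
          linear_combination s l * rkl - s k * rlk
        exact (mul_eq_zero.1 e).resolve_right hD0
      have c3 : s k * lam j l + s j * lam k l = 0 := by
        have e : (s k * lam j l + s j * lam k l) * D = 0 := by
          linear_combination s k * rjk - s j * rkj
        exact (mul_eq_zero.1 e).resolve_right hD0
      rcases hC j hj k hk l hl (Ne.symm hkj) (Ne.symm hlj) hkl (hT j hj) (hT k hk) (hT l hl)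
        with ⟨s1, s2, s3⟩ | h | h | h
      · -- all `s` vanish
        have z1 : lam l k = 0 := by
          rw [s3, zero_mul] at rlj
          exact (mul_eq_zero.1 rlj).resolve_right hD0
        have z2 : lam k l = 0 := by
          rw [s2, zero_mul, neg_eq_zero] at rkj
          exact (mul_eq_zero.1 rkj).resolve_right hD0
        rcases hpair k hk l hl hkl with h5 | h5
        · exact h5 z1
        · exact h5 z2
      · exact h (by linear_combination c3)
      · exact h (by linear_combination c1)
      · exact h (by linear_combination c2)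
  · -- two elements
    push Not at hk
    have hS1 : S1 = {l, j} := by
      ext i
      simp only [Finset.mem_insert, Finset.mem_singleton]
      constructor
      · intro hi
        by_cases h1 : i = l
        · exact Or.inl h1
        · exact Or.inr (hk i hi h1)
      · rintro (h | h)
        · rw [h]; exact hl
        · rw [h]; exact hj
    have hsum : ∀ f : ℕ → K, ∑ i ∈ S1, f i = f l + f j := by
      intro f
      rw [hS1, Finset.sum_pair hlj]
    have sl : s l = 0 := by
      have e := hR l hl j
      rw [hsum, hself, hz j hj l, mul_zero, mul_zero, add_zero] at e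
      exact (mul_eq_zero.1 e.symm).resolve_right hg
    have sj : s j = 0 := by
      have e := hR j hj l
      rw [hsum, hself, hz l hl j, mul_zero, mul_zero, add_zero, hsym j l] at e
      exact (mul_eq_zero.1 e.symm).resolve_right hg
    have nl := hN l hl sl
    have nj := hN j hj sj
    rw [hsum, hsq l hl, Matrix.trace_zero, mul_zero, zero_add, hsym j l] at nl
    rw [hsum, hsq j hj, Matrix.trace_zero, mul_zero, add_zero] at nj
    rcases hpair l hl j hj hlj with h | h
    · exact h ((mul_eq_zero.1 nj).resolve_right hg)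
    · exact h ((mul_eq_zero.1 nl).resolve_right hg)

/-- the condition on the odd levels for at most three primes -/
theorem h0_three {S1 : Finset ℕ} (hcard : S1.card ≤ 3) {lam : ℕ → ℕ → K}
    (hpair : ∀ k ∈ S1, ∀ l ∈ S1, k ≠ l → lam l k ≠ 0 ∨ lam k l ≠ 0)
    (hcol : ∀ j ∈ S1, ∀ k ∈ S1, ∀ l ∈ S1, j ≠ k → j ≠ l → k ≠ l → lam j l ≠ 0 ∨ lam k l ≠ 0)
    (x y : ℕ → K) (hxy : ∀ l ∈ S1, x l * y l = 0)
    (h1 : ∀ l ∈ S1, x l * ∑ j ∈ S1, lam l j * y j = 0)
    (h2 : ∀ l ∈ S1, y l * ∑ j ∈ S1, lam l j * x j = 0) :
    (∀ l ∈ S1, x l = 0) ∨ (∀ l ∈ S1, y l = 0) := by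
  classical
  by_contra hcon
  push Not at hcon
  obtain ⟨⟨l, hl, hxl⟩, j, hj, hyj⟩ := hcon
  have hyl : y l = 0 := (mul_eq_zero.1 (hxy l hl)).resolve_left hxl
  have hxj : x j = 0 := (mul_eq_zero.1 (hxy j hj)).resolve_right hyj
  have hlj : l ≠ j := by
    rintro rfl
    exact hxl hxj
  have e1 := (mul_eq_zero.1 (h1 l hl)).resolve_left hxl
  have e2 := (mul_eq_zero.1 (h2 j hj)).resolve_left hyj
  by_cases hk : ∃ k ∈ S1, k ≠ l ∧ k ≠ j
  · obtain ⟨k, hk, hkl, hkj⟩ := hk
    have hS1 : S1 = {l, j, k} := by
      symm
      apply Finset.eq_of_subset_of_card_le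
      · intro i hi
        simp only [Finset.mem_insert, Finset.mem_singleton] at hi
        rcases hi with h | h | h
        · rw [h]; exact hl
        · rw [h]; exact hj
        · rw [h]; exact hk
      · rw [Finset.card_insert_of_notMem (by
          simp only [Finset.mem_insert, Finset.mem_singleton, not_or]
          exact ⟨hlj, Ne.symm hkl⟩), Finset.card_pair (Ne.symm hkj)]
        exact hcard
    have hsum : ∀ f : ℕ → K, ∑ i ∈ S1, f i = f l + f j + f k := by
      intro f
      rw [hS1, Finset.sum_insert (by
          simp only [Finset.mem_insert, Finset.mem_singleton, not_or]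
          exact ⟨hlj, Ne.symm hkl⟩), Finset.sum_pair (Ne.symm hkj)]
      ring
    rw [hsum, hyl, mul_zero, zero_add] at e1
    rw [hsum, hxj, mul_zero, add_zero] at e2
    -- e1 : lam l j * y j + lam l k * y k = 0, e2 : lam j l * x l + lam j k * x k = 0
    rcases mul_eq_zero.1 (hxy k hk) with h0 | h0
    · rw [h0, mul_zero, add_zero] at e2
      have hjl0 := (mul_eq_zero.1 e2).resolve_right hxl
      by_cases hyk : y k = 0
      · rw [hyk, mul_zero, add_zero] at e1
        have hlj0 := (mul_eq_zero.1 e1).resolve_right hyj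
        rcases hpair l hl j hj hlj with h | h
        · exact h hjl0
        · exact h hlj0
      · have e3 := (mul_eq_zero.1 (h2 k hk)).resolve_left hyk
        rw [hsum, hxj, h0, mul_zero, mul_zero, add_zero, add_zero] at e3
        have hkl0 := (mul_eq_zero.1 e3).resolve_right hxl
        rcases hcol j hj k hk l hl (Ne.symm hkj) (Ne.symm hlj) hkl with h | h
        · exact h hjl0
        · exact h hkl0
    · rw [h0, mul_zero, add_zero] at e1
      have hlj0 := (mul_eq_zero.1 e1).resolve_right hyj
      by_cases hxk : x k = 0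
      · rw [hxk, mul_zero, add_zero] at e2
        have hjl0 := (mul_eq_zero.1 e2).resolve_right hxl
        rcases hpair l hl j hj hlj with h | h
        · exact h hjl0
        · exact h hlj0
      · have e3 := (mul_eq_zero.1 (h1 k hk)).resolve_left hxk
        rw [hsum, hyl, h0, mul_zero, mul_zero, add_zero, zero_add] at e3
        have hkj0 := (mul_eq_zero.1 e3).resolve_right hyj
        rcases hcol l hl k hk j hj (Ne.symm hkl) hlj hkj with h | h
        · exact h hlj0
        · exact h hkj0
  · push Not at hk
    have hS1 : S1 = {l, j} := by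
      ext i
      simp only [Finset.mem_insert, Finset.mem_singleton]
      constructor
      · intro hi
        by_cases h1 : i = l
        · exact Or.inl h1
        · exact Or.inr (hk i hi h1)
      · rintro (h | h)
        · rw [h]; exact hl
        · rw [h]; exact hj
    rw [hS1, Finset.sum_pair hlj, hyl, mul_zero, zero_add] at e1
    rw [hS1, Finset.sum_pair hlj, hxj, mul_zero, add_zero] at e2
    rcases hpair l hl j hj hlj with h | h
    · exact h ((mul_eq_zero.1 e2).resolve_right hxl)
    · exact h ((mul_eq_zero.1 e1).resolve_right hyj)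

end

end Pool.Agent.TH831.OE
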