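import Pool.Agent.TH831.OE.Ord
import Pool.Agent.TH831.OE.Three
import Pool.Agent.TH831.OT.Few

/-!
# The conditions on the levels, ordinary case
-/

set_option autoImplicit false

namespace Pool.Agent.TH831.OE

open NumberField Matrix Pool.Agent.W569.FM Pool.Agent.W134.FM Pool.Agent.TH831.OT

section
variable {κ : Type} [Field κ]

theorem h0_coreK {S1 : Finset ℕ} {u : ℕ → κ} {lam : ℕ → ℕ → κ} {b : ℕ → κ}
    (hcard : S1.card ≤ 2) (hu : ∀ l ∈ S1, u l ≠ 0)
    (hpow : ∀ l ∈ S1, ∀ k ∈ S1, k ≠ l → b l ≠ 0 ∨ lam k l ≠ 0)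
    (xp yp : κ) (x y : ℕ → κ) (h1 : ∀ l ∈ S1, x l * y l = 0)
    (h2 : ∀ l ∈ S1, x l * (u l * yp + ∑ j ∈ S1, lam l j * y j) = 0)
    (h3 : ∀ l ∈ S1, y l * (u l * xp + ∑ j ∈ S1, lam l j * x j) = 0)
    (h4 : xp = 0) (h5 : ∑ j ∈ S1, b j * x j = 0) :
    (xp = 0 ∧ ∀ l ∈ S1, x l = 0) ∨ (yp = 0 ∧ ∀ l ∈ S1, y l = 0) := by
  classical
  by_cases hx : ∀ l ∈ S1, x l = 0
  · exact Or.inl ⟨h4, hx⟩
  right
  push Not at hx
  obtain ⟨k, hk, hxk⟩ := hx
  have hyk : y k = 0 := (mul_eq_zero.1 (h1 k hk)).resolve_left hxk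
  have h6 := (mul_eq_zero.1 (h2 k hk)).resolve_left hxk
  -- the rest of `S1`
  have hyl : ∀ l ∈ S1, y l = 0 := by
    intro l hl
    by_cases hlk : l = k
    · rw [hlk, hyk]
    have hS1 : S1 = {k, l} := by
      symm
      apply Finset.eq_of_subset_of_card_le
      · intro j hj
        rcases Finset.mem_insert.1 hj with h | h
        · rw [h]; exact hk
        · rw [Finset.mem_singleton.1 h]; exact hl
      · rw [Finset.card_pair (Ne.symm hlk)]
        exact hcard
    by_contra hy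
    have hxl : x l = 0 := (mul_eq_zero.1 (h1 l hl)).resolve_right hy
    have h7 := (mul_eq_zero.1 (h3 l hl)).resolve_left hy
    rw [hS1, Finset.sum_pair (Ne.symm hlk), h4, hxl] at h7
    rw [hS1, Finset.sum_pair (Ne.symm hlk), hxl] at h5
    have h8 : lam l k = 0 := by
      have : lam l k * x k = 0 := by linear_combination h7
      exact (mul_eq_zero.1 this).resolve_right hxk
    have h9 : b k = 0 := by
      have : b k * x k = 0 := by linear_combination h5
      exact (mul_eq_zero.1 this).resolve_right hxk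
    rcases hpow k hk l hl hlk with h | h
    · exact h h9
    · exact h h8
  refine ⟨?_, hyl⟩
  rw [Finset.sum_eq_zero (fun j hj => by rw [hyl j hj, mul_zero]), add_zero] at h6
  exact (mul_eq_zero.1 h6).resolve_left (hu k hk)

theorem h0_fewK {S1 : Finset ℕ} {u : ℕ → κ} {lam : ℕ → ℕ → κ} {b : ℕ → κ}
    (hcard : S1.card ≤ 2) (hu : ∀ l ∈ S1, u l ≠ 0)
    (hpow : ∀ l ∈ S1, ∀ k ∈ S1, k ≠ l → b l ≠ 0 ∨ lam k l ≠ 0) : H0 S1 u lam b False := by
  intro xp yp x y _ h1 h2 h3 h4
  rcases h4 with ⟨h4, h5⟩ | ⟨h4, h5⟩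
  · exact h0_coreK hcard hu hpow xp yp x y h1 h2 h3 h4 h5
  · exact (h0_coreK hcard hu hpow yp xp y x (fun l hl => by rw [mul_comm]; exact h1 l hl) h3 h2
      h4 h5).symm

/-- the condition on the even levels -/
def NTo (S1 : Finset ℕ) (u : ℕ → κ) (lam : ℕ → ℕ → κ) (b : ℕ → κ) (ε : κ) : Prop :=
  ∀ (C : Matrix (Fin 2) (Fin 2) κ) (T : ℕ → Matrix (Fin 2) (Fin 2) κ),
    C.trace = 0 → (∀ l ∈ S1, T l * T l = 0) →
    (∀ l ∈ S1, (u l • C + ∑ j ∈ S1, lam l j • T j) * T l -
        T l * (u l • C + ∑ j ∈ S1, lam l j • T j) = (ε * u l) • T l) →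
    (∃ v : Fin 2 → κ, v ≠ 0 ∧ wed (C *ᵥ v) v = 0 ∧
      wed ((∑ j ∈ S1, b j • T j) *ᵥ v) v = 0) →
    ∃ w : Fin 2 → κ, w ≠ 0 ∧ wed (C *ᵥ w) w = 0 ∧ ∀ l ∈ S1, T l *ᵥ w = 0

end

section
variable {O κ : Type} [CommRing O] [IsDomain O] [Field κ] {B : Bas O κ}

theorem h1_ord {p : ℕ} (hpκ : ∀ n : ℕ, (n : κ) = 0 ↔ p ∣ n) {S1 : Finset ℕ}
    (hS1 : ∀ l ∈ S1, l.Prime ∧ p ∣ l - 1 ∧ ¬ p ^ 2 ∣ l - 1) {lam : ℕ → ℕ → κ} {b : ℕ → κ}
    {e : ℕ} {c : O} (hc : (p : O) = B.π ^ e * c) (hqc : B.q c ≠ 0)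
    (h1 : NTo S1 (fun l => (((l - 1) / p : ℕ) : κ)) lam b 1)
    (h0 : e ≠ 1 → NTo S1 (fun l => (((l - 1) / p : ℕ) : κ)) lam b 0) {k : ℕ} (hk : 1 ≤ k) :
    H1 B S1 (fun l => (((l - 1) / p : ℕ) : κ)) lam b False k := by
  intro C T _ hCt hsq hz hrel hv
  have hval : ∀ l ∈ S1, (l : O) - 1 = B.π ^ e * (c * (((l - 1) / p : ℕ) : O)) ∧
      B.q (c * (((l - 1) / p : ℕ) : O)) ≠ 0 := by
    intro l hl
    obtain ⟨hl0, hl1, hl2⟩ := hS1 l hl
    constructor
    · have hl' : l = 1 + p * ((l - 1) / p) := by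
        rw [Nat.mul_div_cancel' hl1]
        have := hl0.one_le
        omega
      conv_lhs => rw [hl']
      push_cast
      rw [hc]
      ring
    · rw [map_mul, map_natCast]
      refine mul_ne_zero hqc ?_
      rw [Ne, hpκ]
      intro h
      apply hl2
      rw [pow_two, ← Nat.mul_div_cancel' hl1]
      exact Nat.mul_dvd_mul_left p h
  rcases lt_trichotomy k e with h | h | h
  · -- small levels
    refine h0 (by omega) C T hCt hsq (fun l hl => ?_) hv
    obtain ⟨t, rfl⟩ := Nat.exists_eq_add_of_lt h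
    have e1 := hrel l hl (B.π ^ (t + 1) * (c * (((l - 1) / p : ℕ) : O))) (by
      rw [(hval l hl).1]; ring)
    rw [e1, map_mul, map_pow, q_pi, zero_pow (Nat.succ_ne_zero t), zero_mul, zero_mul]
  · -- the level of `p`
    subst h
    obtain ⟨w, hw0, hwC, hwT⟩ := h1 ((B.q c)⁻¹ • C) (fun l => (B.q c)⁻¹ • T l)
      (by rw [Matrix.trace_smul, hCt, smul_zero])
      (fun l hl => by
        rw [Matrix.smul_mul, Matrix.mul_smul, hsq l hl, smul_zero, smul_zero])
      (fun l hl => by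
        have e1 := hrel l hl _ (hval l hl).1
        rw [map_mul, map_natCast] at e1
        have e4 : (((l - 1) / p : ℕ) : κ) • ((B.q c)⁻¹ • C) +
            (∑ j ∈ S1, lam l j • ((B.q c)⁻¹ • T j)) =
            (B.q c)⁻¹ • ((((l - 1) / p : ℕ) : κ) • C + ∑ j ∈ S1, lam l j • T j) := by
          rw [smul_add, Finset.smul_sum, smul_comm]
          congr 1
          exact Finset.sum_congr rfl fun j _ => smul_comm _ _ _
        rw [e4, Matrix.smul_mul, Matrix.mul_smul, Matrix.smul_mul, Matrix.mul_smul, ← smul_sub,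
          ← smul_sub, e1, smul_smul, smul_smul, smul_smul]
        congr 1
        field_simp)
      (by
        obtain ⟨v, hv0, hv1, hv2⟩ := hv
        refine ⟨v, hv0, ?_, ?_⟩
        · rw [Matrix.smul_mulVec, wed_smul_left, hv1, mul_zero]
        · have e4 : (∑ j ∈ S1, b j • ((B.q c)⁻¹ • T j)) =
            (B.q c)⁻¹ • (∑ j ∈ S1, b j • T j) := by
            rw [Finset.smul_sum]
            exact Finset.sum_congr rfl fun j _ => smul_comm _ _ _
          rw [e4, Matrix.smul_mulVec, wed_smul_left, hv2, mul_zero])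
    have hd : (B.q c)⁻¹ ≠ 0 := inv_ne_zero hqc
    refine ⟨w, hw0, ?_, fun l hl => ?_⟩
    · rw [Matrix.smul_mulVec, wed_smul_left] at hwC
      exact (mul_eq_zero.1 hwC).resolve_left hd
    · have e1 := hwT l hl
      rw [Matrix.smul_mulVec] at e1
      exact (smul_eq_zero.1 e1).resolve_left hd
  · -- large levels
    obtain ⟨v, hv0, hv1, -⟩ := hv
    refine ⟨v, hv0, hv1, fun l hl => ?_⟩
    rw [hz l hl ?_, Matrix.zero_mulVec]
    rintro ⟨x, hx⟩
    obtain ⟨e1, e2⟩ := hval l hl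
    exact two_lvl (hx.symm.trans e1) e2 h

end

section
variable {K : Type} [Field K]

theorem triangle0 {s s' c11 c12 c21 c22 α β uk ul lkl llk bk bl : K} (hs : s ≠ 0) (hs' : s' ≠ 0)
    (huk : uk ≠ 0)
    (h1 : uk • (!![c11, c12; c21, c22] * !![0, s; 0, 0] - !![0, s; 0, 0] * !![c11, c12; c21, c22])
      + lkl • ((!![0, 0; s', 0] : Matrix (Fin 2) (Fin 2) K) * !![0, s; 0, 0] -
        !![0, s; 0, 0] * !![0, 0; s', 0]) = 0)
    (h2 : ul • (!![c11, c12; c21, c22] * !![0, 0; s', 0] - !![0, 0; s', 0] * !![c11, c12; c21, c22])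
      + llk • ((!![0, s; 0, 0] : Matrix (Fin 2) (Fin 2) K) * !![0, 0; s', 0] -
        !![0, 0; s', 0] * !![0, s; 0, 0]) = 0)
    (hv : α ≠ 0 ∨ β ≠ 0)
    (hvC : (c11 - c22) * α * β + c12 * β ^ 2 - c21 * α ^ 2 = 0)
    (hvT : bk * s * β ^ 2 - bl * s' * α ^ 2 = 0) :
    uk * llk * bl = ul * lkl * bk := by
  have e00 := congrFun (congrFun h1 0) 0
  have e01 := congrFun (congrFun h1 0) 1
  have f00 := congrFun (congrFun h2 0) 0
  simp [Matrix.mul_apply, Fin.sum_univ_two] at e00 e01 f00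
  have g1 : uk * c21 = - (lkl * s') := by
    apply mul_right_cancel₀ hs
    linear_combination -e00
  have g2 : c11 = c22 := by
    rcases e01 with h | h
    · exact absurd h huk
    · have h3 : s * (c11 - c22) = 0 := by linear_combination h
      exact sub_eq_zero.1 ((mul_eq_zero.1 h3).resolve_left hs)
  have g3 : ul * c12 = - (llk * s) := by
    apply mul_right_cancel₀ hs'
    linear_combination f00
  rw [g2, sub_self, zero_mul, zero_mul, zero_add] at hvC
  have g4 : uk * llk * (s * β ^ 2) = ul * lkl * (s' * α ^ 2) := by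
    linear_combination -(uk * ul) * hvC + uk * β ^ 2 * g3 - ul * α ^ 2 * g1
  by_cases hβ : β = 0
  · have hα : α ≠ 0 := hv.resolve_right (fun h => h hβ)
    have h3 : s' * α ^ 2 ≠ 0 := mul_ne_zero hs' (pow_ne_zero 2 hα)
    apply mul_right_cancel₀ h3
    linear_combination -(uk * llk) * hvT + bk * g4
  · have h3 : s * β ^ 2 ≠ 0 := mul_ne_zero hs (pow_ne_zero 2 hβ)
    apply mul_right_cancel₀ h3
    linear_combination -(ul * lkl) * hvT + bl * g4

/-- the triangle argument -/
theorem triangle {X Y C : Matrix (Fin 2) (Fin 2) K} {w w' v : Fin 2 → K}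
    (hX : X *ᵥ w = 0) (hY : Y *ᵥ w' = 0) (hind : wed w w' ≠ 0) (hX0 : X * X = 0) (hY0 : Y * Y = 0)
    (hXn : X ≠ 0) (hYn : Y ≠ 0)
    {uk ul lkl llk bk bl : K} (huk : uk ≠ 0)
    (h1 : uk • (C * X - X * C) + lkl • (Y * X - X * Y) = 0)
    (h2 : ul • (C * Y - Y * C) + llk • (X * Y - Y * X) = 0) (hv : v ≠ 0)
    (hvC : wed (C *ᵥ v) v = 0) (hvT : wed ((bk • X + bl • Y) *ᵥ v) v = 0) :
    uk * llk * bl = ul * lkl * bk := by
  set P : Matrix (Fin 2) (Fin 2) K := !![w 0, w' 0; w 1, w' 1] with hP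
  have hdet : P.det = wed w w' := by
    rw [hP, Matrix.det_fin_two_of, wed]
    ring
  have hd0 : P.det ≠ 0 := by rw [hdet]; exact hind
  have hPw : P *ᵥ ![1, 0] = w := by
    funext i
    fin_cases i <;> simp [hP, Matrix.mulVec, dotProduct, Fin.sum_univ_two]
  have hPw' : P *ᵥ ![0, 1] = w' := by
    funext i
    fin_cases i <;> simp [hP, Matrix.mulVec, dotProduct, Fin.sum_univ_two]
  have hcol0 : ∀ M : Matrix (Fin 2) (Fin 2) K, M *ᵥ ![1, 0] = fun i => M i 0 := by
    intro M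
    funext i
    simp [Matrix.mulVec, dotProduct, Fin.sum_univ_two]
  have hcol1 : ∀ M : Matrix (Fin 2) (Fin 2) K, M *ᵥ ![0, 1] = fun i => M i 1 := by
    intro M
    funext i
    simp [Matrix.mulVec, dotProduct, Fin.sum_univ_two]
  have hconj : ∀ M N : Matrix (Fin 2) (Fin 2) K, (P.adjugate * M * P) * (P.adjugate * N * P) =
      P.det • (P.adjugate * (M * N) * P) := by
    intro M N
    have e : (P.adjugate * M * P) * (P.adjugate * N * P) =
        P.adjugate * M * (P * P.adjugate) * N * P := by simp only [mul_assoc]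
    rw [e, Matrix.mul_adjugate]
    simp only [Matrix.mul_smul, Matrix.smul_mul, mul_one, mul_assoc]
  have hne : ∀ M : Matrix (Fin 2) (Fin 2) K, M ≠ 0 → P.adjugate * M * P ≠ 0 := by
    intro M hM h
    apply hM
    have e : P * (P.adjugate * M * P) * P.adjugate = (P * P.adjugate) * M * (P * P.adjugate) := by
      simp only [mul_assoc]
    rw [h, mul_zero, zero_mul, Matrix.mul_adjugate, Matrix.smul_mul, Matrix.smul_mul, one_mul,
      Matrix.mul_smul, mul_one] at e
    exact (smul_eq_zero.1 ((smul_eq_zero.1 e.symm).resolve_left hd0)).resolve_left hd0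
  set X' := P.adjugate * X * P with hX'
  set Y' := P.adjugate * Y * P with hY'
  set C' := P.adjugate * C * P with hC'
  have hX'0 : X' * X' = 0 := by rw [hX', hconj, hX0, mul_zero, zero_mul, smul_zero]
  have hY'0 : Y' * Y' = 0 := by rw [hY', hconj, hY0, mul_zero, zero_mul, smul_zero]
  have x0 : ∀ i, X' i 0 = 0 := by
    intro i
    have e := congrFun (hcol0 X') i
    rw [← e, hX', ← Matrix.mulVec_mulVec, ← Matrix.mulVec_mulVec, hPw, hX, Matrix.mulVec_zero]
    rfl
  have y1 : ∀ i, Y' i 1 = 0 := by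
    intro i
    have e := congrFun (hcol1 Y') i
    rw [← e, hY', ← Matrix.mulVec_mulVec, ← Matrix.mulVec_mulVec, hPw', hY, Matrix.mulVec_zero]
    rfl
  have x11 : X' 1 1 = 0 := by
    have e := congrFun (congrFun hX'0 1) 1
    rw [Matrix.mul_apply, Fin.sum_univ_two, x0, zero_mul, zero_add, Matrix.zero_apply] at e
    exact mul_self_eq_zero.1 e
  have y00 : Y' 0 0 = 0 := by
    have e := congrFun (congrFun hY'0 0) 0
    rw [Matrix.mul_apply, Fin.sum_univ_two, y1, zero_mul, add_zero, Matrix.zero_apply] at e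
    exact mul_self_eq_zero.1 e
  have eX : X' = !![0, X' 0 1; 0, 0] := by
    conv_lhs => rw [Matrix.eta_fin_two X', x0, x0, x11]
  have eY : Y' = !![0, 0; Y' 1 0, 0] := by
    conv_lhs => rw [Matrix.eta_fin_two Y', y1, y1, y00]
  have eC : C' = !![C' 0 0, C' 0 1; C' 1 0, C' 1 1] := Matrix.eta_fin_two C'
  have hs : X' 0 1 ≠ 0 := by
    intro h
    apply hne X hXn
    rw [← hX', eX, h]
    ext i j
    fin_cases i <;> fin_cases j <;> rfl
  have hs' : Y' 1 0 ≠ 0 := by
    intro h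
    apply hne Y hYn
    rw [← hY', eY, h]
    ext i j
    fin_cases i <;> fin_cases j <;> rfl
  have r1 : uk • (C' * X' - X' * C') + lkl • (Y' * X' - X' * Y') = 0 := by
    have e : uk • (C' * X' - X' * C') + lkl • (Y' * X' - X' * Y') =
        P.det • (P.adjugate * (uk • (C * X - X * C) + lkl • (Y * X - X * Y)) * P) := by
      rw [hC', hX', hY', hconj, hconj, hconj, hconj]
      simp only [mul_add, add_mul, mul_sub, sub_mul, smul_add, smul_sub, Matrix.mul_smul,
        Matrix.smul_mul, smul_smul, mul_comm P.det]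
    rw [e, h1, mul_zero, zero_mul, smul_zero]
  have r2 : ul • (C' * Y' - Y' * C') + llk • (X' * Y' - Y' * X') = 0 := by
    have e : ul • (C' * Y' - Y' * C') + llk • (X' * Y' - Y' * X') =
        P.det • (P.adjugate * (ul • (C * Y - Y * C) + llk • (X * Y - Y * X)) * P) := by
      rw [hC', hX', hY', hconj, hconj, hconj, hconj]
      simp only [mul_add, add_mul, mul_sub, sub_mul, smul_add, smul_sub, Matrix.mul_smul,
        Matrix.smul_mul, smul_smul, mul_comm P.det]
    rw [e, h2, mul_zero, zero_mul, smul_zero]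
  set v' := P.adjugate *ᵥ v with hv'
  have hv'0 : v' ≠ 0 := by
    intro h
    apply hv
    have e : P *ᵥ (P.adjugate *ᵥ v) = P.det • v := by
      rw [Matrix.mulVec_mulVec, Matrix.mul_adjugate, Matrix.smul_mulVec, Matrix.one_mulVec]
    rw [← hv', h, Matrix.mulVec_zero] at e
    exact (smul_eq_zero.1 e.symm).resolve_left hd0
  have hwed : ∀ M : Matrix (Fin 2) (Fin 2) K, wed (M *ᵥ v) v = 0 →
      wed ((P.adjugate * M * P) *ᵥ v') v' = 0 := by
    intro M hM
    have e : (P.adjugate * M * P) *ᵥ v' = P.adjugate *ᵥ (P.det • (M *ᵥ v)) := by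
      rw [hv', Matrix.mulVec_mulVec, mul_assoc (P.adjugate * M), Matrix.mul_adjugate,
        Matrix.mul_smul, mul_one, Matrix.smul_mulVec, ← Matrix.mulVec_mulVec, Matrix.mulVec_smul]
    rw [e, hv', wed_mulVec, wed_smul_left, hM, mul_zero, mul_zero]
  have hvC' : wed (C' *ᵥ v') v' = 0 := hwed C hvC
  have hvT' : wed ((bk • X' + bl • Y') *ᵥ v') v' = 0 := by
    have e : bk • X' + bl • Y' = P.adjugate * (bk • X + bl • Y) * P := by
      rw [hX', hY']
      simp only [mul_add, add_mul, Matrix.mul_smul, Matrix.smul_mul]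
    rw [e]
    exact hwed _ hvT
  rw [eX, eY, eC] at r1 r2
  refine triangle0 (α := v' 0) (β := v' 1) hs hs' huk r1 r2 ?_ ?_ ?_
  · by_contra hcon
    push Not at hcon
    apply hv'0
    funext i
    fin_cases i
    · exact hcon.1
    · exact hcon.2
  · simp only [wed, Matrix.mulVec, dotProduct, Fin.sum_univ_two] at hvC'
    linear_combination hvC'
  · rw [eX, eY] at hvT'
    simp [wed, Matrix.mulVec, dotProduct, Fin.sum_univ_two] at hvT'
    linear_combination hvT'

theorem nto_few {S1 : Finset ℕ} {u : ℕ → K} {lam : ℕ → ℕ → K} {b : ℕ → K} {ε : K}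
    (h2 : (2 : K) ≠ 0) (hcard : S1.card ≤ 2) (hu : ∀ l ∈ S1, u l ≠ 0)
    (hD : ε ≠ 0 ∨ ∀ k ∈ S1, ∀ l ∈ S1, k ≠ l → u k * lam l k * b l ≠ u l * lam k l * b k) :
    NTo S1 u lam b ε := by
  classical
  intro C T _ hsq hrel hv
  by_cases hT : ∀ l ∈ S1, T l = 0
  · obtain ⟨v, hv0, hv1, -⟩ := hv
    exact ⟨v, hv0, hv1, fun l hl => by rw [hT l hl, Matrix.zero_mulVec]⟩
  push Not at hT
  obtain ⟨k, hk, hTk⟩ := hT
  have hrel' : ∀ l ∈ S1, u l • (C * T l - T l * C) +
      ∑ j ∈ S1, lam l j • (T j * T l - T l * T j) = (ε * u l) • T l := by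
    intro l hl
    rw [← comm_sumK, ← hrel l hl]
    simp only [add_mul, mul_add, Matrix.smul_mul, Matrix.mul_smul, smul_sub]
    abel
  obtain ⟨w, hw0, hTkw, hker, hw'⟩ := nil_kernel (hsq k hk) hTk
  have hall : ∀ l ∈ S1, T l *ᵥ w = 0 := by
    intro l hl
    by_cases hlk : l = k
    · rw [hlk]; exact hTkw
    have hS1 : S1 = {k, l} := by
      symm
      apply Finset.eq_of_subset_of_card_le
      · intro j hj
        rcases Finset.mem_insert.1 hj with h | h
        · rw [h]; exact hk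
        · rw [Finset.mem_singleton.1 h]; exact hl
      · rw [Finset.card_pair (Ne.symm hlk)]
        exact hcard
    apply hw' _ (hsq l hl)
    have r1 := hrel' k hk
    have r2 := hrel' l hl
    rw [hS1, Finset.sum_pair (Ne.symm hlk), sub_self, smul_zero, zero_add] at r1
    rw [hS1, Finset.sum_pair (Ne.symm hlk), sub_self, smul_zero, add_zero] at r2
    by_cases hε : ε = 0
    · -- the triangle argument
      by_cases hTl : T l = 0
      · rw [hTl, mul_zero, Matrix.trace_zero]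
      obtain ⟨w', hw'0, hTlw', hker', hww'⟩ := nil_kernel (hsq l hl) hTl
      by_cases hwed : wed w w' = 0
      · -- the same kernel
        obtain ⟨c, hc⟩ := eig_of_wed hw'0 hwed
        have h3 : T l *ᵥ w = 0 := by rw [hc, Matrix.mulVec_smul, hTlw', smul_zero]
        exact trace_mul_zero hw0 (by rw [hTkw]; simp [wed]) h3
          (trace_zero_of_sq (hsq k hk)) (trace_zero_of_sq (hsq l hl))
      · exfalso
        obtain ⟨v, hv0, hv1, hv2⟩ := hv
        rw [hS1, Finset.sum_pair (Ne.symm hlk)] at hv2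
        rw [hε, zero_mul, zero_smul] at r1 r2
        rcases hD with h | h
        · exact h hε
        · exact h k hk l hl (Ne.symm hlk)
            (triangle hTkw hTlw' hwed (hsq k hk) (hsq l hl) hTk hTl (hu k hk) r1 r2 hv0 hv1 hv2)
    have t1 := congrArg (fun M => (M * T l).trace) r1
    have t2 := congrArg (fun M => (M * T k).trace) r2
    simp only [add_mul, sub_mul, Matrix.smul_mul, Matrix.trace_add, Matrix.trace_sub,
      Matrix.trace_smul, smul_eq_mul, mul_sub] at t1 t2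
    -- cyclic identities
    have c1 : (T l * T k * T l).trace = 0 := by
      rw [Matrix.trace_mul_comm, ← mul_assoc, hsq l hl, zero_mul, Matrix.trace_zero]
    have c2 : (T k * T l * T l).trace = 0 := by
      rw [mul_assoc, hsq l hl, mul_zero, Matrix.trace_zero]
    have c3 : (T k * T l * T k).trace = 0 := by
      rw [Matrix.trace_mul_comm, ← mul_assoc, hsq k hk, zero_mul, Matrix.trace_zero]
    have c4 : (T l * T k * T k).trace = 0 := by
      rw [mul_assoc, hsq k hk, mul_zero, Matrix.trace_zero]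
    have c5 : (T k * C * T l).trace = (C * T l * T k).trace := by
      rw [mul_assoc, Matrix.trace_mul_comm]
    have c6 : (T l * C * T k).trace = (C * T k * T l).trace := by
      rw [mul_assoc, Matrix.trace_mul_comm]
    have c7 : (T l * T k).trace = (T k * T l).trace := Matrix.trace_mul_comm _ _
    rw [c1, c2, c5] at t1
    rw [c3, c4, c6, c7] at t2
    have t1' : (C * T k * T l).trace - (C * T l * T k).trace = ε * (T k * T l).trace := by
      apply mul_left_cancel₀ (hu k hk)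
      linear_combination t1
    have t2' : (C * T l * T k).trace - (C * T k * T l).trace = ε * (T k * T l).trace := by
      apply mul_left_cancel₀ (hu l hl)
      linear_combination t2
    have t3 : 2 * ε * (T k * T l).trace = 0 := by linear_combination -t1' - t2'
    exact (mul_eq_zero.1 t3).resolve_left (mul_ne_zero h2 hε)
  by_cases hε : ε = 0
  · refine ⟨w, hw0, ?_, hall⟩
    apply hker
    have h1 := congrArg (fun M => M *ᵥ w) (hrel' k hk)
    have h2 : (∑ j ∈ S1, lam k j • (T j * T k - T k * T j)) *ᵥ w = 0 := by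
      rw [Matrix.sum_mulVec]
      refine Finset.sum_eq_zero fun j hj => ?_
      rw [Matrix.smul_mulVec, Matrix.sub_mulVec, ← Matrix.mulVec_mulVec, ← Matrix.mulVec_mulVec,
        hTkw, hall j hj, Matrix.mulVec_zero, Matrix.mulVec_zero, sub_zero, smul_zero]
    simp only [Matrix.add_mulVec, h2, add_zero, Matrix.smul_mulVec, Matrix.sub_mulVec, hTkw,
      smul_zero] at h1
    rw [← Matrix.mulVec_mulVec, ← Matrix.mulVec_mulVec, hTkw, Matrix.mulVec_zero, zero_sub] at h1
    have h3 := (smul_eq_zero.1 h1).resolve_left (hu k hk)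
    exact neg_eq_zero.1 h3
  refine ⟨w, hw0, ?_, hall⟩
  apply hker
  have h1 := congrArg (fun M => M *ᵥ w) (hrel' k hk)
  have h2 : (∑ j ∈ S1, lam k j • (T j * T k - T k * T j)) *ᵥ w = 0 := by
    rw [Matrix.sum_mulVec]
    refine Finset.sum_eq_zero fun j hj => ?_
    rw [Matrix.smul_mulVec, Matrix.sub_mulVec, ← Matrix.mulVec_mulVec, ← Matrix.mulVec_mulVec,
      hTkw, hall j hj, Matrix.mulVec_zero, Matrix.mulVec_zero, sub_zero, smul_zero]
  simp only [Matrix.add_mulVec, h2, add_zero, Matrix.smul_mulVec, Matrix.sub_mulVec, hTkw,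
    smul_zero] at h1
  rw [← Matrix.mulVec_mulVec, ← Matrix.mulVec_mulVec, hTkw, Matrix.mulVec_zero, zero_sub] at h1
  have h3 := (smul_eq_zero.1 h1).resolve_left (hu k hk)
  exact neg_eq_zero.1 h3

end

end Pool.Agent.TH831.OE
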