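import Pool.Agent.TH831.OE.Base

/-!
# The steps: improving the level
-/

set_option autoImplicit false

namespace Pool.Agent.TH831.OE

open Matrix Pool.Agent.TH831.OT

/-- the arithmetic input: a group `G` with the elements `γ` (inertia at `p`), `φ` (Frobenius at
`p`), `τ l` (inertia at `l`), `σ l` (Frobenius at `l`) and the characters `psi`, `chi l`; in the
tame case `tm` the element `γ` is trivial -/
structure Ar (κ : Type) [Field κ] (G : Type) [Group G] [TopologicalSpace G] (S1 : Finset ℕ)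
    (u : ℕ → κ) (lam : ℕ → ℕ → κ) (b : ℕ → κ) (Ur D : Set G) (tm : Prop) where
  psi : G → κ
  chi : ℕ → G → κ
  γ : G
  φ : G
  τ : ℕ → G
  σ : ℕ → G
  hγ : γ ∈ D
  hφ : φ ∈ D
  hu : ∀ l ∈ S1, psi (σ l) = u l
  hlam : ∀ l ∈ S1, ∀ j ∈ S1, j ≠ l → chi j (σ l) = lam l j
  hb : ∀ j ∈ S1, chi j φ = b j
  span : ∀ F : G →* Multiplicative κ, IsOpen (F.ker : Set G) → (∀ g ∈ Ur, F g = 1) →
    ∀ g, Multiplicative.toAdd (F g) = psi g * Multiplicative.toAdd (F γ) +
      ∑ l ∈ S1, chi l g * Multiplicative.toAdd (F (τ l))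
  htm : tm → γ = 1

section
variable {O κ : Type} [CommRing O] [IsDomain O] [Field κ] {B : Bas O κ}
  {G : Type} [Group G] [TopologicalSpace G]
  [IsTopologicalGroup G] {S1 : Finset ℕ} {u : ℕ → κ} {lam : ℕ → ℕ → κ} {b : ℕ → κ}
  {Ur D : Set G} {tm : Prop}

/-- the properties of the representation that are used -/
structure Good (B : Bas O κ) (A : Ar κ G S1 u lam b Ur D tm) (t : G → O)
    (ρ : G →* GL (Fin 2) O) : Prop where
  cont : Cts B ρ
  unr : ∀ g ∈ Ur, ρ g = 1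
  det : ∀ g, (mt (ρ g)).det = 1
  tr : ∀ g, (mt (ρ g)).trace = t g
  line : HasLine ρ D
  sq : ∀ l ∈ S1, (mt (ρ (A.τ l)) - 1) * (mt (ρ (A.τ l)) - 1) = 0
  rel : ∀ l ∈ S1, mt (ρ (A.σ l)) * (mt (ρ (A.τ l)) - 1) =
    (l : O) • ((mt (ρ (A.τ l)) - 1) * mt (ρ (A.σ l)))

omit [IsTopologicalGroup G] in
theorem Good.conj {A : Ar κ G S1 u lam b Ur D tm} {t : G → O} {ρ ρ' : G →* GL (Fin 2) O}
    (h : Good B A t ρ) (hr : Rel ρ ρ') : Good B A t ρ' := by
  have hr' := hr
  obtain ⟨Q, hQ, hQr⟩ := hr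
  have hcancel : ∀ A B : Matrix (Fin 2) (Fin 2) O, A * Q = B * Q → A = B := by
    intro A B hAB
    have h1 : A * Q * Q.adjugate = B * Q * Q.adjugate := by rw [hAB]
    rw [mul_assoc, mul_assoc, Matrix.mul_adjugate, Matrix.mul_smul, Matrix.mul_smul,
      Matrix.mul_one, Matrix.mul_one] at h1
    exact smul_right_injective _ hQ h1
  have hsub : ∀ g, (mt (ρ' g) - 1) * Q = Q * (mt (ρ g) - 1) := by
    intro g
    rw [sub_mul, mul_sub, hQr, one_mul, mul_one]
  refine ⟨hr'.cts h.cont, fun g hg => hr'.unr (h.unr g hg), fun g => ?_, fun g => ?_,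
    hr'.line h.line, fun l hl => ?_, fun l hl => ?_⟩
  · rw [hr'.det, h.det]
  · rw [hr'.trace, h.tr]
  · apply hcancel
    rw [mul_assoc, hsub, ← mul_assoc, hsub, mul_assoc, h.sq l hl, mul_zero, zero_mul]
  · apply hcancel
    rw [mul_assoc, hsub, ← mul_assoc, ← hQr, mul_assoc, h.rel l hl, Matrix.smul_mul, mul_assoc,
      ← hQr, ← mul_assoc, hsub, mul_assoc, Matrix.mul_smul]

omit [IsTopologicalGroup G] in
/-- the primitive local line -/
theorem Good.prim {A : Ar κ G S1 u lam b Ur D tm} {t : G → O} {ρ : G →* GL (Fin 2) O}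
    (h : Good B A t ρ) : ∃ v : Fin 2 → O, (B.q (v 0) ≠ 0 ∨ B.q (v 1) ≠ 0) ∧
      ∀ g ∈ D, wed (mt (ρ g) *ᵥ v) v = 0 := by
  obtain ⟨v, hv, hl⟩ := h.line
  obtain ⟨c, w, hc, rfl, hw⟩ := exists_primitive B v hv
  refine ⟨w, hw, fun g hg => ?_⟩
  have h1 := hl g hg
  rw [Matrix.mulVec_smul, wed_smul_left, wed_smul_right] at h1
  rcases mul_eq_zero.1 h1 with h2 | h2
  · exact absurd h2 hc
  · rcases mul_eq_zero.1 h2 with h3 | h3
    · exact absurd h3 hc
    · exact h3

/-- the condition on the odd levels -/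
def H0 (S1 : Finset ℕ) (u : ℕ → κ) (lam : ℕ → ℕ → κ) (b : ℕ → κ) (tm : Prop) : Prop :=
  ∀ (xp yp : κ) (x y : ℕ → κ), (tm → xp = 0 ∧ yp = 0) → (∀ l ∈ S1, x l * y l = 0) →
    (∀ l ∈ S1, x l * (u l * yp + ∑ j ∈ S1, lam l j * y j) = 0) →
    (∀ l ∈ S1, y l * (u l * xp + ∑ j ∈ S1, lam l j * x j) = 0) →
    ((xp = 0 ∧ ∑ j ∈ S1, b j * x j = 0) ∨ (yp = 0 ∧ ∑ j ∈ S1, b j * y j = 0)) →
    (xp = 0 ∧ ∀ l ∈ S1, x l = 0) ∨ (yp = 0 ∧ ∀ l ∈ S1, y l = 0)

omit [IsTopologicalGroup G] in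
theorem sum_congr_mul {A : Ar κ G S1 u lam b Ur D tm} {l : ℕ} (hl : l ∈ S1) (x y : ℕ → κ)
    (hxy : x l * y l = 0) :
    x l * ∑ j ∈ S1, A.chi j (A.σ l) * y j = x l * ∑ j ∈ S1, lam l j * y j := by
  rw [Finset.mul_sum, Finset.mul_sum]
  refine Finset.sum_congr rfl fun j hj => ?_
  by_cases hjl : j = l
  · subst hjl
    rw [mul_left_comm, hxy, mul_left_comm, hxy, mul_zero, mul_zero]
  · rw [A.hlam l hl j hj hjl]

/-- improving an odd level -/
theorem od_step {A : Ar κ G S1 u lam b Ur D tm} {t : G → O} (hH : H0 S1 u lam b tm)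
    {ρ : G →* GL (Fin 2) O} (hG : Good B A t ρ) {m : ℕ} (hOd : Od B m ρ) :
    ∃ ρ' : G →* GL (Fin 2) O, Rel ρ ρ' ∧ Ev B (m + 1) ρ' := by
  choose a bb c d h using hOd
  have e00 : ∀ g, mt (ρ g) 0 0 = 1 + B.π ^ (m + 1) * a g := fun g => by
    rw [h g]; simp; ring
  have e01 : ∀ g, mt (ρ g) 0 1 = B.π ^ m * bb g := fun g => by
    rw [h g]; simp
  have e10 : ∀ g, mt (ρ g) 1 0 = B.π ^ (m + 1) * c g := fun g => by
    rw [h g]; simp; ring
  have e11 : ∀ g, mt (ρ g) 1 1 = 1 + B.π ^ (m + 1) * d g := fun g => by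
    rw [h g]; simp; ring
  -- the two homomorphisms
  obtain ⟨Fb, hFb1, hFb2, hFb3⟩ := exists_hom ρ hG.cont bb (fun g g' => by
    refine ⟨B.π ^ m * (a g * bb g' + bb g * d g'), ?_⟩
    apply dvd_cancel (B := B) (k := m)
    have e := congrFun (congrFun (mt_mul ρ g g') 0) 1
    rw [Matrix.mul_apply, Fin.sum_univ_two, e00, e01, e01, e01, e11] at e
    linear_combination e) (m + 2) (fun g ⟨α, hα⟩ => by
    refine ⟨B.π * α 0 1, ?_⟩
    apply dvd_cancel (B := B) (k := m)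
    rw [← e01, hα]
    simp
    ring)
  obtain ⟨Fc, hFc1, hFc2, hFc3⟩ := exists_hom ρ hG.cont c (fun g g' => by
    refine ⟨B.π ^ m * (c g * a g' + d g * c g'), ?_⟩
    apply dvd_cancel (B := B) (k := m + 1)
    have e := congrFun (congrFun (mt_mul ρ g g') 1) 0
    rw [Matrix.mul_apply, Fin.sum_univ_two, e00, e10, e10, e10, e11] at e
    linear_combination e) (m + 2) (fun g ⟨α, hα⟩ => by
    refine ⟨α 1 0, ?_⟩
    apply dvd_cancel (B := B) (k := m + 1)
    rw [← e10, hα]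
    simp
    ring)
  have hsb := A.span Fb hFb1 fun g hg => hFb3 g (hG.unr g hg)
  have hsc := A.span Fc hFc1 fun g hg => hFc3 g (hG.unr g hg)
  simp only [hFb2, toAdd_ofAdd] at hsb
  simp only [hFc2, toAdd_ofAdd] at hsc
  -- the local condition
  have hloc : (∀ g ∈ D, B.q (bb g) = 0) ∨ (∀ g ∈ D, B.q (c g) = 0) := by
    obtain ⟨v, hv, hl⟩ := hG.prim
    have hw : ∀ g ∈ D, B.π * a g * v 0 * v 1 + bb g * v 1 ^ 2 -
        B.π * c g * v 0 ^ 2 - B.π * d g * v 0 * v 1 = 0 := by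
      intro g hg
      have e := hl g hg
      simp only [wed, Matrix.mulVec, dotProduct, Fin.sum_univ_two, e00, e01, e10, e11] at e
      apply dvd_cancel (B := B) (k := m)
      rw [mul_zero]
      linear_combination e
    by_cases hv1 : B.q (v 1) = 0
    · right
      have hv0 : B.q (v 0) ≠ 0 := by
        rcases hv with h1 | h1
        · exact h1
        · exact absurd hv1 h1
      obtain ⟨w, hw1⟩ := (B.ker _).1 hv1
      intro g hg
      have e := hw g hg
      have e2 : B.π * (a g * v 0 * w * B.π + bb g * w ^ 2 * B.π -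
          c g * v 0 ^ 2 - d g * v 0 * w * B.π) = B.π * 0 := by
        rw [mul_zero, ← e, hw1]
        ring
      have e3 := mul_left_cancel₀ B.hπ e2
      have e4 : B.q (c g * v 0 ^ 2) = 0 := by
        rw [B.ker]
        exact ⟨a g * v 0 * w + bb g * w ^ 2 - d g * v 0 * w, by linear_combination -e3⟩
      rw [map_mul, map_pow] at e4
      exact (mul_eq_zero.1 e4).resolve_right (pow_ne_zero 2 hv0)
    · left
      intro g hg
      have e := hw g hg
      have e4 : B.q (bb g * v 1 ^ 2) = 0 := by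
        rw [B.ker]
        exact ⟨c g * v 0 ^ 2 + d g * v 0 * v 1 - a g * v 0 * v 1, by linear_combination e⟩
      rw [map_mul, map_pow] at e4
      exact (mul_eq_zero.1 e4).resolve_right (pow_ne_zero 2 hv1)
  -- the tame relations
  have hsq : ∀ l ∈ S1, B.π * a (A.τ l) ^ 2 + bb (A.τ l) * c (A.τ l) = 0 := by
    intro l hl
    have e := congrFun (congrFun (hG.sq l hl) 0) 0
    rw [Matrix.mul_apply, Fin.sum_univ_two] at e
    simp only [Matrix.sub_apply, e00, e01, e10, Matrix.one_apply_eq, Matrix.zero_apply, ne_eq,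
      zero_ne_one, one_ne_zero, not_false_eq_true, Matrix.one_apply_ne] at e
    apply dvd_cancel (B := B) (k := m + (m + 1))
    rw [mul_zero, pow_add]
    linear_combination e
  have hR : ∀ l ∈ S1,
      ((1 + B.π ^ (m + 1) * a (A.σ l)) * a (A.τ l) +
        B.π ^ m * bb (A.σ l) * c (A.τ l) =
      (l : O) * (a (A.τ l) * (1 + B.π ^ (m + 1) * a (A.σ l)) +
        B.π ^ m * bb (A.τ l) * c (A.σ l))) ∧
      ((1 + B.π ^ (m + 1) * a (A.σ l)) * bb (A.τ l) +
        B.π ^ (m + 1) * bb (A.σ l) * d (A.τ l) =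
      (l : O) * (B.π ^ (m + 1) * a (A.τ l) * bb (A.σ l) +
        bb (A.τ l) * (1 + B.π ^ (m + 1) * d (A.σ l)))) ∧
      (B.π ^ (m + 1) * c (A.σ l) * a (A.τ l) +
        (1 + B.π ^ (m + 1) * d (A.σ l)) * c (A.τ l) =
      (l : O) * (c (A.τ l) * (1 + B.π ^ (m + 1) * a (A.σ l)) +
        B.π ^ (m + 1) * d (A.τ l) * c (A.σ l))) := by
    intro l hl
    have e := hG.rel l hl
    have r00 := congrFun (congrFun e 0) 0
    have r01 := congrFun (congrFun e 0) 1
    have r10 := congrFun (congrFun e 1) 0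
    rw [Matrix.smul_apply, smul_eq_mul, Matrix.mul_apply, Matrix.mul_apply, Fin.sum_univ_two,
      Fin.sum_univ_two] at r00 r01 r10
    simp only [Matrix.sub_apply, e00, e01, e10, e11, Matrix.one_apply_eq, ne_eq,
      zero_ne_one, one_ne_zero, not_false_eq_true, Matrix.one_apply_ne] at r00 r01 r10
    refine ⟨?_, ?_, ?_⟩
    · apply dvd_cancel (B := B) (k := m + 1)
      linear_combination r00
    · apply dvd_cancel (B := B) (k := m)
      linear_combination r01
    · apply dvd_cancel (B := B) (k := m + 1)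
      linear_combination r10
  -- conclusion from vanishing
  have fin : (∀ g, B.q (bb g) = 0) ∨ (∀ g, B.q (c g) = 0) →
      ∃ ρ' : G →* GL (Fin 2) O, Rel ρ ρ' ∧ Ev B (m + 1) ρ' := by
    rintro (h1 | h1)
    · exact ⟨ρ, Rel.refl ρ, move3 ρ a bb c d h fun g => (B.ker _).1 (h1 g)⟩
    · exact move2 ρ a bb c d h fun g => (B.ker _).1 (h1 g)
  apply fin
  have hxy : ∀ l ∈ S1, B.q (bb (A.τ l)) * B.q (c (A.τ l)) = 0 := by
    intro l hl
    rw [← map_mul, B.ker]
    exact ⟨-(a (A.τ l) ^ 2), by linear_combination hsq l hl⟩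
  -- the two cases for `l`
  have hcross : ∀ l ∈ S1, B.q (bb (A.σ l)) * B.q (c (A.τ l)) =
      B.q (bb (A.τ l)) * B.q (c (A.σ l)) := by
    intro l hl
    obtain ⟨r1, r2, r3⟩ := hR l hl
    by_cases hdiv : B.π ^ (m + 1) ∣ (l : O) - 1
    · obtain ⟨s, hs⟩ := hdiv
      have hl' : (l : O) = 1 + B.π ^ (m + 1) * s := by linear_combination hs
      have e2 : B.q (bb (A.σ l) * c (A.τ l) - bb (A.τ l) * c (A.σ l)) = 0 := by
        rw [B.ker]
        rw [hl'] at r1
        refine ⟨s * (a (A.τ l) * (1 + B.π ^ (m + 1) * a (A.σ l)) +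
          B.π ^ m * bb (A.τ l) * c (A.σ l)), ?_⟩
        apply dvd_cancel (B := B) (k := m)
        linear_combination r1
      rw [map_sub, map_mul, map_mul, sub_eq_zero] at e2
      exact e2
    · have hne : (l : O) - 1 ≠ 0 := fun h0 => hdiv (by rw [h0]; exact dvd_zero _)
      obtain ⟨n, s, hs, hs0⟩ := spl (B := B) _ hne
      have hnm : n < m + 1 := by
        by_contra hcon
        exact hdiv (hs ▸ (pow_dvd_pow _ (by omega)).mul_right s)
      have hl' : (l : O) = 1 + B.π ^ n * s := by linear_combination hs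
      rw [hl'] at r2 r3
      have z1 : B.q (bb (A.τ l)) = 0 := by
        by_contra hcon
        refine two_lvl (B := B) (k := m + 1) (j := n)
          (x := a (A.σ l) * bb (A.τ l) + bb (A.σ l) * d (A.τ l) - a (A.τ l) * bb (A.σ l) -
            bb (A.τ l) * d (A.σ l))
          (y := s * (B.π ^ (m + 1) * a (A.τ l) * bb (A.σ l) +
            bb (A.τ l) * (1 + B.π ^ (m + 1) * d (A.σ l)))) (by linear_combination r2) ?_ hnm
        rw [map_mul, map_add, map_mul, map_mul, map_pow, q_pi, zero_pow (Nat.succ_ne_zero m),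
          zero_mul, zero_mul, zero_add, map_mul, map_add, map_mul, map_pow, q_pi,
          zero_pow (Nat.succ_ne_zero m), zero_mul, add_zero, map_one, mul_one]
        exact mul_ne_zero hs0 hcon
      have z2 : B.q (c (A.τ l)) = 0 := by
        by_contra hcon
        refine two_lvl (B := B) (k := m + 1) (j := n)
          (x := c (A.σ l) * a (A.τ l) + d (A.σ l) * c (A.τ l) - c (A.τ l) * a (A.σ l) -
            d (A.τ l) * c (A.σ l))
          (y := s * (c (A.τ l) * (1 + B.π ^ (m + 1) * a (A.σ l)) +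
            B.π ^ (m + 1) * d (A.τ l) * c (A.σ l))) (by linear_combination r3) ?_ hnm
        rw [map_mul, map_add, map_mul, map_add, map_mul, map_pow, q_pi,
          zero_pow (Nat.succ_ne_zero m), zero_mul, add_zero, map_one, mul_one, map_mul, map_mul,
          map_pow, q_pi, zero_pow (Nat.succ_ne_zero m), zero_mul, zero_mul, add_zero]
        exact mul_ne_zero hs0 hcon
      rw [z1, z2, mul_zero, zero_mul]
  have hγ1 : tm → B.q (bb A.γ) = 0 ∧ B.q (c A.γ) = 0 := by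
    intro ht
    have e1 := e01 A.γ
    have e2 := e10 A.γ
    rw [A.htm ht, map_one, mt_one, Matrix.one_apply_ne (by decide)] at e1 e2
    rw [A.htm ht]
    have f1 := (mul_eq_zero.1 e1.symm).resolve_left (ppow_ne B m)
    have f2 := (mul_eq_zero.1 e2.symm).resolve_left (ppow_ne B (m + 1))
    rw [f1, f2, map_zero]
    exact ⟨rfl, rfl⟩
  have h1 : ∀ l ∈ S1, B.q (bb (A.τ l)) * (u l * B.q (c A.γ) +
      ∑ j ∈ S1, lam l j * B.q (c (A.τ j))) = 0 := by
    intro l hl
    rw [mul_add, ← sum_congr_mul (A := A) hl (fun l => B.q (bb (A.τ l)))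
      (fun l => B.q (c (A.τ l))) (hxy l hl), ← mul_add, ← A.hu l hl]
    have e := hsc (A.σ l)
    rw [← e, ← hcross l hl]
    by_cases h0 : B.q (bb (A.τ l)) = 0
    · rw [hcross l hl, h0, zero_mul]
    · rw [(mul_eq_zero.1 (hxy l hl)).resolve_left h0, mul_zero]
  have h2 : ∀ l ∈ S1, B.q (c (A.τ l)) * (u l * B.q (bb A.γ) +
      ∑ j ∈ S1, lam l j * B.q (bb (A.τ j))) = 0 := by
    intro l hl
    rw [mul_add, ← sum_congr_mul (A := A) hl (fun l => B.q (c (A.τ l)))
      (fun l => B.q (bb (A.τ l))) (by rw [mul_comm]; exact hxy l hl), ← mul_add, ← A.hu l hl]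
    have e := hsb (A.σ l)
    rw [← e, mul_comm, hcross l hl]
    by_cases h0 : B.q (bb (A.τ l)) = 0
    · rw [h0, zero_mul]
    · rw [← hcross l hl, (mul_eq_zero.1 (hxy l hl)).resolve_left h0, mul_zero]
  have h3 : (B.q (bb A.γ) = 0 ∧ ∑ j ∈ S1, b j * B.q (bb (A.τ j)) = 0) ∨
      (B.q (c A.γ) = 0 ∧ ∑ j ∈ S1, b j * B.q (c (A.τ j)) = 0) := by
    rcases hloc with h4 | h4
    · left
      refine ⟨h4 _ A.hγ, ?_⟩
      have e := hsb A.φ
      rw [h4 _ A.hγ, h4 _ A.hφ, mul_zero, zero_add] at e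
      rw [e]
      exact Finset.sum_congr rfl fun j hj => by rw [A.hb j hj]
    · right
      refine ⟨h4 _ A.hγ, ?_⟩
      have e := hsc A.φ
      rw [h4 _ A.hγ, h4 _ A.hφ, mul_zero, zero_add] at e
      rw [e]
      exact Finset.sum_congr rfl fun j hj => by rw [A.hb j hj]
  rcases hH (B.q (bb A.γ)) (B.q (c A.γ)) (fun l => B.q (bb (A.τ l)))
    (fun l => B.q (c (A.τ l))) hγ1 hxy h1 h2 h3 with ⟨h4, h5⟩ | ⟨h4, h5⟩
  · left
    intro g
    rw [hsb g, h4, mul_zero, zero_add]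
    exact Finset.sum_eq_zero fun l hl => by rw [h5 l hl, mul_zero]
  · right
    intro g
    rw [hsc g, h4, mul_zero, zero_add]
    exact Finset.sum_eq_zero fun l hl => by rw [h5 l hl, mul_zero]

end

end Pool.Agent.TH831.OE
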