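import Pool.Agent.TH831.OE.Ex
import Pool.Agent.TH831.OE.Dat

/-!
# Tame representations
-/

set_option autoImplicit false

namespace Pool.Agent.TH831.OE

open NumberField Matrix Pool.Agent.W569.FM Pool.Agent.W134.FM Pool.Agent.TH831.OT

section
variable {O κ : Type} [CommRing O] [IsDomain O] [Field κ] {B : Bas O κ}
  {G : Type} [Group G] [TopologicalSpace G]
  [IsTopologicalGroup G] {S1 : Finset ℕ} {u : ℕ → κ} {lam : ℕ → ℕ → κ} {b : ℕ → κ}
  {Ur D : Set G} {tm : Prop}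

omit [IsDomain O] in
theorem exists_hom' (f : G → O) (hadd : ∀ g h, B.π ∣ f (g * h) - (f g + f h))
    (hev : ∀ᶠ g in nhds (1 : G), B.π ∣ f g) :
    ∃ F : G →* Multiplicative κ, IsOpen (F.ker : Set G) ∧
      ∀ g, F g = Multiplicative.ofAdd (B.q (f g)) := by
  let F : G →* Multiplicative κ :=
    { toFun := fun g => Multiplicative.ofAdd (B.q (f g))
      map_one' := by rw [(B.ker _).2 hev.self_of_nhds, ofAdd_zero]
      map_mul' := fun g h => by
        rw [← ofAdd_add]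
        congr 1
        have h2 := (B.ker _).2 (hadd g h)
        have h3 : B.q (f (g * h)) - (B.q (f g) + B.q (f h)) = 0 := by
          rw [← map_add, ← map_sub]
          exact h2
        exact sub_eq_zero.1 h3 }
  refine ⟨F, ?_, fun g => rfl⟩
  apply Subgroup.isOpen_of_mem_nhds _ (g := (1 : G))
  filter_upwards [hev] with g hg
  show F g = 1
  show Multiplicative.ofAdd (B.q (f g)) = 1
  rw [(B.ker _).2 hg, ofAdd_zero]

/-- vanishing by the leading term -/
theorem van (A : Ar κ G S1 u lam b Ur D tm) (f : G → O) (c : G → G → O)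
    (hadd : ∀ g h, f (g * h) = f g + f h + f g * c g h) (hc : ∀ g h, B.π ∣ c g h)
    (hcts : ∀ N : ℕ, ∀ᶠ g in nhds (1 : G), B.π ^ N ∣ f g) (hur : ∀ g ∈ Ur, f g = 0)
    (hτ : ∀ l ∈ S1, f (A.τ l) = 0) (hγ : f A.γ = 0) : ∀ g, f g = 0 := by
  classical
  by_contra hcon
  push Not at hcon
  have hex' : ∃ n : ℕ, ∃ g, ¬ B.π ^ (n + 1) ∣ f g := by
    obtain ⟨g, hg⟩ := hcon
    obtain ⟨n, hn⟩ := B.fin _ hg
    exact ⟨n, g, hn⟩
  set N := Nat.find hex' with hN
  obtain ⟨g0, hg0⟩ : ∃ g, ¬ B.π ^ (N + 1) ∣ f g := Nat.find_spec hex'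
  have hall : ∀ g, B.π ^ N ∣ f g := by
    intro g
    rcases Nat.eq_zero_or_pos N with h0 | h0
    · rw [h0, pow_zero]
      exact one_dvd _
    · have h1 := Nat.find_min hex' (m := N - 1) (by omega)
      push Not at h1
      have h2 := h1 g
      rwa [Nat.sub_add_cancel h0] at h2
  choose f' hf' using hall
  have hz : ∀ g, f g = 0 → f' g = 0 := fun g hg =>
    (mul_eq_zero.1 ((hf' g).symm.trans hg)).resolve_left (ppow_ne B N)
  obtain ⟨F, hF1, hF2⟩ := exists_hom' (B := B) f' (fun g h => by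
    obtain ⟨c', hc'⟩ := hc g h
    refine ⟨f' g * c', ?_⟩
    apply dvd_cancel (B := B) (k := N)
    have e := hadd g h
    rw [hf' (g * h), hf' g, hf' h, hc'] at e
    linear_combination e) (by
    filter_upwards [hcts (N + 1)] with g hg
    obtain ⟨y, hy⟩ := hg
    refine ⟨y, ?_⟩
    apply dvd_cancel (B := B) (k := N)
    rw [← hf' g, hy]
    ring)
  have hspan := A.span F hF1 (fun g hg => by rw [hF2, hz g (hur g hg), map_zero, ofAdd_zero]) g0
  simp only [hF2, toAdd_ofAdd] at hspan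
  rw [hz _ hγ, map_zero, mul_zero, zero_add, Finset.sum_eq_zero (fun l hl => by
    rw [hz _ (hτ l hl), map_zero, mul_zero])] at hspan
  obtain ⟨y, hy⟩ := (B.ker _).1 hspan
  exact hg0 ⟨y, by rw [hf' g0, hy]; ring⟩

omit [IsTopologicalGroup G] [TopologicalSpace G] in
/-- upper triangular form -/
theorem tri_of_line {ρ : G →* GL (Fin 2) O} (hline : HasLine ρ Set.univ) (hres : ResU B ρ) :
    ∃ ρ' : G →* GL (Fin 2) O, Rel ρ ρ' ∧ ∀ g, mt (ρ' g) 1 0 = 0 ∧ B.π ∣ mt (ρ' g) 0 0 - 1 ∧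
      B.π ∣ mt (ρ' g) 1 1 - 1 := by
  obtain ⟨v, hv, hl⟩ := hline
  obtain ⟨c, w, hc, rfl, hw⟩ := exists_primitive B v hv
  have hl' : ∀ g, wed (mt (ρ g) *ᵥ w) w = 0 := by
    intro g
    have h1 := hl g trivial
    rw [Matrix.mulVec_smul, wed_smul_left, wed_smul_right] at h1
    exact ((mul_eq_zero.1 ((mul_eq_zero.1 h1).resolve_left hc)).resolve_left hc)
  obtain ⟨U, hU, hUw⟩ := exists_unimod B w hw
  obtain ⟨ρ', hρ', h⟩ := exists_conj ρ U hU
  have h10 : ∀ g, mt (ρ' g) 1 0 = 0 := by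
    intro g
    have hv' : w = U *ᵥ (Pi.single 0 1) := by
      rw [Matrix.mulVec_single_one, ← hUw]
      rfl
    have h1 : wed (mt (ρ' g) *ᵥ (Pi.single 0 1)) (Pi.single 0 1) = wed (mt (ρ g) *ᵥ w) w := by
      conv_rhs => rw [hv']
      have h2 : mt (ρ g) *ᵥ (U *ᵥ (Pi.single 0 1)) = U *ᵥ (mt (ρ' g) *ᵥ (Pi.single 0 1)) := by
        rw [Matrix.mulVec_mulVec, Matrix.mulVec_mulVec, h, ← mul_assoc, ← mul_assoc,
          Matrix.mul_adjugate, hU, one_smul, one_mul]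
      rw [h2, wed_mulVec, hU, one_mul]
    rw [hl' g] at h1
    simp [wed, Matrix.col] at h1
    exact h1
  have hnil : ∀ g, ∃ N : ℕ, red B ((mt (ρ' g) - 1) ^ N) = 0 := by
    intro g
    obtain ⟨N, β, hβ⟩ := hres g
    refine ⟨N, ?_⟩
    have e : ∀ k : ℕ, (mt (ρ' g) - 1) ^ k = U.adjugate * (mt (ρ g) - 1) ^ k * U := by
      intro k
      have e1 : mt (ρ' g) - 1 = U.adjugate * (mt (ρ g) - 1) * U := by
        rw [h, mul_sub, sub_mul, mul_one, Matrix.adjugate_mul, hU, one_smul]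
      induction k with
      | zero => rw [pow_zero, pow_zero, mul_one, Matrix.adjugate_mul, hU, one_smul]
      | succ k ih =>
        rw [pow_succ, ih, e1, pow_succ]
        have : U.adjugate * (mt (ρ g) - 1) ^ k * U * (U.adjugate * (mt (ρ g) - 1) * U) =
            U.adjugate * (mt (ρ g) - 1) ^ k * (U * U.adjugate) * (mt (ρ g) - 1) * U := by
          simp only [mul_assoc]
        rw [this, Matrix.mul_adjugate, hU, one_smul, mul_one]
        simp only [mul_assoc]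
    rw [e N, hβ, map_mul, map_mul, red_smul, q_pi, zero_smul, mul_zero, zero_mul]
  have hpow : ∀ (Y : Matrix (Fin 2) (Fin 2) κ), Y 1 0 = 0 → ∀ k : ℕ,
      (Y ^ k) 1 0 = 0 ∧ (Y ^ k) 0 0 = (Y 0 0) ^ k ∧ (Y ^ k) 1 1 = (Y 1 1) ^ k := by
    intro Y hY k
    induction k with
    | zero => simp
    | succ k ih =>
      obtain ⟨i1, i2, i3⟩ := ih
      refine ⟨?_, ?_, ?_⟩
      · rw [pow_succ, Matrix.mul_apply, Fin.sum_univ_two, i1, hY, zero_mul, mul_zero, add_zero]
      · rw [pow_succ, Matrix.mul_apply, Fin.sum_univ_two, i2, hY, mul_zero, add_zero, pow_succ]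
      · rw [pow_succ, Matrix.mul_apply, Fin.sum_univ_two, i1, i3, zero_mul, zero_add, pow_succ]
  refine ⟨ρ', hρ', fun g => ⟨h10 g, ?_, ?_⟩⟩
  · obtain ⟨N, hN⟩ := hnil g
    rw [map_pow] at hN
    have hY : red B (mt (ρ' g) - 1) 1 0 = 0 := by
      rw [red_apply, Matrix.sub_apply, h10 g, Matrix.one_apply_ne (by decide), sub_zero, map_zero]
    have e := (hpow _ hY N).2.1
    rw [hN, Matrix.zero_apply] at e
    have hN0 : N ≠ 0 := by
      rintro rfl
      rw [pow_zero] at e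
      exact zero_ne_one e
    have e2 := (pow_eq_zero_iff hN0).1 e.symm
    rw [← B.ker]
    rw [red_apply, Matrix.sub_apply, Matrix.one_apply_eq] at e2
    exact e2
  · obtain ⟨N, hN⟩ := hnil g
    rw [map_pow] at hN
    have hY : red B (mt (ρ' g) - 1) 1 0 = 0 := by
      rw [red_apply, Matrix.sub_apply, h10 g, Matrix.one_apply_ne (by decide), sub_zero, map_zero]
    have e := (hpow _ hY N).2.2
    rw [hN, Matrix.zero_apply] at e
    have hN0 : N ≠ 0 := by
      rintro rfl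
      rw [pow_zero] at e
      exact zero_ne_one e
    have e2 := (pow_eq_zero_iff hN0).1 e.symm
    rw [← B.ker]
    rw [red_apply, Matrix.sub_apply, Matrix.one_apply_eq] at e2
    exact e2

/-- a tame representation with a stable line is unipotent -/
theorem tame_tri (A : Ar κ G S1 u lam b Ur D tm) (htm : tm) {t : G → O}
    {ρ : G →* GL (Fin 2) O} (hG : Good B A t ρ) (hres : ResU B ρ) (hline : HasLine ρ Set.univ) :
    ∃ (ρ' : G →* GL (Fin 2) O) (β : G → O), Rel ρ ρ' ∧ Good B A t ρ' ∧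
      (∀ g, mt (ρ' g) = !![1, β g; 0, 1]) ∧ (∀ g h, β (g * h) = β g + β h) ∧
      (∀ N : ℕ, ∀ᶠ g in nhds (1 : G), B.π ^ N ∣ β g) ∧ (∀ g ∈ Ur, β g = 0) ∧ β A.γ = 0 := by
  obtain ⟨ρ', hρ', h⟩ := tri_of_line hline hres
  have hG' := hG.conj hρ'
  have hmul : ∀ g h, mt (ρ' (g * h)) 0 0 = mt (ρ' g) 0 0 * mt (ρ' h) 0 0 ∧
      mt (ρ' (g * h)) 1 1 = mt (ρ' g) 1 1 * mt (ρ' h) 1 1 ∧
      mt (ρ' (g * h)) 0 1 = mt (ρ' g) 0 0 * mt (ρ' h) 0 1 + mt (ρ' g) 0 1 * mt (ρ' h) 1 1 := by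
    intro g g'
    rw [mt_mul, Matrix.mul_apply, Matrix.mul_apply, Matrix.mul_apply, Fin.sum_univ_two,
      Fin.sum_univ_two, Fin.sum_univ_two, (h g).1, (h g').1]
    refine ⟨by ring, by ring, by ring⟩
  have hcts : ∀ (i : Fin 2) (N : ℕ), ∀ᶠ g in nhds (1 : G), B.π ^ N ∣ mt (ρ' g) i i - 1 := by
    intro i N
    filter_upwards [hG'.cont N] with g hg
    obtain ⟨α, hα⟩ := hg
    exact ⟨α i i, by rw [hα]; simp⟩
  have hγ1 : ρ' A.γ = 1 := by rw [A.htm htm, map_one]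
  have hdiag : ∀ (i : Fin 2) g, mt (ρ' g) i i - 1 = 0 := by
    intro i
    refine van (B := B) A (fun g => mt (ρ' g) i i - 1) (fun _ h => mt (ρ' h) i i - 1)
      (fun g h => ?_) (fun g g' => ?_) (hcts i) (fun g hg => ?_) (fun l hl => ?_) ?_
    · fin_cases i
      · show mt (ρ' (g * h)) 0 0 - 1 = (mt (ρ' g) 0 0 - 1) + (mt (ρ' h) 0 0 - 1) +
          (mt (ρ' g) 0 0 - 1) * (mt (ρ' h) 0 0 - 1)
        rw [(hmul g h).1]; ring
      · show mt (ρ' (g * h)) 1 1 - 1 = (mt (ρ' g) 1 1 - 1) + (mt (ρ' h) 1 1 - 1) +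
          (mt (ρ' g) 1 1 - 1) * (mt (ρ' h) 1 1 - 1)
        rw [(hmul g h).2.1]; ring
    · fin_cases i
      · exact (h g').2.1
      · exact (h g').2.2
    · show mt (ρ' g) i i - 1 = 0
      rw [hG'.unr g hg, mt_one, Matrix.one_apply_eq, sub_self]
    · show mt (ρ' (A.τ l)) i i - 1 = 0
      have e := congrFun (congrFun (hG'.sq l hl) i) i
      rw [Matrix.mul_apply, Fin.sum_univ_two, Matrix.zero_apply] at e
      simp only [Matrix.sub_apply] at e
      fin_cases i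
      · simp only [Fin.zero_eta, Matrix.one_apply_eq, (h (A.τ l)).1, ne_eq, zero_ne_one,
          not_false_eq_true, Matrix.one_apply_ne, sub_zero, one_ne_zero, mul_zero, add_zero] at e ⊢
        exact mul_self_eq_zero.1 e
      · simp only [Fin.mk_one, Matrix.one_apply_eq, (h (A.τ l)).1, ne_eq, zero_ne_one,
          not_false_eq_true, Matrix.one_apply_ne, sub_zero, one_ne_zero, zero_mul, zero_add] at e ⊢
        exact mul_self_eq_zero.1 e
    · show mt (ρ' A.γ) i i - 1 = 0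
      rw [hγ1, mt_one, Matrix.one_apply_eq, sub_self]
  refine ⟨ρ', fun g => mt (ρ' g) 0 1, hρ', hG', fun g => ?_, fun g h => ?_, fun N => ?_,
    fun g hg => ?_, ?_⟩
  · ext i j
    fin_cases i <;> fin_cases j
    · exact sub_eq_zero.1 (hdiag 0 g)
    · rfl
    · exact (h g).1
    · exact sub_eq_zero.1 (hdiag 1 g)
  · show mt (ρ' (g * h)) 0 1 = mt (ρ' g) 0 1 + mt (ρ' h) 0 1
    rw [(hmul g h).2.2, sub_eq_zero.1 (hdiag 0 g), sub_eq_zero.1 (hdiag 1 h)]
    ring
  · filter_upwards [hG'.cont N] with g hg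
    obtain ⟨α, hα⟩ := hg
    exact ⟨α 0 1, by rw [hα]; simp⟩
  · show mt (ρ' g) 0 1 = 0
    rw [hG'.unr g hg, mt_one, Matrix.one_apply_ne (by decide)]
  · show mt (ρ' A.γ) 0 1 = 0
    rw [hγ1, mt_one, Matrix.one_apply_ne (by decide)]

/-- characteristic zero: triviality -/
theorem tame_zero [CharZero O] (A : Ar κ G S1 u lam b Ur D tm) (htm : tm)
    (hS1 : ∀ l ∈ S1, l ≠ 1) {t : G → O}
    {ρ : G →* GL (Fin 2) O} (hG : Good B A t ρ) (hres : ResU B ρ) (hline : HasLine ρ Set.univ) :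
    ∀ g, ρ g = 1 := by
  obtain ⟨ρ', β, hρ', hG', h1, h2, h3, h4, h5⟩ := tame_tri A htm hG hres hline
  have hβ : ∀ g, β g = 0 := by
    refine van (B := B) A β (fun _ _ => 0) (fun g h => by rw [h2, mul_zero, add_zero])
      (fun _ _ => dvd_zero _) h3 h4 (fun l hl => ?_) h5
    have e := congrFun (congrFun (hG'.rel l hl) 0) 1
    rw [h1, h1] at e
    simp [Matrix.mul_apply, Fin.sum_univ_two] at e
    -- e : β τ = l * β τ
    have e2 : ((l : O) - 1) * β (A.τ l) = 0 := by linear_combination -e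
    refine (mul_eq_zero.1 e2).resolve_left fun h0 => hS1 l hl ?_
    exact_mod_cast (sub_eq_zero.1 h0 : (l : O) = 1)
  intro g
  apply hρ'.symm.unr
  apply Units.ext
  show mt (ρ' g) = 1
  rw [h1, hβ]
  ext i j
  fin_cases i <;> fin_cases j <;> rfl

end

end Pool.Agent.TH831.OE
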