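import Pool.Agent.TH831.OE.Tame

/-!
# Tame representations of the absolute Galois group of `ℚ`
-/

set_option autoImplicit false

namespace Pool.Agent.TH831.OE

open NumberField Matrix Pool.Agent.W569.FM Pool.Agent.W134.FM Pool.Agent.TH831.OT

section
variable {O κ : Type} [CommRing O] [IsDomain O] [Field κ] {B : Bas O κ}

omit [IsDomain O] in
theorem resU_q {G : Type} [Group G] {ρ : G →* GL (Fin 2) O} (h : ResU B ρ) (g : G) :
    B.q (mt (ρ g)).trace = 2 ∧ B.q (mt (ρ g)).det = 1 := by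
  obtain ⟨N, β, hβ⟩ := h g
  have h1 : IsNilpotent (red B (mt (ρ g)) - 1) := by
    refine ⟨N, ?_⟩
    have e := congrArg (red B) hβ
    rw [map_pow, map_sub, map_one, red_smul, q_pi, zero_smul] at e
    exact e
  have h2 := sq_zero_of_nil h1
  have h3 := trace_zero_of_sq h2
  have h4 : (red B (mt (ρ g)) - 1).det = 0 := by
    have e := congrArg Matrix.det h2
    rw [Matrix.det_mul, Matrix.det_zero] at e
    exact mul_self_eq_zero.1 e
  have e1 : B.q (mt (ρ g)).trace = red B (mt (ρ g)) 0 0 + red B (mt (ρ g)) 1 1 := by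
    rw [Matrix.trace_fin_two, map_add]
    rfl
  have e2 : B.q (mt (ρ g)).det = red B (mt (ρ g)) 0 0 * red B (mt (ρ g)) 1 1 -
      red B (mt (ρ g)) 0 1 * red B (mt (ρ g)) 1 0 := by
    rw [Matrix.det_fin_two, map_sub, map_mul, map_mul]
    rfl
  rw [Matrix.trace_fin_two] at h3
  rw [Matrix.det_fin_two] at h4
  simp only [Matrix.sub_apply, Matrix.one_apply_eq, ne_eq, zero_ne_one, not_false_eq_true,
    Matrix.one_apply_ne, sub_zero, one_ne_zero] at h3 h4
  constructor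
  · rw [e1]; linear_combination h3
  · rw [e2]; linear_combination h4 + h3

theorem det_one_of_sq {M : Matrix (Fin 2) (Fin 2) O} (h : (M - 1) * (M - 1) = 0) : M.det = 1 := by
  have h1 : (M - 1).trace = 0 :=
    (Matrix.isNilpotent_trace_of_isNilpotent ⟨2, by rw [pow_two, h]⟩).eq_zero
  have h2 : (M - 1).det = 0 := by
    have e := congrArg Matrix.det h
    rw [Matrix.det_mul, Matrix.det_zero] at e
    exact mul_self_eq_zero.1 e
  rw [Matrix.trace_fin_two] at h1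
  rw [Matrix.det_fin_two] at h2 ⊢
  simp only [Matrix.sub_apply, Matrix.one_apply_eq, ne_eq, zero_ne_one, not_false_eq_true,
    Matrix.one_apply_ne, sub_zero, one_ne_zero] at h1 h2
  linear_combination h2 + h1

theorem det_ne_zero (M : GL (Fin 2) O) : (mt M).det ≠ 0 := by
  intro h
  have h1 : (mt M * mt M⁻¹) = 1 := by
    have e := congrArg Units.val (mul_inv_cancel M)
    exact e
  have h2 := congrArg Matrix.det h1
  rw [Matrix.det_mul, h, zero_mul, Matrix.det_one] at h2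
  exact zero_ne_one h2

variable {p : ℕ} [hp : Fact p.Prime]

/-- unipotence from the size of the ramification -/
theorem unip_of_small (hp2 : p ≠ 2) (hpκ : ∀ n : ℕ, (n : κ) = 0 ↔ p ∣ n)
    (hpπ : B.π ∣ (p : O))
    (hsm : ((p : O) ≠ 0 ∧ (p : O) * B.π ∣ B.π ^ ((p - 1) / 2)) ∨ CharP O p)
    {ρ : GF ℚ →* GL (Fin 2) O} (hρ : Cts B ρ) (hres : ResU B ρ) {l : ℕ} (hl : l.Prime)
    (hlp : p ≠ l) (hpl : p ∣ l - 1) {P : Ideal (OO ℚ)} (hP : P.IsMaximal) (hlP : (l : OO ℚ) ∈ P)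
    {τ : GF ℚ} (hτ : InInertia P τ) : (mt (ρ τ) - 1) * (mt (ρ τ) - 1) = 0 := by
  obtain ⟨σ, hσ⟩ := Pool.Agent.W924.UF.frobp l hl P hP hlP
  have h1 := exact_rel hp.out hpπ ρ hρ hres hl hlp hP hlP hτ hσ
  obtain ⟨h2, h3⟩ := resU_q hres τ
  have hdet : (mt (ρ τ)).det = 1 := by
    have e := congrArg Matrix.det h1
    rw [Matrix.det_mul, Matrix.det_mul, Matrix.det_pow, mul_comm] at e
    have e2 := mul_right_cancel₀ (det_ne_zero _) e
    have e3 : (mt (ρ τ)).det ^ (l - 1) = 1 := by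
      have hl1 : l = (l - 1) + 1 := by have := hl.two_le; omega
      rw [hl1, pow_succ] at e2
      apply mul_right_cancel₀ (det_ne_zero (ρ τ))
      rw [one_mul, ← hl1] at *
      rw [← e2]
    refine tors_free' hp.out hp2 hpκ hsm ?_ (by have := hl.two_le; omega) e3
    rw [← B.ker, map_sub, h3, map_one, sub_self]
  have h2κ : (2 : κ) ≠ 0 := by
    intro h
    have h4 : ((2 : ℕ) : κ) = 0 := by exact_mod_cast h
    have := Nat.le_of_dvd two_pos ((hpκ 2).1 h4)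
    have := hp.out.two_le
    omega
  exact tame_unip hp.out hp2 hl.one_lt hpl h2κ hpκ hsm hdet h2 (det_ne_zero _) h1

/-- the tame relation, for unipotent inertia -/
theorem rel_of_sq {M P : Matrix (Fin 2) (Fin 2) O} {l : ℕ} (hsq : (M - 1) * (M - 1) = 0)
    (h : P * M = M ^ l * P) : P * (M - 1) = (l : O) • ((M - 1) * P) := by
  set N := M - 1 with hN
  have h5 : M = 1 + N := by rw [hN]; abel
  rw [h5, one_add_pow hsq, mul_add, add_mul, mul_one, one_mul, add_right_inj,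
    Matrix.smul_mul] at h
  exact h

/-- inertia elements at primes outside `S` -/
def UrT (S : Finset ℕ) : Set (GF ℚ) :=
  {τ | ∃ P : Ideal (OO ℚ), P.IsMaximal ∧ (∀ l ∈ S, (l : OO ℚ) ∉ P) ∧ InInertia P τ}

variable {S : Finset ℕ} {χ : ∀ j : ℕ, (ZMod j)ˣ →* Multiplicative (ZMod p)}
  {P0 : Ideal (OO ℚ)}

theorem exists_tameAr (hS : ∀ l ∈ S, l.Prime ∧ l ≠ p) (hP0 : P0.IsMaximal)
    (hpP0 : (p : OO ℚ) ∈ P0) (d : Dat p S χ P0) (ι : ZMod p →+* κ) (lam : ℕ → ℕ → κ)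
    (hlam : ∀ l ∈ S, p ∣ l - 1 → ∀ j ∈ S, p ∣ j - 1 → j ≠ l → ∀ x : (ZMod j)ˣ,
      (x : ZMod j) = (l : ZMod j) → lam l j = ι (Multiplicative.toAdd (χ j x))) :
    ∃ A : Ar κ (GF ℚ) (S.filter fun l => p ∣ l - 1) (fun _ => 0) lam (fun _ => 0) (UrT S)
      {1} True, A.γ = 1 ∧ A.τ = d.τ ∧ A.σ = d.σ ∧
        ∀ l g, A.chi l g = ι (Multiplicative.toAdd (d.ψ l g)) := by
  have hmem : ∀ l ∈ S.filter (fun l => p ∣ l - 1), l ∈ S ∧ p ∣ l - 1 := fun l hl =>
    Finset.mem_filter.1 hl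
  refine ⟨{ psi := fun _ => 0
            chi := fun l g => ι (Multiplicative.toAdd (d.ψ l g))
            γ := 1
            φ := 1
            τ := d.τ
            σ := d.σ
            hγ := rfl
            hφ := rfl
            hu := fun _ _ => rfl
            hlam := fun l hl j hj hjl => ?_
            hb := fun j _ => by rw [map_one, toAdd_one, map_zero]
            span := fun F hF hFur g => ?_
            htm := fun _ => rfl }, rfl, rfl, rfl, fun _ _ => rfl⟩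
  · obtain ⟨hl1, hl2⟩ := hmem l hl
    obtain ⟨hj1, hj2⟩ := hmem j hj
    have hlp := (hS l hl1).1
    have hjp := (hS j hj1).1
    have hcop : Nat.Coprime l j := (Nat.coprime_primes hlp hjp).2 (Ne.symm hjl)
    rw [d.hlam j hj1 hj2 l hlp (Ne.symm hjl) (ZMod.unitOfCoprime l hcop)
      (ZMod.coe_unitOfCoprime l hcop)]
    exact (hlam l hl1 hl2 j hj1 hj2 hjl _ (ZMod.coe_unitOfCoprime l hcop)).symm
  · have h1 := d.spanK ι F hF (fun g hg => hFur g ?_) g
    · have h2 : F d.γ = 1 := by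
        apply hFur
        refine ⟨P0, hP0, fun l hl h => ?_, d.hγ⟩
        exact (hS l hl).2 (char_unique hP0 (hS l hl).1 hp.out h hpP0)
      rw [h1, h2, toAdd_one, mul_zero, zero_mul]
    · obtain ⟨P, hP, h2, h3, h4⟩ := hg
      exact ⟨P, hP, h2, h4⟩

/-- the determinant is trivial -/
theorem tame_det {T : Finset ℕ} {lam : ℕ → ℕ → κ} {D : Set (GF ℚ)}
    (A : Ar κ (GF ℚ) T (fun _ => 0) lam (fun _ => 0) (UrT S) D True)
    {ρ : GF ℚ →* GL (Fin 2) O} (hρ : Cts B ρ) (hres : ResU B ρ)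
    (hur : ∀ g ∈ UrT S, ρ g = 1)
    (hsq : ∀ l ∈ T, (mt (ρ (A.τ l)) - 1) * (mt (ρ (A.τ l)) - 1) = 0) (g : GF ℚ) :
    (mt (ρ g)).det = 1 := by
  have h := van (B := B) A (fun g => (mt (ρ g)).det - 1) (fun _ h => (mt (ρ h)).det - 1)
    (fun g h => by
      show (mt (ρ (g * h))).det - 1 = _
      rw [mt_mul, Matrix.det_mul]
      ring) (fun g h => by
      rw [← B.ker, map_sub, (resU_q hres h).2, map_one, sub_self]) (fun N => by
      filter_upwards [hρ N] with g hg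
      obtain ⟨α, hα⟩ := hg
      refine ⟨α 0 0 + α 1 1 + B.π ^ N * (α 0 0 * α 1 1 - α 0 1 * α 1 0), ?_⟩
      rw [hα, Matrix.det_fin_two]
      simp
      ring) (fun g hg => by
      show (mt (ρ g)).det - 1 = 0
      rw [hur g hg, mt_one, Matrix.det_one, sub_self]) (fun l hl => by
      show (mt (ρ (A.τ l))).det - 1 = 0
      rw [det_one_of_sq (hsq l hl), sub_self]) (by
      show (mt (ρ A.γ)).det - 1 = 0
      rw [A.htm trivial, map_one, mt_one, Matrix.det_one, sub_self]) g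
  exact sub_eq_zero.1 h

/-- **the general tame theorem**: there is a stable line -/
theorem tame_line (hp2 : p ≠ 2) (hpκ : ∀ n : ℕ, (n : κ) = 0 ↔ p ∣ n) (hpπ : B.π ∣ (p : O))
    (hS : ∀ l ∈ S, l.Prime ∧ l ≠ p) (d : Dat p S χ P0) {lam : ℕ → ℕ → κ}
    (hH0 : H0 (S.filter fun l => p ∣ l - 1) (fun _ => 0) lam (fun _ => 0) True)
    (hH1 : ∀ k, 1 ≤ k →
      H1 B (S.filter fun l => p ∣ l - 1) (fun _ => 0) lam (fun _ => 0) True k)
    (A : Ar κ (GF ℚ) (S.filter fun l => p ∣ l - 1) (fun _ => 0) lam (fun _ => 0) (UrT S)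
      {1} True) (hAτ : A.τ = d.τ) (hAσ : A.σ = d.σ)
    {ρ : GF ℚ →* GL (Fin 2) O} (hρ : Cts B ρ) (hres : ResU B ρ)
    (hur : ∀ g ∈ UrT S, ρ g = 1)
    (hU : ∀ l ∈ S, p ∣ l - 1 → ∀ P : Ideal (OO ℚ), P.IsMaximal → (l : OO ℚ) ∈ P →
      ∀ τ : GF ℚ, InInertia P τ → (mt (ρ τ) - 1) * (mt (ρ τ) - 1) = 0)
    (hod : ∃ ρ' : GF ℚ →* GL (Fin 2) O, Rel ρ ρ' ∧ Od B 0 ρ') :
    Good B A (fun g => (mt (ρ g)).trace) ρ ∧ HasLine ρ Set.univ := by
  have hmem : ∀ l ∈ S.filter (fun l => p ∣ l - 1), l ∈ S ∧ p ∣ l - 1 := fun l hl =>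
    Finset.mem_filter.1 hl
  have hsq : ∀ l ∈ S.filter (fun l => p ∣ l - 1),
      (mt (ρ (A.τ l)) - 1) * (mt (ρ (A.τ l)) - 1) = 0 := by
    intro l hl
    obtain ⟨hl1, hl2⟩ := hmem l hl
    obtain ⟨h1, h2⟩ := d.hP l (hS l hl1).1
    rw [hAτ]
    exact hU l hl1 hl2 _ h1 h2 _ (d.hτ l hl1 hl2)
  have hG : Good B A (fun g => (mt (ρ g)).trace) ρ := by
    refine ⟨hρ, hur, tame_det A hρ hres hur hsq, fun g => rfl, ?_, hsq, fun l hl => ?_⟩
    · refine ⟨Pi.single 0 1, fun h => by simpa using congrFun h 0, ?_⟩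
      rintro g rfl
      rw [map_one, mt_one, Matrix.one_mulVec, wed_self]
    · obtain ⟨hl1, hl2⟩ := hmem l hl
      obtain ⟨h1, h2⟩ := d.hP l (hS l hl1).1
      apply rel_of_sq (hsq l hl)
      rw [hAτ, hAσ]
      exact exact_rel hp.out hpπ ρ hρ hres (hS l hl1).1 (Ne.symm (hS l hl1).2) h1 h2
        (d.hτ l hl1 hl2) (d.hσ l (hS l hl1).1)
  obtain ⟨ρ', hρ', hOd⟩ := hod
  have h2κ : (2 : κ) ≠ 0 := by
    intro h
    have h4 : ((2 : ℕ) : κ) = 0 := by exact_mod_cast h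
    have := Nat.le_of_dvd two_pos ((hpκ 2).1 h4)
    have := hp.out.two_le
    omega
  exact ⟨hG, hρ'.symm.line (main h2κ hH0 hH1 (fun h => absurd trivial h) (hG.conj hρ') hOd)⟩

end

end Pool.Agent.TH831.OE
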