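import Pool.Agent.TH831.OE.Base

/-!
# Unipotence of tame inertia
-/

set_option autoImplicit false

namespace Pool.Agent.TH831.OE

open Matrix Polynomial Pool.Agent.TH831.OT

/-- `1 + X + ... + X ^ (p - 1)` modulo `p` -/
theorem exists_g {p : ℕ} (hp : p.Prime) : ∃ g : ℤ[X], g.eval 1 = 1 ∧
    ∑ i ∈ Finset.range p, (X : ℤ[X]) ^ i = (X - 1) ^ (p - 1) + (p : ℤ[X]) * g := by
  haveI : Fact p.Prime := ⟨hp⟩
  have h1 : (Polynomial.map (Int.castRingHom (ZMod p))
      (∑ i ∈ Finset.range p, (X : ℤ[X]) ^ i - (X - 1) ^ (p - 1))) = 0 := by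
    rw [Polynomial.map_sub, sub_eq_zero, Polynomial.map_sum, Polynomial.map_pow,
      Polynomial.map_sub, Polynomial.map_one, Polynomial.map_X]
    simp only [Polynomial.map_pow, Polynomial.map_X]
    have hX : (X - 1 : (ZMod p)[X]) ≠ 0 := by
      have := Polynomial.X_sub_C_ne_zero (1 : ZMod p)
      rwa [Polynomial.C_1] at this
    apply mul_left_cancel₀ hX
    rw [mul_geom_sum, ← pow_succ', Nat.sub_add_cancel hp.one_le, sub_pow_char, one_pow]
  have h1' : C ((p : ℕ) : ℤ) ∣ (∑ i ∈ Finset.range p, (X : ℤ[X]) ^ i - (X - 1) ^ (p - 1)) := by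
    rw [Polynomial.C_dvd_iff_dvd_coeff]
    intro i
    rw [← ZMod.intCast_zmod_eq_zero_iff_dvd]
    have h2 := congrArg (fun f => Polynomial.coeff f i) h1
    simpa only [Polynomial.coeff_map, Polynomial.coeff_zero, eq_intCast] using h2
  obtain ⟨g, hg⟩ := h1'
  have hg' : ∑ i ∈ Finset.range p, (X : ℤ[X]) ^ i = (X - 1) ^ (p - 1) + (p : ℤ[X]) * g := by
    have h2 : (C ((p : ℕ) : ℤ) : ℤ[X]) = (p : ℤ[X]) := by simp
    rw [← h2, ← hg]
    ring
  refine ⟨g, ?_, hg'⟩
  have h3 := congrArg (Polynomial.eval 1) hg'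
  have hp1 : p - 1 ≠ 0 := by have := hp.two_le; omega
  simp only [Polynomial.eval_finsetSum, Polynomial.eval_pow, Polynomial.eval_X, one_pow,
    Finset.sum_const, Finset.card_range, nsmul_eq_mul, mul_one, Polynomial.eval_add,
    Polynomial.eval_sub, Polynomial.eval_one, sub_self, zero_pow hp1, zero_add,
    Polynomial.eval_mul, Polynomial.eval_natCast] at h3
  have hp0 : (p : ℤ) ≠ 0 := by exact_mod_cast hp.ne_zero
  exact (mul_left_cancel₀ hp0 (by rw [mul_one]; exact h3)).symm

section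
variable {O κ : Type} [CommRing O] [IsDomain O] [Field κ] {B : Bas O κ}

/-- Cayley-Hamilton for `M - 1` -/
theorem sq_sub_one {R : Type} [CommRing R] {M : Matrix (Fin 2) (Fin 2) R} (hdet : M.det = 1) :
    (M - 1) * (M - 1) = (M.trace - 2) • M := by
  rw [Matrix.det_fin_two] at hdet
  rw [Matrix.trace_fin_two]
  ext i j
  rw [Matrix.mul_apply, Fin.sum_univ_two]
  fin_cases i <;> fin_cases j <;>
    simp [Matrix.smul_apply]
  · linear_combination -hdet
  · ring
  · ring
  · linear_combination -hdet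

omit [IsDomain O] in
/-- polynomials in a residually unipotent matrix -/
theorem red_poly {M : Matrix (Fin 2) (Fin 2) O} (hdet : M.det = 1) (htr : B.q M.trace = 2)
    (f : O[X]) : ∃ c : κ, red B (aeval M f) = B.q (f.eval 1) • 1 + c • (red B M - 1) := by
  have hN : (red B M - 1) * (red B M - 1) = 0 := by
    have h1 := congrArg (red B) (sq_sub_one hdet)
    rw [map_mul, map_sub, map_one, red_smul, map_sub, htr] at h1
    rw [h1]
    have : B.q (2 : O) = 2 := by
      have := map_ofNat B.q 2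
      exact this
    rw [this, sub_self, zero_smul]
  have hM : red B M * (red B M - 1) = red B M - 1 := by
    have : red B M * (red B M - 1) = (red B M - 1) + (red B M - 1) * (red B M - 1) := by
      noncomm_ring
    rw [this, hN, add_zero]
  induction f using Polynomial.induction_on with
  | C a =>
    refine ⟨0, ?_⟩
    rw [Polynomial.aeval_C, Polynomial.eval_C, zero_smul, add_zero, Algebra.algebraMap_eq_smul_one,
      red_smul, map_one]
  | add f g hf hg =>
    obtain ⟨c, hc⟩ := hf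
    obtain ⟨d, hd⟩ := hg
    refine ⟨c + d, ?_⟩
    rw [map_add, map_add, hc, hd, Polynomial.eval_add, map_add, add_smul, add_smul]
    abel
  | monomial n a ih =>
    obtain ⟨c, hc⟩ := ih
    refine ⟨B.q a + c, ?_⟩
    have he : ∀ k : ℕ, B.q (Polynomial.eval 1 (C a * X ^ k)) = B.q a := by
      intro k
      simp
    have hx : aeval M (C a * X ^ (n + 1)) = aeval M (C a * X ^ n) * M := by
      rw [pow_succ, ← mul_assoc, map_mul, Polynomial.aeval_X]
    rw [he] at hc ⊢
    rw [hx, map_mul, hc, add_mul, Matrix.smul_mul, Matrix.smul_mul, one_mul]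
    have h3 : (red B M - 1) * red B M = red B M - 1 := by
      have : (red B M - 1) * red B M = (red B M - 1) + (red B M - 1) * (red B M - 1) := by
        noncomm_ring
      rw [this, hN, add_zero]
    have h4 : B.q a • red B M = B.q a • 1 + B.q a • (red B M - 1) := by
      rw [smul_sub]
      abel
    rw [h3, add_smul, h4]
    abel

omit [IsDomain O] in
theorem trace_poly {M : Matrix (Fin 2) (Fin 2) O} (hdet : M.det = 1) (htr : B.q M.trace = 2)
    (f : O[X]) : B.q (aeval M f).trace = 2 * B.q (f.eval 1) := by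
  obtain ⟨c, hc⟩ := red_poly hdet htr f
  have h1 : B.q (aeval M f).trace = (red B (aeval M f)).trace := by
    rw [Matrix.trace_fin_two, Matrix.trace_fin_two, map_add]
    rfl
  have h2 : (red B M).trace = 2 := by
    rw [← htr, Matrix.trace_fin_two, Matrix.trace_fin_two, map_add]
    rfl
  rw [h1, hc, Matrix.trace_add, Matrix.trace_smul, Matrix.trace_smul, Matrix.trace_sub,
    Matrix.trace_one, Fintype.card_fin, h2]
  simp
  ring

/-- one step: `M ^ p - 1` in terms of `M - 1`, small ramification -/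
theorem step_small {p : ℕ} (hp : p.Prime) (hp2 : p ≠ 2) (hsm : (p : O) * B.π ∣ B.π ^ ((p - 1) / 2))
    {M : Matrix (Fin 2) (Fin 2) O} (hdet : M.det = 1) (htr : B.q M.trace = 2) :
    ∃ E : O[X], B.q (E.eval 1) = 1 ∧ M ^ p - 1 = (p : O) • ((M - 1) * aeval M E) := by
  obtain ⟨g, hg1, hg⟩ := exists_g hp
  obtain ⟨z, hz⟩ := hsm
  have hq2 : B.q (2 : O) = 2 := map_ofNat B.q 2
  obtain ⟨d', hd'⟩ := (B.ker (M.trace - 2)).1 (by rw [map_sub, htr, hq2, sub_self])
  set h := (p - 1) / 2 with hh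
  have hp1 : p - 1 = 2 * h := by
    have : Odd p := hp.odd_of_ne_two hp2
    obtain ⟨k, hk⟩ := this
    omega
  set G : O[X] := g.map (Int.castRingHom O) with hG
  refine ⟨G + C (B.π * (z * d' ^ h)) * X ^ h, ?_, ?_⟩
  · have h1 : G.eval 1 = 1 := by
      have h2 : (1 : O) = Int.castRingHom O 1 := by simp
      rw [hG, h2, Polynomial.eval_map, Polynomial.eval₂_at_apply, hg1]
    rw [Polynomial.eval_add, map_add, h1, map_one, Polynomial.eval_mul, Polynomial.eval_C,
      Polynomial.eval_pow, Polynomial.eval_X, one_pow, mul_one, map_mul, q_pi, zero_mul, add_zero]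
  · have h1 : M ^ p - 1 = (M - 1) * ∑ i ∈ Finset.range p, M ^ i := (mul_geom_sum M p).symm
    have h2 : ∑ i ∈ Finset.range p, M ^ i = (M - 1) ^ (p - 1) + (p : O) • aeval M G := by
      have h3 := congrArg (fun f : ℤ[X] => aeval M (f.map (Int.castRingHom O))) hg
      simp only [Polynomial.map_sum, Polynomial.map_pow, Polynomial.map_X, Polynomial.map_add,
        Polynomial.map_sub, Polynomial.map_one, Polynomial.map_mul, Polynomial.map_natCast,
        map_sum, map_pow, Polynomial.aeval_X, map_add, map_sub, map_one, map_mul,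
        map_natCast] at h3
      rw [h3, ← hG, Nat.cast_smul_eq_nsmul, nsmul_eq_mul]
    have h4 : (M - 1) ^ (p - 1) = (p : O) • aeval M (C (B.π * (z * d' ^ h)) * X ^ h : O[X]) := by
      rw [hp1, pow_mul, pow_two, sq_sub_one hdet, _root_.smul_pow, hd', mul_pow, hz, map_mul, map_pow,
        Polynomial.aeval_X, Polynomial.aeval_C, Algebra.algebraMap_eq_smul_one, Matrix.smul_mul,
        one_mul, smul_smul]
      congr 1
      ring
    rw [h1, h2, h4, ← smul_add, ← map_add, Matrix.mul_smul, add_comm G]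

/-- iterating -/
theorem iter_small {p : ℕ} (hp : p.Prime) (hp2 : p ≠ 2)
    (hsm : (p : O) * B.π ∣ B.π ^ ((p - 1) / 2))
    {M : Matrix (Fin 2) (Fin 2) O} (hdet : M.det = 1) (htr : B.q M.trace = 2) (r : ℕ) :
    ∃ E : O[X], B.q (E.eval 1) = 1 ∧ M ^ (p ^ r) - 1 = (p : O) ^ r • ((M - 1) * aeval M E) := by
  induction r with
  | zero => exact ⟨1, by simp, by simp⟩
  | succ r ih =>
    obtain ⟨E, hE, hE'⟩ := ih
    have h1 : (M ^ (p ^ r)).det = 1 := by rw [Matrix.det_pow, hdet, one_pow]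
    have h2 : B.q (M ^ (p ^ r)).trace = 2 := by
      have h3 := trace_poly hdet htr (X ^ (p ^ r) : O[X])
      rw [map_pow, Polynomial.aeval_X] at h3
      rw [h3]
      simp
    obtain ⟨F, hF, hF'⟩ := step_small hp hp2 hsm h1 h2
    refine ⟨E * F.comp (X ^ (p ^ r)), ?_, ?_⟩
    · rw [Polynomial.eval_mul, Polynomial.eval_comp, Polynomial.eval_pow, Polynomial.eval_X,
        one_pow, map_mul, hE, hF, mul_one]
    · rw [pow_succ p r, pow_mul M, hF', hE', map_mul, Polynomial.aeval_comp, map_pow,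
        Polynomial.aeval_X, Matrix.smul_mul, smul_smul, pow_succ (p : O) r, mul_comm (p : O),
        mul_assoc (M - 1)]

/-- characteristic `p` -/
theorem iter_char {p : ℕ} (hp : p.Prime) (hp2 : p ≠ 2) [CharP O p]
    {M : Matrix (Fin 2) (Fin 2) O} (hdet : M.det = 1) (r : ℕ) :
    M ^ (p ^ r) - 1 = (M.trace - 2) ^ ((p ^ r - 1) / 2) •
      ((M - 1) * aeval M (X ^ ((p ^ r - 1) / 2) : O[X])) := by
  haveI : Fact p.Prime := ⟨hp⟩
  haveI : CharP (Matrix (Fin 2) (Fin 2) O) p := inferInstance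
  set c := (p ^ r - 1) / 2 with hc
  have hodd : p ^ r = 2 * c + 1 := by
    have : Odd (p ^ r) := (hp.odd_of_ne_two hp2).pow
    obtain ⟨k, hk⟩ := this
    omega
  have h1 : M ^ (p ^ r) - 1 = (M - 1) ^ (p ^ r) := by
    rw [sub_pow_char_pow_of_commute _ _ (Commute.one_right M), one_pow]
  have h2 : M ^ c * (M - 1) = (M - 1) * M ^ c :=
    ((Commute.pow_left (Commute.refl M) c).sub_right (Commute.one_right _)).eq
  have h3 : (M - 1) ^ (2 * c + 1) = ((M.trace - 2) • M) ^ c * (M - 1) := by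
    rw [pow_succ, pow_mul, pow_two, sq_sub_one hdet]
  have h4 : ((M.trace - 2) • M) ^ c = (M.trace - 2) ^ c • M ^ c := _root_.smul_pow _ _ _
  rw [h1, hodd, h3, h4, map_pow, Polynomial.aeval_X, Matrix.smul_mul, h2]

/-- the core computation -/
theorem det_zero_core {l q m : ℕ} {M P : Matrix (Fin 2) (Fin 2) O} (hdet : M.det = 1)
    (htr : B.q M.trace = 2) (hP : P.det ≠ 0) (hrel : P * M = M ^ l * P) (hl : l = 1 + q * m)
    (h2 : (2 : κ) ≠ 0) (hm : (m : κ) ≠ 0) {c : O} (hc0 : c ≠ 0) (hqc : B.q c = 0) {E : O[X]}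
    (hE : B.q (E.eval 1) = 1) (hME : M ^ q - 1 = c • ((M - 1) * aeval M E)) :
    M.trace = 2 := by
  by_contra hne
  -- `M ^ (q m) - 1`
  set F : O[X] := E * ∑ i ∈ Finset.range m, (X ^ q) ^ i with hF
  have h3 : M ^ (q * m) - 1 = c • ((M - 1) * aeval M F) := by
    have e : aeval M F = aeval M E * ∑ i ∈ Finset.range m, (M ^ q) ^ i := by
      rw [hF, map_mul, map_sum]
      simp only [map_pow, Polynomial.aeval_X]
    rw [pow_mul, ← mul_geom_sum (M ^ q) m, hME, e, Matrix.smul_mul, mul_assoc]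
  have hF1 : B.q (F.eval 1) = m := by
    rw [hF, Polynomial.eval_mul, map_mul, hE, one_mul]
    simp [Polynomial.eval_finsetSum]
  set K := aeval M (X * F : O[X]) with hK
  have hK1 : B.q K.trace = 2 * m := by
    rw [hK, trace_poly hdet htr, Polynomial.eval_mul, Polynomial.eval_X, one_mul, hF1]
  have hcomm : M * (M - 1) = (M - 1) * M := by noncomm_ring
  have h4 : M ^ l - 1 = (M - 1) * (1 + c • K) := by
    have h5 : M ^ l = M + M * (M ^ (q * m) - 1) := by
      rw [hl, pow_add, pow_one, mul_sub, mul_one]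
      abel
    have e : K = M * aeval M F := by
      rw [hK, map_mul, Polynomial.aeval_X]
    rw [h5, h3, e, Matrix.mul_smul, ← mul_assoc, hcomm, mul_add, mul_one, Matrix.mul_smul,
      mul_assoc]
    abel
  have h5 : P * (M - 1) = (M - 1) * (1 + c • K) * P := by
    rw [← h4, mul_sub, hrel, sub_mul, mul_one, one_mul]
  have h6 := congrArg Matrix.det h5
  rw [Matrix.det_mul, Matrix.det_mul, Matrix.det_mul, mul_comm P.det] at h6
  have h7 := mul_right_cancel₀ hP h6
  have hdN : (M - 1).det ≠ 0 := by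
    have h8 : (M - 1).det = 2 - M.trace := by
      rw [Matrix.det_fin_two] at hdet ⊢
      rw [Matrix.trace_fin_two]
      simp
      linear_combination hdet
    rw [h8]
    exact sub_ne_zero.2 (Ne.symm hne)
  have h8 : (1 + c • K).det = 1 := by
    apply mul_left_cancel₀ hdN
    rw [← h7, mul_one]
  have h9 : c * (K.trace + c * K.det) = 0 := by
    rw [Matrix.det_fin_two] at h8 ⊢
    rw [Matrix.trace_fin_two]
    simp at h8
    linear_combination h8
  have h10 := congrArg B.q ((mul_eq_zero.1 h9).resolve_left hc0)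
  rw [map_add, map_mul, hqc, zero_mul, add_zero, hK1, map_zero] at h10
  rcases mul_eq_zero.1 h10 with h | h
  · exact h2 h
  · exact hm h

/-- **unipotence of tame inertia** -/
theorem tame_unip {p l : ℕ} (hp : p.Prime) (hp2 : p ≠ 2) (hl : 1 < l) (hpl : p ∣ l - 1)
    (h2 : (2 : κ) ≠ 0) (hpκ : ∀ n : ℕ, (n : κ) = 0 ↔ p ∣ n)
    (hsm : ((p : O) ≠ 0 ∧ (p : O) * B.π ∣ B.π ^ ((p - 1) / 2)) ∨ CharP O p)
    {M P : Matrix (Fin 2) (Fin 2) O} (hdet : M.det = 1)
    (htr : B.q M.trace = 2) (hP : P.det ≠ 0) (hrel : P * M = M ^ l * P) :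
    (M - 1) * (M - 1) = 0 := by
  suffices h : M.trace = 2 by
    rw [sq_sub_one hdet, h, sub_self, zero_smul]
  obtain ⟨r, m, hm, hlm⟩ := Nat.exists_eq_pow_mul_and_not_dvd (n := l - 1) (by omega) p
    hp.ne_one
  have hr : r ≠ 0 := by
    rintro rfl
    rw [pow_zero, one_mul] at hlm
    exact hm (hlm ▸ hpl)
  have hl' : l = 1 + p ^ r * m := by omega
  have hmκ : (m : κ) ≠ 0 := fun h => hm ((hpκ m).1 h)
  rcases hsm with ⟨hp0, hsm⟩ | hchar
  · obtain ⟨E, hE, hME⟩ := iter_small hp hp2 hsm hdet htr r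
    refine det_zero_core hdet htr hP hrel hl' h2 hmκ (pow_ne_zero r hp0) ?_ hE hME
    rw [map_pow, map_natCast, (hpκ p).2 dvd_rfl, zero_pow hr]
  · by_contra hne
    apply hne
    refine det_zero_core hdet htr hP hrel hl' h2 hmκ
      (c := (M.trace - 2) ^ ((p ^ r - 1) / 2)) (pow_ne_zero _ (sub_ne_zero.2 hne)) ?_ (by simp)
      (iter_char hp hp2 hdet r)
    have hq2 : B.q (2 : O) = 2 := map_ofNat B.q 2
    rw [map_pow, map_sub, htr, hq2, sub_self, zero_pow]
    have h3 : 3 ≤ p := by have := hp.two_le; omega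
    have h4 : p ≤ p ^ r := Nat.le_self_pow hr p
    omega

end

end Pool.Agent.TH831.OE
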